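import Mathlib
import Pool.Agent.Lib.MP_44a246_ntY.Y05

/-!
The Wronskian for a multiple of a derivation, and the precise local bound.
-/

namespace Pool.Agent.Lib.MP_44a246_ntFP

open Pool.Agent.Lib.MP_44a246_nt
open Pool.Agent.Lib.MP_44a246_ntL
open Pool.Agent.Lib.MP_44a246_ntY
open WithZero

variable {κ L : Type*} [Field κ] [Field L] [Algebra κ L]

/-- the coefficients of the iterated derivative for `b • D` -/
noncomputable def cB (D : Derivation κ L L) (b : L) : ℕ → ℕ → L
  | 0, l => if l = 0 then 1 else 0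
  | i + 1, l => b * (D (cB D b i l) + if l = 0 then 0 else cB D b i (l - 1))

theorem cB_gt (D : Derivation κ L L) (b : L) (i : ℕ) : ∀ l, i < l → cB D b i l = 0 := by
  induction i with
  | zero =>
    intro l hl
    rw [cB, if_neg (by omega)]
  | succ i ih =>
    intro l hl
    rw [cB, ih l (by omega), map_zero, if_neg (by omega), ih (l - 1) (by omega), add_zero,
      mul_zero]

theorem cB_diag (D : Derivation κ L L) (b : L) (i : ℕ) : cB D b i i = b ^ i := by
  induction i with
  | zero => rw [cB, if_pos rfl, pow_zero]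
  | succ i ih =>
    rw [cB, cB_gt D b i (i + 1) (by omega), map_zero, if_neg (by omega), zero_add,
      Nat.add_sub_cancel, ih, pow_succ']

theorem cB_iter (D : Derivation κ L L) (b y : L) (i : ℕ) : ∀ N, i < N →
    (⇑(b • D))^[i] y = ∑ l ∈ Finset.range N, cB D b i l * (⇑D)^[l] y := by
  induction i with
  | zero =>
    intro N hN
    rw [Finset.sum_eq_single 0]
    · rw [cB, if_pos rfl, one_mul]
      rfl
    · intro l _ hl
      rw [cB, if_neg hl, zero_mul]
    · intro h
      exact absurd (Finset.mem_range.2 hN) h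
  | succ i ih =>
    intro N hN
    obtain ⟨N', rfl⟩ : ∃ N', N = N' + 1 := ⟨N - 1, by omega⟩
    have h1 := ih N' (by omega)
    have h2 := ih (N' + 1) (by omega)
    rw [Function.iterate_succ_apply']
    have h3 : (b • D) ((⇑(b • D))^[i] y) = b * D ((⇑(b • D))^[i] y) := rfl
    rw [h3, Finset.sum_congr rfl (fun l _ => by
      rw [cB, mul_assoc, add_mul] : ∀ l ∈ Finset.range (N' + 1),
        cB D b (i + 1) l * (⇑D)^[l] y = b * (D (cB D b i l) * (⇑D)^[l] y +
          (if l = 0 then 0 else cB D b i (l - 1)) * (⇑D)^[l] y)), ← Finset.mul_sum,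
      Finset.sum_add_distrib]
    congr 1
    have h4 : ∑ l ∈ Finset.range (N' + 1), (if l = 0 then 0 else cB D b i (l - 1)) *
        (⇑D)^[l] y = ∑ l ∈ Finset.range N', cB D b i l * (⇑D)^[l + 1] y := by
      rw [Finset.sum_range_succ']
      simp
    have h5 : ∑ l ∈ Finset.range (N' + 1), D (cB D b i l) * (⇑D)^[l] y =
        ∑ l ∈ Finset.range N', D (cB D b i l) * (⇑D)^[l] y := by
      rw [Finset.sum_range_succ, cB_gt D b i N' (by omega), map_zero, zero_mul, add_zero]
    rw [h4, h5, h1, map_sum, ← Finset.sum_add_distrib]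
    refine Finset.sum_congr rfl fun l _ => ?_
    rw [Derivation.leibniz, smul_eq_mul, smul_eq_mul, Function.iterate_succ_apply']
    ring

/-- the Wronskian for a multiple of a derivation -/
theorem wr_smul (D : Derivation κ L L) {N : ℕ} (g : Fin N → L) (b : L) :
    wr (b • D) g = b ^ (∑ i : Fin N, (i : ℕ)) * wr D g := by
  have h1 : (Matrix.of fun i j : Fin N => (⇑(b • D))^[(i : ℕ)] (g j)) =
      (Matrix.of fun i l : Fin N => cB D b i l) *
        (Matrix.of fun i j : Fin N => (⇑D)^[(i : ℕ)] (g j)) := by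
    ext i j
    rw [Matrix.mul_apply, Matrix.of_apply, cB_iter D b (g j) i N i.2, Finset.sum_range]
    rfl
  have h2 : Matrix.det (Matrix.of fun i l : Fin N => cB D b i l) =
      b ^ (∑ i : Fin N, (i : ℕ)) := by
    rw [Matrix.det_of_lowerTriangular]
    · rw [Finset.prod_congr rfl (fun i _ => by rw [Matrix.of_apply, cB_diag] :
        ∀ i ∈ Finset.univ, (Matrix.of fun i l : Fin N => cB D b i l) i i = b ^ (i : ℕ)),
        Finset.prod_pow_eq_pow_sum]
    · intro i j hij
      rw [Matrix.of_apply]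
      exact cB_gt D b _ _ hij
  unfold wr
  rw [h1, Matrix.det_mul, h2]

/-- the local bound of the Wronskian -/
theorem wr_local (w : Place κ L) (D : Derivation κ L L) {β : ℕ}
    (hD : ∀ y, w.1 y ≤ 1 → w.1 (D y) ≤ exp (β : ℤ)) {N : ℕ} {g : Fin N → L} {y : Fin N → ℤ}
    (h : ∀ j, w.1 (g j) ≤ exp (y j)) :
    w.1 (wr D g) ≤ exp (((∑ i : Fin N, (i : ℕ)) * (1 + β) : ℕ) + ∑ j, y j) ∧
    ((∀ j, w.1 (g j) ≤ 1) → w.1 (wr D g) ≤ exp (((∑ i : Fin N, (i : ℕ)) * β : ℕ) : ℤ)) := by
  obtain ⟨b, hb⟩ := w.2.1 (exp (-(β : ℤ)))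
  obtain ⟨t, ht⟩ : ∃ t : ℕ, t = ∑ i : Fin N, (i : ℕ) := ⟨_, rfl⟩
  have h0 : ∀ z, w.1 z ≤ 1 → w.1 ((b • D) z) ≤ exp ((0 : ℕ) : ℤ) := by
    intro z hz
    have h1 : (b • D) z = b * D z := rfl
    rw [h1, map_mul, hb]
    calc exp (-(β : ℤ)) * w.1 (D z) ≤ exp (-(β : ℤ)) * exp (β : ℤ) :=
          mul_le_mul' le_rfl (hD z hz)
      _ = exp ((0 : ℕ) : ℤ) := by rw [← exp_add, neg_add_cancel]; rfl
  have h1 : w.1 (wr D g) = exp ((t * β : ℕ) : ℤ) * w.1 (wr (b • D) g) := by
    rw [wr_smul, map_mul, map_pow, hb, ← ht, ← mul_assoc, ← exp_nsmul, ← exp_add]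
    have h2 : ((t * β : ℕ) : ℤ) + t • (-(β : ℤ)) = 0 := by
      rw [nsmul_eq_mul]
      push_cast
      ring
    rw [h2, exp_zero, one_mul]
  rw [← ht, h1]
  refine ⟨?_, fun h2 => ?_⟩
  · have h2 : w.1 (wr (b • D) g) ≤ exp ((t : ℤ) + ∑ j, y j) := by
      unfold wr
      refine (det_le_exp w.1 _ (x := fun i : Fin N => ((i : ℕ) : ℤ)) (y := y)
        fun i j => ?_).trans (le_of_eq ?_)
      · rw [Matrix.of_apply]
        refine (der_iter_le w (b • D) h0 (h j) i).trans (le_of_eq ?_)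
        rw [Nat.cast_zero, add_zero, mul_one, add_comm]
      · rw [ht]
        push_cast
        rfl
    calc _ ≤ exp ((t * β : ℕ) : ℤ) * exp ((t : ℤ) + ∑ j, y j) := mul_le_mul' le_rfl h2
      _ = _ := by
        rw [← exp_add]
        congr 1
        push_cast
        ring
  · have h3 : w.1 (wr (b • D) g) ≤ exp ((0 : ℤ)) := by
      unfold wr
      refine (det_le_exp w.1 _ (x := fun i : Fin N => (0 : ℤ)) (y := fun _ => 0)
        fun i j => ?_).trans (le_of_eq ?_)
      · rw [Matrix.of_apply]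
        have h4 := der_iter_le' w (b • D) h0 (m := 0) (z := g j) (by
          rw [Nat.cast_zero, exp_zero]
          exact h2 j) i
        refine h4.trans (le_of_eq ?_)
        simp
      · simp
    calc _ ≤ exp ((t * β : ℕ) : ℤ) * exp (0 : ℤ) := mul_le_mul' le_rfl h3
      _ = _ := by rw [exp_zero, mul_one]

end Pool.Agent.Lib.MP_44a246_ntFP
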