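import Mathlib
import Pool.Agent.Lib.MP_44a246_ntL.LCross
import Pool.Agent.Lib.MP_44a246_ntL.LSum
import Pool.Agent.Lib.MP_44a246_ntY.Y02
import Pool.Agent.Lib.MP_44a246_ntY.Y03
import Pool.Agent.Lib.MP_44a246_ntFP.FP01

/-!
The inequality of Mason for several terms, and two terms with a quotient of small height.
-/

namespace Pool.Agent.Lib.MP_44a246_ntFP

open Pool.Agent.Lib.MP_44a246_nt
open Pool.Agent.Lib.MP_44a246_ntL
open Pool.Agent.Lib.MP_44a246_ntY
open WithZero

variable {κ L : Type*} [Field κ] [Field L] [Algebra κ L]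

/-- `0 + 1 + ... + (m - 1)` -/
def tri (m : ℕ) : ℕ := ∑ i : Fin m, (i : ℕ)

theorem tri_mono {a b : ℕ} (h : a ≤ b) : tri a ≤ tri b := by
  unfold tri
  rw [← Finset.sum_range (fun i => i), ← Finset.sum_range (fun i => i)]
  exact Finset.sum_le_sum_of_subset (Finset.range_mono h)

/-- the places where not all elements of a family have the same absolute value -/
theorem ncard_unbal [IsAlgClosed κ] [CharZero κ] (h : IsFF κ L) {ι : Type*} [Fintype ι]
    [Nonempty ι] {M : ι → L} (hM : ∀ i, M i ≠ 0) :
    {w : Place κ L | ∃ i, w.1 (M i) ≠ vmax w.1 M}.Finite ∧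
      (({w : Place κ L | ∃ i, w.1 (M i) ≠ vmax w.1 M}.ncard : ℕ) : ℤ) ≤
        Fintype.card ι * height κ M := by
  classical
  have hM0 : M ≠ 0 := fun h0 => hM (Classical.arbitrary ι) (congrFun h0 _)
  have hs : ∀ i, (Function.support fun w : Place κ L =>
      log (vmax w.1 M) - log (w.1 (M i))).Finite := by
    intro i
    refine ((h.vmax_support hM0).union (h.place_support (hM i))).subset ?_
    exact Function.support_sub _ _
  have hle : ∀ i (w : Place κ L), log (w.1 (M i)) ≤ log (vmax w.1 M) := by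
    intro i w
    exact (log_le_log ((Valuation.ne_zero_iff _).2 (hM i))
      (fun h0 => hM0 (vmax_eq_zero_iff w.1 |>.1 h0))).2 (le_vmax w.1 M i)
  have hF : (Function.support fun w : Place κ L =>
      ∑ i, (log (vmax w.1 M) - log (w.1 (M i)))).Finite := by
    refine (Set.finite_iUnion fun i => hs i).subset ?_
    intro w hw
    rw [Function.mem_support] at hw
    obtain ⟨i, -, hi⟩ := Finset.exists_ne_zero_of_sum_ne_zero hw
    exact Set.mem_iUnion.2 ⟨i, hi⟩
  have h1 := ncard_le_finsum hF (fun w => Finset.sum_nonneg fun i _ => sub_nonneg.2 (hle i w))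
    (A := {w : Place κ L | ∃ i, w.1 (M i) ≠ vmax w.1 M}) (by
      rintro w ⟨i, hi⟩
      have h2 : 1 ≤ log (vmax w.1 M) - log (w.1 (M i)) := by
        have h3 := hle i w
        have h4 : log (w.1 (M i)) ≠ log (vmax w.1 M) := by
          intro h5
          apply hi
          rw [← exp_log ((Valuation.ne_zero_iff w.1).2 (hM i)), h5,
            exp_log (fun h0 => hM0 (vmax_eq_zero_iff w.1 |>.1 h0))]
        omega
      exact h2.trans (Finset.single_le_sum (f := fun i => log (vmax w.1 M) - log (w.1 (M i)))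
        (fun i _ => sub_nonneg.2 (hle i w)) (Finset.mem_univ i)))
  refine ⟨h1.1, h1.2.trans (le_of_eq ?_)⟩
  have h2 : ∑ᶠ w : Place κ L, ∑ i, (log (vmax w.1 M) - log (w.1 (M i))) =
      ∑ i, ∑ᶠ w : Place κ L, (log (vmax w.1 M) - log (w.1 (M i))) :=
    finsum_sum_comm _ _ fun i _ => hs i
  rw [h2]
  have h3 : ∀ i, ∑ᶠ w : Place κ L, (log (vmax w.1 M) - log (w.1 (M i))) = height κ M := by
    intro i
    rw [finsum_sub_distrib (h.vmax_support hM0) (h.place_support (hM i)),
      h.product_formula (hM i), sub_zero]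
    rfl
  rw [Finset.sum_congr rfl fun i _ => h3 i, Finset.sum_const, Finset.card_univ, nsmul_eq_mul]

/-- a minimal relation over the constants -/
theorem exists_min {ι : Type*} [Finite ι] {v : ι → L} (hv : ∀ i, v i ≠ 0) {c : ι → κ}
    (hc : c ≠ 0) (hsum : ∑ᶠ i, c i • v i = 0) :
    ∃ (m : ℕ) (e : Fin (m + 1) → ι), 1 ≤ m ∧ Function.Injective e ∧
      (∀ i : Fin (m + 1), LinearIndependent κ (fun j : Fin m => v (e (i.succAbove j)))) ∧
      ∀ i : Fin (m + 1), v (e i) ∈
        Submodule.span κ (Set.range (fun j : Fin m => v (e (i.succAbove j)))) := by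
  classical
  have := Fintype.ofFinite ι
  rw [finsum_eq_sum_of_fintype] at hsum
  -- the relations of minimal support
  have hex : ∃ N, ∃ c : ι → κ, c ≠ 0 ∧ ∑ i, c i • v i = 0 ∧
      (Finset.univ.filter fun i => c i ≠ 0).card = N := ⟨_, c, hc, hsum, rfl⟩
  obtain ⟨c, hc, hsum, hN⟩ := Nat.find_spec hex
  have hmin : ∀ c' : ι → κ, ∑ i, c' i • v i = 0 →
      (Finset.univ.filter fun i => c' i ≠ 0).card < Nat.find hex → c' = 0 := by
    intro c' h1 h2
    by_contra h3
    exact Nat.find_min hex h2 ⟨c', h3, h1, rfl⟩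
  obtain ⟨N, hNN⟩ : ∃ N, N = Nat.find hex := ⟨_, rfl⟩
  rw [← hNN] at hN hmin
  obtain ⟨S, hS⟩ : ∃ S : Finset ι, S = Finset.univ.filter fun i => c i ≠ 0 := ⟨_, rfl⟩
  rw [← hS] at hN
  have hmemS : ∀ i, i ∈ S ↔ c i ≠ 0 := by
    intro i
    rw [hS]
    simp
  have hsumS : ∑ i ∈ S, c i • v i = 0 := by
    rw [← hsum]
    refine Finset.sum_subset (Finset.subset_univ _) fun i _ hi => ?_
    rw [hmemS, not_not] at hi
    rw [hi, zero_smul]
  have hS2 : 2 ≤ S.card := by
    by_contra hcon
    have h1 : S.card = 0 ∨ S.card = 1 := by omega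
    rcases h1 with h1 | h1
    · rw [Finset.card_eq_zero] at h1
      apply hc
      funext i
      by_contra h2
      have h3 := (hmemS i).2 h2
      rw [h1] at h3
      simp at h3
    · obtain ⟨i, hi⟩ := Finset.card_eq_one.1 h1
      rw [hi, Finset.sum_singleton] at hsumS
      have h2 : c i ≠ 0 := (hmemS i).1 (by rw [hi]; simp)
      rcases smul_eq_zero.1 hsumS with h3 | h3
      · exact h2 h3
      · exact hv i h3
  obtain ⟨m, hm⟩ : ∃ m, S.card = m + 1 := ⟨S.card - 1, by omega⟩
  obtain ⟨e, heS⟩ : ∃ e : Fin (m + 1) ≃ S, True :=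
    ⟨(Finset.equivFinOfCardEq hm).symm, trivial⟩
  have heinj : Function.Injective fun i => (e i : ι) := fun i j h => e.injective (Subtype.ext h)
  have hcs : ∀ i : Fin (m + 1), c (e i) ≠ 0 := fun i => (hmemS _).1 (e i).2
  have hsume : ∑ i : Fin (m + 1), c (e i) • v (e i) = 0 := by
    rw [← hsumS, ← Finset.sum_coe_sort S (fun i => c i • v i)]
    exact Equiv.sum_comp e (fun i : S => c i • v i)
  refine ⟨m, fun i => (e i : ι), by omega, heinj, ?_, ?_⟩
  · intro i
    rw [Fintype.linearIndependent_iff]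
    intro g hg j
    obtain ⟨c', hc'⟩ : ∃ c' : ι → κ, c' = fun l => ∑ j : Fin m,
      if (e (i.succAbove j) : ι) = l then g j else 0 := ⟨_, rfl⟩
    have h1 : ∀ j, c' (e (i.succAbove j)) = g j := by
      intro j
      rw [hc']
      show ∑ j' : Fin m, (if (e (i.succAbove j') : ι) = (e (i.succAbove j) : ι) then g j' else 0) =
        g j
      rw [Finset.sum_eq_single j]
      · rw [if_pos rfl]
      · intro j' _ hj'
        rw [if_neg]
        intro h2
        exact hj' (Fin.succAbove_right_injective (heinj h2))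
      · intro h2
        exact absurd (Finset.mem_univ _) h2
    have h2 : ∑ l, c' l • v l = 0 := by
      rw [← hg, hc']
      simp only [Finset.sum_smul, ite_smul, zero_smul]
      rw [Finset.sum_comm]
      refine Finset.sum_congr rfl fun j _ => ?_
      rw [Finset.sum_ite_eq]
      simp
    have h3 : (Finset.univ.filter fun l => c' l ≠ 0).card < N := by
      have h4 : (Finset.univ.filter fun l => c' l ≠ 0) ⊆ S.erase (e i) := by
        intro l hl
        rw [Finset.mem_filter] at hl
        obtain ⟨j', -, hj'⟩ := Finset.exists_ne_zero_of_sum_ne_zero (by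
          rw [hc'] at hl
          exact hl.2 : ∑ j : Fin m, (if (e (i.succAbove j) : ι) = l then g j else 0) ≠ 0)
        have h5 : (e (i.succAbove j') : ι) = l := by
          by_contra h6
          rw [if_neg h6] at hj'
          exact hj' rfl
        rw [Finset.mem_erase, ← h5]
        refine ⟨fun h6 => ?_, (e (i.succAbove j')).2⟩
        exact Fin.succAbove_ne i j' (heinj h6)
      have h5 := Finset.card_le_card h4
      rw [Finset.card_erase_of_mem (e i).2, hm] at h5
      rw [← hN, hm]
      omega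
    have h4 := hmin c' h2 h3
    rw [← h1 j, h4]
    rfl
  · intro i
    rw [Fin.sum_univ_succAbove _ i] at hsume
    have h1 : v (e i) = -((c (e i))⁻¹ • ∑ j : Fin m, c (e (i.succAbove j)) •
        v (e (i.succAbove j))) := by
      have h2 : c (e i) • v (e i) = -∑ j : Fin m, c (e (i.succAbove j)) •
        v (e (i.succAbove j)) := by
        rw [eq_neg_iff_add_eq_zero]
        exact hsume
      rw [← smul_neg, ← h2, smul_smul, inv_mul_cancel₀ (hcs i), one_smul]
    rw [h1]
    refine Submodule.neg_mem _ (Submodule.smul_mem _ _ (Submodule.sum_mem _ fun j _ =>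
      Submodule.smul_mem _ _ (Submodule.subset_span ⟨j, rfl⟩)))

/-- **The inequality of Mason for several terms.** -/
theorem abc_min [IsAlgClosed κ] [CharZero κ] (h : IsFF κ L) (D : Derivation κ L L)
    (hD0 : ∀ y, D y = 0 → ∃ c, algebraMap κ L c = y) {β : Place κ L → ℕ}
    (hβ : (Function.support β).Finite)
    (hDβ : ∀ (w : Place κ L) (y : L), w.1 y ≤ 1 → w.1 (D y) ≤ exp (β w : ℤ)) {m : ℕ}
    {v : Fin (m + 1) → L} (hv : ∀ i, v i ≠ 0)
    (hind : ∀ i : Fin (m + 1), LinearIndependent κ (fun j : Fin m => v (i.succAbove j)))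
    (hspan : ∀ i : Fin (m + 1), v i ∈
      Submodule.span κ (Set.range (fun j : Fin m => v (i.succAbove j)))) :
    height κ v ≤ tri m * ((({w : Place κ L | ∃ i, w.1 (v i) ≠ vmax w.1 v}.ncard : ℕ) : ℤ) +
      ∑ᶠ w, (β w : ℤ)) := by
  classical
  have hv0 : v ≠ 0 := fun h0 => hv 0 (congrFun h0 _)
  obtain ⟨hSf, -⟩ := ncard_unbal h hv
  obtain ⟨Sg, hSg⟩ : ∃ Sg : Set (Place κ L), Sg = {w | ∃ i, w.1 (v i) ≠ vmax w.1 v} := ⟨_, rfl⟩
  rw [← hSg] at hSf ⊢
  -- all Wronskians have the same absolute values
  have hW0 : wr D (fun j : Fin m => v ((0 : Fin (m + 1)).succAbove j)) ≠ 0 :=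
    wr_ne_zero D hD0 (hind 0)
  obtain ⟨W, hW⟩ : ∃ W, W = wr D (fun j : Fin m => v ((0 : Fin (m + 1)).succAbove j)) := ⟨_, rfl⟩
  rw [← hW] at hW0
  have hWi : ∀ (i : Fin (m + 1)) (w : Place κ L),
      w.1 (wr D (fun j : Fin m => v (i.succAbove j))) = w.1 W := by
    intro i w
    obtain ⟨c, hc, h1⟩ := wr_basis D (g := fun j : Fin m => v ((0 : Fin (m + 1)).succAbove j))
      (hind i) (by
        intro j
        by_cases hj : i.succAbove j = 0
        · rw [hj]
          exact hspan 0
        · obtain ⟨j', hj'⟩ := Fin.exists_succAbove_eq hj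
          refine Submodule.subset_span ⟨j', ?_⟩
          show v ((0 : Fin (m + 1)).succAbove j') = v (i.succAbove j)
          rw [hj'])
    rw [h1, map_mul, w.2.2 c hc, one_mul, hW]
  have hloc : ∀ w : Place κ L, log (w.1 W) + log (vmax w.1 v) ≤
      ∑ i, log (w.1 (v i)) + (tri m : ℤ) * ((if w ∈ Sg then (1 : ℤ) else 0) + β w) := by
    intro w
    obtain ⟨i, hi, hi1, hi2⟩ := exists_vmax w.1 hv0
    have hwi : w.1 (v i) ≠ 0 := (Valuation.ne_zero_iff _).2 hi
    rw [← hWi i w]
    obtain ⟨g, hg⟩ : ∃ g : Fin m → L, g = fun j => v (i.succAbove j) / v i := ⟨_, rfl⟩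
    have h1 : (fun j : Fin m => v (i.succAbove j)) = fun j => v i * g j := by
      funext j
      rw [hg]
      show v (i.succAbove j) = v i * (v (i.succAbove j) / v i)
      rw [mul_div_cancel₀ _ hi]
    have hWne : wr D g ≠ 0 := by
      intro h0
      have h2 := wr_ne_zero D hD0 (hind i)
      rw [h1, wr_mul, h0, mul_zero] at h2
      exact h2 rfl
    rw [h1, wr_mul, map_mul, map_pow, log_mul (pow_ne_zero _ hwi)
      ((Valuation.ne_zero_iff _).2 hWne), log_pow, nsmul_eq_mul, hi1]
    have hgle : ∀ j, w.1 (g j) ≤ 1 := by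
      intro j
      rw [hg]
      show w.1 (v (i.succAbove j) / v i) ≤ 1
      rw [map_div₀]
      exact div_le_one_of_le₀ (hi2 _) zero_le
    have hgne : ∀ j, g j ≠ 0 := by
      intro j
      rw [hg]
      exact div_ne_zero (hv _) hi
    have hlg : ∀ j, log (w.1 (g j)) = log (w.1 (v (i.succAbove j))) - log (w.1 (v i)) := by
      intro j
      rw [hg]
      show log (w.1 (v (i.succAbove j) / v i)) = _
      rw [map_div₀, log_div ((Valuation.ne_zero_iff _).2 (hv _)) hwi]
    obtain ⟨h2, h3⟩ := wr_local w D (β := β w) (hDβ w) (g := g) (y := fun j => log (w.1 (g j)))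
      (fun j => by rw [exp_log ((Valuation.ne_zero_iff _).2 (hgne j))])
    have hsum : ∑ j : Fin m, log (w.1 (g j)) = ∑ l, log (w.1 (v l)) -
        log (w.1 (v i)) - m * log (w.1 (v i)) := by
      rw [Fin.sum_univ_succAbove _ i, Finset.sum_congr rfl fun j _ => hlg j,
        Finset.sum_sub_distrib, Finset.sum_const, Finset.card_univ, Fintype.card_fin,
        nsmul_eq_mul]
      ring
    have htri : (∑ i : Fin m, (i : ℕ)) = tri m := rfl
    by_cases hw : w ∈ Sg
    · rw [if_pos hw]
      have h4 := (log_le_log ((Valuation.ne_zero_iff _).2 hWne) exp_ne_zero).2 h2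
      rw [log_exp, hsum, htri] at h4
      push_cast at h4
      linarith
    · rw [if_neg hw]
      have h4 := (log_le_log ((Valuation.ne_zero_iff _).2 hWne) exp_ne_zero).2 (h3 hgle)
      rw [log_exp, htri] at h4
      push_cast at h4
      have h5 : ∀ l, log (w.1 (v l)) = log (w.1 (v i)) := by
        intro l
        rw [hSg, Set.mem_ofPred_eq] at hw
        push Not at hw
        rw [hw l, hi1]
      rw [Finset.sum_congr rfl fun l _ => h5 l, Finset.sum_const, Finset.card_univ,
        Fintype.card_fin, nsmul_eq_mul]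
      push_cast
      linarith
  -- the sum over the places
  have s1 := h.place_support hW0
  have s2 := h.vmax_support hv0
  have s3 : ∀ i, (Function.support fun w : Place κ L => log (w.1 (v i))).Finite :=
    fun i => h.place_support (hv i)
  have s4 : (Function.support fun w : Place κ L => ∑ i, log (w.1 (v i))).Finite := by
    refine (Set.finite_iUnion fun i => s3 i).subset ?_
    intro w hw
    rw [Function.mem_support] at hw
    obtain ⟨i, -, hi⟩ := Finset.exists_ne_zero_of_sum_ne_zero hw
    exact Set.mem_iUnion.2 ⟨i, hi⟩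
  have s5 := indicator_support hSf
  have s6 : (Function.support fun w : Place κ L => (β w : ℤ)).Finite := by
    refine hβ.subset fun w hw h1 => hw ?_
    simp only at h1 ⊢
    rw [h1, Nat.cast_zero]
  have s56 : (Function.support fun w : Place κ L =>
      (if w ∈ Sg then (1 : ℤ) else 0) + (β w : ℤ)).Finite :=
    (s5.union s6).subset (Function.support_add _ _)
  have s7 : (Function.support fun w : Place κ L =>
      (tri m : ℤ) * ((if w ∈ Sg then (1 : ℤ) else 0) + (β w : ℤ))).Finite := by
    refine s56.subset fun w hw h1 => hw ?_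
    simp only at h1 ⊢
    rw [h1, mul_zero]
  have hmain := finsum_mono ((s1.union s2).subset (Function.support_add _ _))
    ((s4.union s7).subset (Function.support_add _ _)) hloc
  rw [finsum_add_distrib s1 s2, finsum_add_distrib s4 s7, h.product_formula hW0, zero_add,
    finsum_sum_comm _ _ (fun i _ => s3 i), Finset.sum_congr rfl fun i _ => h.product_formula (hv i),
    Finset.sum_const_zero, zero_add, ← mul_finsum _ _, finsum_add_distrib s5 s6,
    finsum_indicator hSf] at hmain
  exact hmain

end Pool.Agent.Lib.MP_44a246_ntFP
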