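import Mathlib
import Pool.Agent.Lib.MP_44a246_ntFP.FP02

/-!
Two terms with a quotient of small height in a relation with powers.
-/

namespace Pool.Agent.Lib.MP_44a246_ntFP

open Pool.Agent.Lib.MP_44a246_nt
open Pool.Agent.Lib.MP_44a246_ntL
open Pool.Agent.Lib.MP_44a246_ntY
open WithZero

variable {κ L : Type*} [Field κ] [Field L] [Algebra κ L]

/-- the height of a part of a vector -/
theorem height_comp_le [IsAlgClosed κ] [CharZero κ] (h : IsFF κ L) {ι τ : Type*} [Fintype ι]
    [Fintype τ] {M : ι → L} (e : τ → ι) (hM : (fun t => M (e t)) ≠ 0) :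
    height κ (fun t => M (e t)) ≤ height κ M := by
  have hM0 : M ≠ 0 := fun h0 => hM (by rw [h0]; rfl)
  refine finsum_mono (h.vmax_support hM) (h.vmax_support hM0) fun w => ?_
  exact (log_le_log (fun h0 => hM (vmax_eq_zero_iff w.1 |>.1 h0))
    (fun h0 => hM0 (vmax_eq_zero_iff w.1 |>.1 h0))).2 (vmax_le w.1 fun t => le_vmax w.1 M (e t))

theorem vmax_two (v : Valuation L ℤᵐ⁰) (a b : L) : vmax v ![a, b] = max (v a) (v b) := by
  unfold vmax
  rw [Fin.univ_succ]
  simp

/-- **Two terms with a quotient of small height.** -/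
theorem exists_close [IsAlgClosed κ] [CharZero κ] (h : IsFF κ L) (D : Derivation κ L L)
    (hD0 : ∀ y, D y = 0 → ∃ c, algebraMap κ L c = y) {β : Place κ L → ℕ}
    (hβ : (Function.support β).Finite)
    (hDβ : ∀ (w : Place κ L) (y : L), w.1 y ≤ 1 → w.1 (D y) ≤ exp (β w : ℤ)) {ι : Type*}
    [Fintype ι] {M u : ι → L} (hu : ∀ i, u i ≠ 0) (hM : M ≠ 0) {e : ℕ}
    (hsum : ∑ i, M i * u i ^ e = 0) :
    ∃ i j, i ≠ j ∧ (e : ℤ) * height κ ![u i, u j] ≤ height κ M +
      tri (Fintype.card ι - 1) * (Fintype.card ι * (height κ M + height κ u) +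
        ∑ᶠ w, (β w : ℤ)) := by
  classical
  obtain ⟨i₀, hi₀⟩ : ∃ i, M i ≠ 0 := by
    by_contra hcon
    push Not at hcon
    exact hM (funext hcon)
  have hu0 : u ≠ 0 := fun h0 => hu i₀ (congrFun h0 _)
  obtain ⟨v, hv⟩ : ∃ v : ι → L, v = fun i => M i * u i ^ e := ⟨_, rfl⟩
  obtain ⟨m, ε, hm, hinj, hind, hspan⟩ := exists_min (κ := κ) (ι := {i // M i ≠ 0})
    (v := fun i => v i) (fun i => by
      rw [hv]
      exact mul_ne_zero i.2 (pow_ne_zero _ (hu i))) (c := fun _ => 1) (by
      intro h0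
      exact one_ne_zero (congrFun h0 ⟨i₀, hi₀⟩)) (by
      rw [finsum_eq_sum_of_fintype]
      simp only [one_smul]
      rw [← Finset.sum_subtype (Finset.univ.filter fun i => M i ≠ 0) (by simp)
        (fun i => v i)]
      refine Eq.trans ?_ hsum
      rw [hv]
      refine Finset.sum_subset (Finset.subset_univ _) fun i _ hi => ?_
      rw [Finset.mem_filter, not_and, not_not] at hi
      rw [hi (Finset.mem_univ _), zero_mul])
  obtain ⟨q, hq⟩ : ∃ q : Fin (m + 1) → ι, q = fun i => (ε i : ι) := ⟨_, rfl⟩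
  have hqi : Function.Injective q := by
    rw [hq]
    exact fun i j h1 => hinj (Subtype.ext h1)
  have hMq : ∀ i, M (q i) ≠ 0 := by
    intro i
    rw [hq]
    exact (ε i).2
  have hvq : ∀ i, v (q i) ≠ 0 := by
    intro i
    rw [hv]
    exact mul_ne_zero (hMq i) (pow_ne_zero _ (hu _))
  have habc := abc_min h D hD0 hβ hDβ (v := fun i => v (q i)) hvq
    (by rw [hq]; exact hind) (by rw [hq]; exact hspan)
  have hcard : m + 1 ≤ Fintype.card ι := by
    have h1 := Fintype.card_le_of_injective q hqi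
    rwa [Fintype.card_fin] at h1
  obtain ⟨hM1, hM2⟩ := ncard_unbal h (M := fun i => M (q i)) hMq
  obtain ⟨hu1, hu2⟩ := ncard_unbal h (M := fun i => u (q i)) (fun i => hu _)
  have hMq0 : (fun i => M (q i)) ≠ 0 := fun h0 => hMq 0 (congrFun h0 0)
  have huq0 : (fun i => u (q i)) ≠ 0 := fun h0 => hu _ (congrFun h0 0)
  have hvq0 : (fun i => v (q i)) ≠ 0 := fun h0 => hvq 0 (congrFun h0 0)
  have hsub : {w : Place κ L | ∃ i, w.1 (v (q i)) ≠ vmax w.1 fun i => v (q i)} ⊆
      {w : Place κ L | ∃ i, w.1 (M (q i)) ≠ vmax w.1 fun i => M (q i)} ∪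
      {w : Place κ L | ∃ i, w.1 (u (q i)) ≠ vmax w.1 fun i => u (q i)} := by
    intro w hw
    by_contra hcon
    rw [Set.mem_union, not_or, Set.mem_ofPred_eq, Set.mem_ofPred_eq] at hcon
    obtain ⟨h1, h2⟩ := hcon
    push Not at h1 h2
    obtain ⟨i, hi⟩ := hw
    apply hi
    have h3 : ∀ j, w.1 (v (q j)) = w.1 (v (q i)) := by
      intro j
      rw [hv]
      show w.1 (M (q j) * u (q j) ^ e) = w.1 (M (q i) * u (q i) ^ e)
      rw [map_mul, map_mul, map_pow, map_pow, h1 j, h1 i, h2 j, h2 i]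
    refine le_antisymm (le_vmax w.1 (fun i => v (q i)) i) (vmax_le w.1 fun j => ?_)
    rw [h3 j]
  have hcount : (({w : Place κ L | ∃ i, w.1 (v (q i)) ≠ vmax w.1 fun i => v (q i)}.ncard : ℕ) :
      ℤ) ≤ (m + 1) * (height κ (fun i => M (q i)) + height κ (fun i => u (q i))) := by
    have h1 := (Set.ncard_le_ncard hsub (hM1.union hu1)).trans (Set.ncard_union_le _ _)
    have h2 : (({w : Place κ L | ∃ i, w.1 (v (q i)) ≠ vmax w.1 fun i => v (q i)}.ncard : ℕ) :
      ℤ) ≤ _ := Int.ofNat_le.2 h1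
    rw [Nat.cast_add] at h2
    rw [Fintype.card_fin] at hM2 hu2
    push_cast at hM2 hu2
    linarith
  have hhM := height_comp_le h q hMq0
  have hhu := height_comp_le h q huq0
  have nM := h.height_nonneg hMq0
  have nu := h.height_nonneg huq0
  have nβ : 0 ≤ ∑ᶠ w, (β w : ℤ) := finsum_nonneg fun w => Int.natCast_nonneg _
  obtain ⟨T, hT⟩ : ∃ T : ℤ, T = ((Fintype.card ι : ℕ) : ℤ) * (height κ M + height κ u) +
      ∑ᶠ w, (β w : ℤ) := ⟨_, rfl⟩
  have h1 : height κ (fun i => v (q i)) ≤ tri (Fintype.card ι - 1) * T := by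
    refine habc.trans ?_
    have h2 : (tri m : ℤ) ≤ tri (Fintype.card ι - 1) := by
      exact_mod_cast tri_mono (by omega : m ≤ Fintype.card ι - 1)
    refine mul_le_mul h2 ?_ ?_ (Int.natCast_nonneg _)
    · rw [hT]
      refine add_le_add (hcount.trans ?_) le_rfl
      refine mul_le_mul ?_ (add_le_add hhM hhu) (add_nonneg nM nu) (Int.natCast_nonneg _)
      exact_mod_cast hcard
    · exact add_nonneg (Int.natCast_nonneg _) nβ
  obtain ⟨l, hl⟩ : ∃ l : Fin (m + 1), l ≠ 0 := by
    refine ⟨⟨1, by omega⟩, ?_⟩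
    intro h2
    have h3 := congrArg Fin.val h2
    simp at h3
  refine ⟨q 0, q l, fun h2 => hl (hqi h2).symm, ?_⟩
  rw [← hT]
  have hpair0 : (![u (q 0), u (q l)] : Fin 2 → L) ≠ 0 := by
    intro h2
    exact hu _ (congrFun h2 0)
  -- the local inequality
  have hloc : ∀ w : Place κ L, (e : ℤ) * log (vmax w.1 ![u (q 0), u (q l)]) ≤
      (log (vmax w.1 fun i => v (q i)) + log (vmax w.1 fun i => M (q i))) -
        (log (w.1 (M (q 0))) + log (w.1 (M (q l)))) := by
    intro w
    have hw0 : w.1 (M (q 0)) ≠ 0 := (Valuation.ne_zero_iff _).2 (hMq 0)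
    have hwl : w.1 (M (q l)) ≠ 0 := (Valuation.ne_zero_iff _).2 (hMq l)
    have hwv : vmax w.1 (fun i => v (q i)) ≠ 0 := fun h0 => hvq0 (vmax_eq_zero_iff w.1 |>.1 h0)
    have hwM : vmax w.1 (fun i => M (q i)) ≠ 0 := fun h0 => hMq0 (vmax_eq_zero_iff w.1 |>.1 h0)
    have hwp : vmax w.1 ![u (q 0), u (q l)] ≠ 0 := fun h0 => hpair0 (vmax_eq_zero_iff w.1 |>.1 h0)
    have h2 : ∀ i, w.1 (u (q i)) ^ e * w.1 (M (q i)) ≤ vmax w.1 fun i => v (q i) := by
      intro i
      have h3 := le_vmax w.1 (fun i => v (q i)) i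
      rw [hv] at h3 ⊢
      simp only [map_mul, map_pow] at h3
      rw [mul_comm]
      exact h3
    have h4 : vmax w.1 ![u (q 0), u (q l)] ^ e * (w.1 (M (q 0)) * w.1 (M (q l))) ≤
        (vmax w.1 fun i => v (q i)) * (vmax w.1 fun i => M (q i)) := by
      rw [vmax_two]
      rcases le_total (w.1 (u (q 0))) (w.1 (u (q l))) with h5 | h5
      · rw [max_eq_right h5]
        calc w.1 (u (q l)) ^ e * (w.1 (M (q 0)) * w.1 (M (q l))) =
            (w.1 (u (q l)) ^ e * w.1 (M (q l))) * w.1 (M (q 0)) := by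
              rw [mul_comm (w.1 (M (q 0))), mul_assoc]
          _ ≤ _ := mul_le_mul' (h2 l) (le_vmax w.1 (fun i => M (q i)) 0)
      · rw [max_eq_left h5]
        calc w.1 (u (q 0)) ^ e * (w.1 (M (q 0)) * w.1 (M (q l))) =
            (w.1 (u (q 0)) ^ e * w.1 (M (q 0))) * w.1 (M (q l)) := by rw [mul_assoc]
          _ ≤ _ := mul_le_mul' (h2 0) (le_vmax w.1 (fun i => M (q i)) l)
    have h5 := (log_le_log (mul_ne_zero (pow_ne_zero _ hwp) (mul_ne_zero hw0 hwl))
      (mul_ne_zero hwv hwM)).2 h4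
    rw [log_mul (pow_ne_zero _ hwp) (mul_ne_zero hw0 hwl), log_mul hw0 hwl, log_mul hwv hwM,
      log_pow, nsmul_eq_mul] at h5
    linarith
  have s1 := h.vmax_support hpair0
  have s1' : (Function.support fun w : Place κ L =>
      (e : ℤ) * log (vmax w.1 ![u (q 0), u (q l)])).Finite := by
    refine s1.subset fun w hw h2 => hw ?_
    simp only at h2 ⊢
    rw [h2, mul_zero]
  have s2 := (h.vmax_support hvq0).union (h.vmax_support hMq0)
  have s2' : (Function.support fun w : Place κ L => log (vmax w.1 fun i => v (q i)) +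
      log (vmax w.1 fun i => M (q i))).Finite := s2.subset (Function.support_add _ _)
  have s3 := (h.place_support (hMq 0)).union (h.place_support (hMq l))
  have s3' : (Function.support fun w : Place κ L => log (w.1 (M (q 0))) +
      log (w.1 (M (q l)))).Finite := s3.subset (Function.support_add _ _)
  have hmain := finsum_mono s1' ((s2'.union s3').subset (Function.support_sub _ _)) hloc
  rw [← mul_finsum _ _, finsum_sub_distrib s2' s3', finsum_add_distrib (h.vmax_support hvq0)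
    (h.vmax_support hMq0), finsum_add_distrib (h.place_support (hMq 0))
    (h.place_support (hMq l)), h.product_formula (hMq 0), h.product_formula (hMq l),
    add_zero, sub_zero] at hmain
  have e1 : ∑ᶠ w : Place κ L, log (vmax w.1 ![u (q 0), u (q l)]) =
      height κ ![u (q 0), u (q l)] := rfl
  have e2 : ∑ᶠ w : Place κ L, log (vmax w.1 fun i => v (q i)) =
      height κ fun i => v (q i) := rfl
  have e3 : ∑ᶠ w : Place κ L, log (vmax w.1 fun i => M (q i)) =
      height κ fun i => M (q i) := rfl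
  rw [e1, e2, e3] at hmain
  linarith

end Pool.Agent.Lib.MP_44a246_ntFP
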