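import Mathlib

/-!
# Pigeonhole for close indices

`Z` : the indices where the form vanishes, `R` : closeness. If among any `ν + 1` indices two
different ones outside `Z` are close and there are more than `n ν` indices, then there are an index
`i0` outside `Z` and `n + 1` indices each of which is in `Z` or close to `i0`.
-/

set_option autoImplicit false

namespace Pool.Agent.Lib.MP_44a246_ntFP

theorem close_family {α : Type*} [Fintype α] (Z : Finset α) (R : α → α → Prop)
    (hs : ∀ i j, R i j → R j i) (hr : ∀ i, i ∉ Z → R i i) (n ν : ℕ)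
    (hZ : Z.card ≤ n) (hν : n ≤ ν) (hα : n * ν < Fintype.card α)
    (h : ∀ S : Finset α, S.card = ν + 1 → ∃ i ∈ S, ∃ j ∈ S, i ∉ Z ∧ j ∉ Z ∧ i ≠ j ∧ R i j) :
    ∃ i0, i0 ∉ Z ∧ ∃ S : Finset α, i0 ∈ S ∧ S.card = n + 1 ∧ ∀ i ∈ S, i ∈ Z ∨ R i i0 := by
  classical
  -- a maximal family of pairwise non-close indices
  let F : Finset (Finset α) := Finset.univ.filter fun T : Finset α =>
    Disjoint T Z ∧ ∀ i ∈ T, ∀ j ∈ T, i ≠ j → ¬ R i j
  have hF : F.Nonempty := ⟨∅, by simp [F]⟩
  obtain ⟨T, hTF, hTmax⟩ := Finset.exists_max_image F Finset.card hF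
  have hT : Disjoint T Z ∧ ∀ i ∈ T, ∀ j ∈ T, i ≠ j → ¬ R i j := by
    simpa [F] using hTF
  obtain ⟨hTZ, hTR⟩ := hT
  have hcov : ∀ i, i ∉ Z → ∃ t ∈ T, R i t := by
    intro i hi
    by_contra hcon
    push Not at hcon
    have hiT : i ∉ T := fun h1 => hcon i h1 (hr i hi)
    have h2 : insert i T ∈ F := by
      simp only [F, Finset.mem_filter, Finset.mem_univ, true_and]
      refine ⟨?_, ?_⟩
      · rw [Finset.disjoint_insert_left]
        exact ⟨hi, hTZ⟩
      · intro a ha b hb hab hR
        rcases Finset.mem_insert.mp ha with ha1 | ha1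
        · rcases Finset.mem_insert.mp hb with hb1 | hb1
          · exact hab (ha1.trans hb1.symm)
          · rw [ha1] at hR
            exact hcon b hb1 hR
        · rcases Finset.mem_insert.mp hb with hb1 | hb1
          · rw [hb1] at hR
            exact hcon a ha1 (hs _ _ hR)
          · exact hTR a ha1 b hb1 hab hR
    have h3 := hTmax _ h2
    rw [Finset.card_insert_of_notMem hiT] at h3
    omega
  have hcard : T.card + Z.card ≤ ν := by
    by_contra hcon
    have h1 : ν + 1 ≤ (T ∪ Z).card := by
      rw [Finset.card_union_of_disjoint hTZ]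
      omega
    obtain ⟨S, hS, hSc⟩ := Finset.exists_subset_card_eq h1
    obtain ⟨i, hi, j, hj, hiZ, hjZ, hij, hR⟩ := h S hSc
    have hiT : i ∈ T := by
      rcases Finset.mem_union.mp (hS hi) with h2 | h2
      · exact h2
      · exact absurd h2 hiZ
    have hjT : j ∈ T := by
      rcases Finset.mem_union.mp (hS hj) with h2 | h2
      · exact h2
      · exact absurd h2 hjZ
    exact hTR i hiT j hjT hij hR
  -- pigeonhole
  have hsub : Finset.univ \ Z ⊆ T.biUnion fun t => (Finset.univ \ Z).filter fun i => R i t := by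
    intro i hi
    obtain ⟨t, ht, hR⟩ := hcov i (by simpa using hi)
    simp only [Finset.mem_biUnion, Finset.mem_filter]
    exact ⟨t, ht, hi, hR⟩
  have hpig : ∃ t ∈ T, n - Z.card < ((Finset.univ \ Z).filter fun i => R i t).card := by
    by_contra hcon
    push Not at hcon
    have h1 : (Finset.univ \ Z).card ≤ T.card * (n - Z.card) :=
      (Finset.card_le_card hsub).trans (Finset.card_biUnion_le_card_mul _ _ _ hcon)
    rw [Finset.card_sdiff_of_subset (Finset.subset_univ Z), Finset.card_univ] at h1
    have h2 : Fintype.card α ≤ Z.card + T.card * (n - Z.card) := by omega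
    obtain ⟨m, hm⟩ := Nat.exists_eq_add_of_le hZ
    obtain ⟨k, hk⟩ := Nat.exists_eq_add_of_le hcard
    have h3 : n - Z.card = m := by omega
    rw [h3] at h2
    have h4 : Z.card + T.card * m ≤ n * ν := by
      rw [hm, hk]
      rcases Nat.eq_zero_or_pos (T.card + k + Z.card) with h0 | h0
      · have : Z.card = 0 := by omega
        have : T.card = 0 := by omega
        simp [*]
      · nlinarith [Nat.zero_le (Z.card * Z.card), Nat.zero_le (m * k), Nat.zero_le (m * Z.card),
          Nat.zero_le (Z.card * k), Nat.zero_le (Z.card * T.card),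
          Nat.mul_le_mul_left Z.card (show 1 ≤ T.card + k + Z.card by omega)]
    omega
  obtain ⟨t, ht, hlt⟩ := hpig
  have htZ : t ∉ Z := fun h1 => (Finset.disjoint_left.mp hTZ) ht h1
  set A : Finset α := (Finset.univ \ Z).filter fun i => R i t with hA
  have htA : t ∈ A := by
    rw [hA, Finset.mem_filter]
    exact ⟨by simpa using htZ, hr t htZ⟩
  have hAZ : Disjoint A Z := by
    rw [Finset.disjoint_left]
    intro i hi
    have := (Finset.mem_filter.mp hi).1
    simpa using this
  have hbig : n + 1 ≤ (A ∪ Z).card := by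
    rw [Finset.card_union_of_disjoint hAZ]
    omega
  obtain ⟨S, hS1, hS2, hSc⟩ := Finset.exists_subsuperset_card_eq
    (s := {t}) (t := A ∪ Z) (n := n + 1)
    (by
      rw [Finset.singleton_subset_iff]
      exact Finset.mem_union_left _ htA) (by simp) hbig
  refine ⟨t, htZ, S, ?_, hSc, ?_⟩
  · exact hS1 (Finset.mem_singleton_self t)
  · intro i hi
    rcases Finset.mem_union.mp (hS2 hi) with h1 | h1
    · exact Or.inr (Finset.mem_filter.mp h1).2
    · exact Or.inl h1

/-- the hypothesis only for sets of indices disjoint from `Z` -/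
theorem close_family' {α : Type*} [Fintype α] (Z : Finset α) (R : α → α → Prop)
    (hs : ∀ i j, R i j → R j i) (hr : ∀ i, i ∉ Z → R i i) (n ν : ℕ)
    (hZ : Z.card ≤ n) (hν : 1 ≤ ν) (hα : n * ν < Fintype.card α)
    (h : ∀ S : Finset α, Disjoint S Z → S.card = ν + 1 → ∃ i ∈ S, ∃ j ∈ S, i ≠ j ∧ R i j) :
    ∃ i0, i0 ∉ Z ∧ ∃ S : Finset α, i0 ∈ S ∧ S.card = n + 1 ∧ ∀ i ∈ S, i ∈ Z ∨ R i i0 := by
  classical
  -- a maximal family of pairwise non-close indices
  let F : Finset (Finset α) := Finset.univ.filter fun T : Finset α =>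
    Disjoint T Z ∧ ∀ i ∈ T, ∀ j ∈ T, i ≠ j → ¬ R i j
  have hF : F.Nonempty := ⟨∅, by simp [F]⟩
  obtain ⟨T, hTF, hTmax⟩ := Finset.exists_max_image F Finset.card hF
  have hT : Disjoint T Z ∧ ∀ i ∈ T, ∀ j ∈ T, i ≠ j → ¬ R i j := by
    simpa [F] using hTF
  obtain ⟨hTZ, hTR⟩ := hT
  have hcov : ∀ i, i ∉ Z → ∃ t ∈ T, R i t := by
    intro i hi
    by_contra hcon
    push Not at hcon
    have hiT : i ∉ T := fun h1 => hcon i h1 (hr i hi)
    have h2 : insert i T ∈ F := by
      simp only [F, Finset.mem_filter, Finset.mem_univ, true_and]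
      refine ⟨?_, ?_⟩
      · rw [Finset.disjoint_insert_left]
        exact ⟨hi, hTZ⟩
      · intro a ha b hb hab hR
        rcases Finset.mem_insert.mp ha with ha1 | ha1
        · rcases Finset.mem_insert.mp hb with hb1 | hb1
          · exact hab (ha1.trans hb1.symm)
          · rw [ha1] at hR
            exact hcon b hb1 hR
        · rcases Finset.mem_insert.mp hb with hb1 | hb1
          · rw [hb1] at hR
            exact hcon a ha1 (hs _ _ hR)
          · exact hTR a ha1 b hb1 hab hR
    have h3 := hTmax _ h2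
    rw [Finset.card_insert_of_notMem hiT] at h3
    omega
  have hcard : T.card ≤ ν := by
    by_contra hcon
    have h1 : ν + 1 ≤ T.card := by omega
    obtain ⟨S, hS, hSc⟩ := Finset.exists_subset_card_eq h1
    obtain ⟨i, hi, j, hj, hij, hR⟩ := h S (Finset.disjoint_of_subset_left hS hTZ) hSc
    exact hTR i (hS hi) j (hS hj) hij hR
  -- pigeonhole
  have hsub : Finset.univ \ Z ⊆ T.biUnion fun t => (Finset.univ \ Z).filter fun i => R i t := by
    intro i hi
    obtain ⟨t, ht, hR⟩ := hcov i (by simpa using hi)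
    simp only [Finset.mem_biUnion, Finset.mem_filter]
    exact ⟨t, ht, hi, hR⟩
  have hpig : ∃ t ∈ T, n - Z.card < ((Finset.univ \ Z).filter fun i => R i t).card := by
    by_contra hcon
    push Not at hcon
    have h1 : (Finset.univ \ Z).card ≤ T.card * (n - Z.card) :=
      (Finset.card_le_card hsub).trans (Finset.card_biUnion_le_card_mul _ _ _ hcon)
    rw [Finset.card_sdiff_of_subset (Finset.subset_univ Z), Finset.card_univ] at h1
    have h2 : Fintype.card α ≤ Z.card + T.card * (n - Z.card) := by omega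
    obtain ⟨m, hm⟩ := Nat.exists_eq_add_of_le hZ
    have h3 : n - Z.card = m := by omega
    rw [h3] at h2
    have h4 : Z.card + T.card * m ≤ n * ν := by
      have h5 := Nat.mul_le_mul_right m hcard
      have h6 := Nat.mul_le_mul_left Z.card hν
      rw [hm]
      nlinarith
    omega
  obtain ⟨t, ht, hlt⟩ := hpig
  have htZ : t ∉ Z := fun h1 => (Finset.disjoint_left.mp hTZ) ht h1
  set A : Finset α := (Finset.univ \ Z).filter fun i => R i t with hA
  have htA : t ∈ A := by
    rw [hA, Finset.mem_filter]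
    exact ⟨by simpa using htZ, hr t htZ⟩
  have hAZ : Disjoint A Z := by
    rw [Finset.disjoint_left]
    intro i hi
    have := (Finset.mem_filter.mp hi).1
    simpa using this
  have hbig : n + 1 ≤ (A ∪ Z).card := by
    rw [Finset.card_union_of_disjoint hAZ]
    omega
  obtain ⟨S, hS1, hS2, hSc⟩ := Finset.exists_subsuperset_card_eq
    (s := {t}) (t := A ∪ Z) (n := n + 1)
    (by
      rw [Finset.singleton_subset_iff]
      exact Finset.mem_union_left _ htA) (by simp) hbig
  refine ⟨t, htZ, S, ?_, hSc, ?_⟩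
  · exact hS1 (Finset.mem_singleton_self t)
  · intro i hi
    rcases Finset.mem_union.mp (hS2 hi) with h1 | h1
    · exact Or.inr (Finset.mem_filter.mp h1).2
    · exact Or.inl h1

end Pool.Agent.Lib.MP_44a246_ntFP
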