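import Mathlib
import Pool.Agent.Lib.MP_44a246_ntFP.FP03
import Pool.Agent.Lib.MP_44a246_ntFP.FP04

/-!
From the close pairs to the height of a part of the vector of the values.
-/

namespace Pool.Agent.Lib.MP_44a246_ntFP

open Pool.Agent.Lib.MP_44a246_nt
open Pool.Agent.Lib.MP_44a246_ntL
open WithZero

variable {κ L : Type*} [Field κ] [IsAlgClosed κ] [CharZero κ] [Field L] [Algebra κ L]

theorem height_pair_comm (a b : L) : height κ ![a, b] = height κ ![b, a] := by
  refine finsum_congr fun w => ?_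
  rw [vmax_two, vmax_two, max_comm]

theorem height_pair_self (h : IsFF κ L) {a : L} (ha : a ≠ 0) : height κ ![a, a] = 0 := by
  rw [← h.product_formula ha]
  refine finsum_congr fun w => ?_
  rw [vmax_two, max_self]

/-- the height of a family in terms of the heights of the pairs with a fixed element -/
theorem height_le_pairs (h : IsFF κ L) {α : Type*} [DecidableEq α] {S : Finset α} {u : α → L}
    {i0 : α} (hi0 : i0 ∈ S) (hu : u i0 ≠ 0) :
    height κ (fun j : {j // j ∈ S} => u j) ≤ ∑ i ∈ S.erase i0, height κ ![u i, u i0] := by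
  classical
  have hu0 : (fun j : {j // j ∈ S} => u j) ≠ 0 := fun h0 => hu (congrFun h0 ⟨i0, hi0⟩)
  have hp0 : ∀ i, (![u i, u i0] : Fin 2 → L) ≠ 0 := fun i h0 => hu (congrFun h0 1)
  have hloc : ∀ w : Place κ L, log (vmax w.1 fun j : {j // j ∈ S} => u j) ≤
      log (w.1 (u i0)) + ∑ i ∈ S.erase i0, (log (vmax w.1 ![u i, u i0]) - log (w.1 (u i0))) := by
    intro w
    have hw : w.1 (u i0) ≠ 0 := (Valuation.ne_zero_iff _).2 hu
    have hnn : ∀ i, 0 ≤ log (vmax w.1 ![u i, u i0]) - log (w.1 (u i0)) := by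
      intro i
      rw [sub_nonneg]
      refine (log_le_log hw fun h0 => hp0 i (vmax_eq_zero_iff w.1 |>.1 h0)).2 ?_
      rw [vmax_two]
      exact le_max_right _ _
    obtain ⟨l, hl, hl1, hl2⟩ := exists_vmax w.1 hu0
    rw [hl1]
    by_cases h1 : (l : α) = i0
    · rw [h1]
      have h2 := Finset.sum_nonneg (s := S.erase i0) (f := fun i =>
        log (vmax w.1 ![u i, u i0]) - log (w.1 (u i0))) fun i _ => hnn i
      linarith
    · have h2 := Finset.single_le_sum (s := S.erase i0) (f := fun i =>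
        log (vmax w.1 ![u i, u i0]) - log (w.1 (u i0))) (fun i _ => hnn i)
        (Finset.mem_erase.2 ⟨h1, l.2⟩)
      have h3 : log (w.1 (u l)) ≤ log (vmax w.1 ![u l, u i0]) := by
        refine (log_le_log ((Valuation.ne_zero_iff _).2 hl)
          fun h0 => hp0 _ (vmax_eq_zero_iff w.1 |>.1 h0)).2 ?_
        rw [vmax_two]
        exact le_max_left _ _
      linarith
  have s1 := h.vmax_support hu0
  have s2 := h.place_support hu
  have s3 : ∀ i, (Function.support fun w : Place κ L =>
      log (vmax w.1 ![u i, u i0]) - log (w.1 (u i0))).Finite := fun i =>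
    ((h.vmax_support (hp0 i)).union s2).subset (Function.support_sub _ _)
  have s4 : (Function.support fun w : Place κ L => ∑ i ∈ S.erase i0,
      (log (vmax w.1 ![u i, u i0]) - log (w.1 (u i0)))).Finite := by
    refine ((S.erase i0).finite_toSet.biUnion fun i _ => s3 i).subset ?_
    intro w hw
    rw [Function.mem_support] at hw
    obtain ⟨i, hi, hi'⟩ := Finset.exists_ne_zero_of_sum_ne_zero hw
    exact Set.mem_biUnion hi hi'
  have hmain := finsum_mono s1 ((s2.union s4).subset (Function.support_add _ _)) hloc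
  rw [finsum_add_distrib s2 s4, h.product_formula hu, zero_add,
    finsum_sum_comm _ _ (fun i _ => s3 i)] at hmain
  refine hmain.trans (le_of_eq (Finset.sum_congr rfl fun i _ => ?_))
  rw [finsum_sub_distrib (h.vmax_support (hp0 i)) s2, h.product_formula hu, sub_zero]
  rfl

/-- **From the close pairs to `n + 1` indices.** -/
theorem exists_small (h : IsFF κ L) {q n ν e : ℕ} {u : Fin q → L} {E₁ : ℤ} (hE₁ : 0 ≤ E₁)
    (hν : 1 ≤ ν) (hq : n * ν < q)
    (hZ : ∀ S : Finset (Fin q), S.card = n + 1 → (fun j : {j // j ∈ S} => u j) ≠ 0)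
    (hclose : ∀ S : Finset (Fin q), S.card = ν + 1 → (∀ j ∈ S, u j ≠ 0) →
      ∃ i ∈ S, ∃ j ∈ S, i ≠ j ∧ (e : ℤ) * height κ ![u i, u j] ≤ E₁) :
    ∃ S : Finset (Fin q), S.card = n + 1 ∧
      (e : ℤ) * height κ (fun j : {j // j ∈ S} => u j) ≤ n * E₁ := by
  classical
  obtain ⟨Z, hZdef⟩ : ∃ Z : Finset (Fin q), Z = Finset.univ.filter fun j => u j = 0 := ⟨_, rfl⟩
  have hmemZ : ∀ j, j ∈ Z ↔ u j = 0 := by
    intro j
    rw [hZdef]
    simp
  have hZc : Z.card ≤ n := by
    by_contra hcon
    obtain ⟨S, hS, hSc⟩ := Finset.exists_subset_card_eq (by omega : n + 1 ≤ Z.card)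
    refine hZ S hSc ?_
    funext j
    exact (hmemZ _).1 (hS j.2)
  obtain ⟨i0, hi0, S, hi0S, hSc, hSR⟩ := close_family' Z
    (fun i j => (e : ℤ) * height κ ![u i, u j] ≤ E₁) (fun i j h1 => by
      rw [height_pair_comm]
      exact h1) (fun i hi => by
      rw [hmemZ] at hi
      rw [height_pair_self h hi, mul_zero]
      exact hE₁) n ν hZc hν (by rw [Fintype.card_fin]; exact hq) (fun S hdis hSc => by
      refine hclose S hSc fun j hj h0 => ?_
      exact Finset.disjoint_left.1 hdis hj ((hmemZ j).2 h0))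
  have hu0 : u i0 ≠ 0 := fun h0 => hi0 ((hmemZ i0).2 h0)
  refine ⟨S, hSc, ?_⟩
  have h1 := height_le_pairs h hi0S hu0
  have h2 : ∀ i ∈ S.erase i0, (e : ℤ) * height κ ![u i, u i0] ≤ E₁ := by
    intro i hi
    rcases hSR i (Finset.mem_of_mem_erase hi) with h3 | h3
    · rw [hmemZ] at h3
      have h4 : height κ ![u i, u i0] = 0 := by
        rw [← h.product_formula hu0, h3]
        refine finsum_congr fun w => ?_
        rw [vmax_two, map_zero, max_eq_right zero_le]
      rw [h4, mul_zero]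
      exact hE₁
    · exact h3
  calc (e : ℤ) * height κ (fun j : {j // j ∈ S} => u j) ≤
      e * ∑ i ∈ S.erase i0, height κ ![u i, u i0] :=
        mul_le_mul_of_nonneg_left h1 (Int.natCast_nonneg _)
    _ = ∑ i ∈ S.erase i0, (e : ℤ) * height κ ![u i, u i0] := Finset.mul_sum _ _ _
    _ ≤ ∑ i ∈ S.erase i0, E₁ := Finset.sum_le_sum h2
    _ = n * E₁ := by
        rw [Finset.sum_const, Finset.card_erase_of_mem hi0S, hSc, Nat.add_sub_cancel,
          nsmul_eq_mul]

end Pool.Agent.Lib.MP_44a246_ntFP
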