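import Mathlib
import Pool.Agent.Lib.MP_44a246_ntMS.MS01

/-!
A relation between the derivatives of a point, with coefficients of bounded height.
-/

namespace Pool.Agent.Lib.MP_44a246_ntFP

open Pool.Agent.Lib.MP_44a246_nt
open Pool.Agent.Lib.MP_44a246_ntL
open Pool.Agent.Lib.MP_44a246_ntX
open Pool.Agent.Lib.MP_44a246_ntMS
open WithZero

variable {κ L : Type*} [Field κ] [Field L] [Algebra κ L]

/-- the minors of the derivatives of a normalised point -/
theorem minor_bound {ι : Type*} {E : ι → Derivation ℤ L L} {δ ρ : Place κ L → ℕ}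
    (hE : MinorBound κ E Set.univ δ ρ) {N : ℕ} {x : Fin N → L} {j₀ : Fin N} (hx : x j₀ = 1)
    (w : Place κ L) {r : ℕ} (R : Fin r → ι) (col : Fin r → Fin N) :
    w.1 (Matrix.of fun b b' => E (R b) (x (col b'))).det ≤
      vmax w.1 x ^ (r + 1) * exp ((r * δ w + ρ w : ℕ) : ℤ) := by
  classical
  have hx0 : x ≠ 0 := by
    intro h0
    rw [h0] at hx
    exact zero_ne_one hx
  obtain ⟨l, hl, hlmax, hlk⟩ := exists_vmax w.1 hx0
  have hwl : w.1 (x l) ≠ 0 := (Valuation.ne_zero_iff _).2 hl
  obtain ⟨xh, hxh⟩ : ∃ xh : Fin N → L, xh = fun i => x i / x l := ⟨_, rfl⟩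
  have hxxh : ∀ i, x i = x l * xh i := by
    intro i
    rw [hxh]
    show x i = x l * (x i / x l)
    rw [mul_div_cancel₀ _ hl]
  have hxh1 : ∀ i, w.1 (xh i) ≤ 1 := by
    intro i
    rw [hxh]
    show w.1 (x i / x l) ≤ 1
    rw [map_div₀]
    exact div_le_one_of_le₀ (hlk i) zero_le
  obtain ⟨cc, hcc⟩ : ∃ cc : Fin 1 ⊕ Fin r → Fin N, cc = Sum.elim (fun _ => j₀) col := ⟨_, rfl⟩
  -- the bordered matrices
  have h1 : (Matrix.of (Sum.elim (fun _ : Fin 1 => fun b => x (cc b))
      (fun q b => E (R q) (x (cc b))))).det =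
      (Matrix.of fun b b' => E (R b) (x (col b'))).det := by
    have h2 : (Matrix.of (Sum.elim (fun _ : Fin 1 => fun b => x (cc b))
        (fun q b => E (R q) (x (cc b))))) =
        Matrix.fromBlocks (1 : Matrix (Fin 1) (Fin 1) L) (Matrix.of fun _ b => x (col b)) 0
          (Matrix.of fun b b' => E (R b) (x (col b'))) := by
      ext i j
      rcases i with i | i <;> rcases j with j | j
      · show x (cc (Sum.inl j)) = (1 : Matrix (Fin 1) (Fin 1) L) i j
        rw [hcc, Sum.elim_inl, hx, Subsingleton.elim i j, Matrix.one_apply_eq]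
      · show x (cc (Sum.inr j)) = x (col j)
        rw [hcc, Sum.elim_inr]
      · show E (R i) (x (cc (Sum.inl j))) = 0
        rw [hcc, Sum.elim_inl, hx, Derivation.map_one_eq_zero]
      · show E (R i) (x (cc (Sum.inr j))) = E (R i) (x (col j))
        rw [hcc, Sum.elim_inr]
    rw [h2, Matrix.det_fromBlocks_zero₂₁, Matrix.det_one, one_mul]
  have h3 : (Matrix.of (Sum.elim (fun _ : Fin 1 => fun b => x (cc b))
      (fun q b => E (R q) (x (cc b))))).det =
      x l ^ (r + 1) * (Matrix.of (Sum.elim (fun _ : Fin 1 => fun b => xh (cc b))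
      (fun q b => E (R q) (xh (cc b))))).det := by
    have h4 : (Matrix.of (Sum.elim (fun _ : Fin 1 => fun b => x (cc b))
        (fun q b => E (R q) (x (cc b))))) =
        Matrix.fromBlocks (x l • (1 : Matrix (Fin 1) (Fin 1) L)) 0
          (Matrix.of fun q _ => E (R q) (x l)) (x l • (1 : Matrix (Fin r) (Fin r) L)) *
        Matrix.of (Sum.elim (fun _ : Fin 1 => fun b => xh (cc b))
          (fun q b => E (R q) (xh (cc b)))) := by
      ext i j
      rw [Matrix.mul_apply, Fintype.sum_sum_type]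
      rcases i with i | i
      · show x (cc j) = _
        simp only [Matrix.fromBlocks_apply₁₁, Matrix.fromBlocks_apply₁₂, Matrix.zero_apply,
          zero_mul, Finset.sum_const_zero, add_zero, Matrix.of_apply, Sum.elim_inl,
          Matrix.smul_apply, smul_eq_mul]
        rw [Fin.sum_univ_one, Subsingleton.elim i 0, Matrix.one_apply_eq, mul_one]
        exact hxxh _
      · show E (R i) (x (cc j)) = _
        simp only [Matrix.fromBlocks_apply₂₁, Matrix.fromBlocks_apply₂₂, Matrix.of_apply,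
          Sum.elim_inl, Sum.elim_inr, Matrix.smul_apply, smul_eq_mul]
        rw [Fin.sum_univ_one, Finset.sum_eq_single i]
        · rw [Matrix.one_apply_eq, mul_one]
          conv_lhs => rw [hxxh (cc j), Derivation.leibniz, smul_eq_mul, smul_eq_mul]
          ring
        · intro b _ hb
          rw [Matrix.one_apply_ne hb.symm, mul_zero, zero_mul]
        · intro h5
          exact absurd (Finset.mem_univ _) h5
    rw [h4, Matrix.det_mul, Matrix.det_fromBlocks_zero₁₂, Matrix.det_smul, Matrix.det_smul,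
      Matrix.det_one, Matrix.det_one, Fintype.card_fin, Fintype.card_fin]
    ring
  rw [← h1, h3, map_mul, map_pow, ← hlmax]
  refine mul_le_mul' le_rfl ?_
  exact border_bound hE w R (fun b => xh (cc b)) fun b => hxh1 _

/-- **The relation between the derivatives.** -/
theorem exists_rel {n : ℕ} {E : Fin (n + 1) → Derivation ℤ L L} {δ ρ : Place κ L → ℕ}
    (hE : MinorBound κ E Set.univ δ ρ) {N : ℕ} {x : Fin N → L} {j₀ : Fin N} (hx : x j₀ = 1)
    {q : ℕ} (hq : q ≤ n) (c : Fin N → Fin q → L) (jj : Fin q → Fin N)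
    (hc : ∀ l i, E l (x i) = ∑ t, c i t * E l (x (jj t))) :
    ∃ M : Fin (n + 1) → L, M ≠ 0 ∧ (∀ i, ∑ l, M l * E l (x i) = 0) ∧
      ∀ l (w : Place κ L), w.1 (M l) ≤
        vmax w.1 x ^ (n + 1) * exp ((n * δ w + ρ w : ℕ) : ℤ) := by
  classical
  obtain ⟨P, hP⟩ : ∃ P : ℕ → Prop, P = fun r => ∃ (R : Fin r → Fin (n + 1))
    (col : Fin r → Fin N), Function.Injective R ∧
      (Matrix.of fun b b' => E (R b) (x (col b'))).det ≠ 0 := ⟨_, rfl⟩
  have hP0 : P 0 := by
    rw [hP]
    refine ⟨Fin.elim0, Fin.elim0, fun i => i.elim0, ?_⟩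
    rw [Matrix.det_fin_zero]
    exact one_ne_zero
  have hPn : ¬ P (n + 1) := by
    rw [hP]
    rintro ⟨R, col, -, hdet⟩
    have h1 : ¬ LinearIndependent L (fun b : Fin (n + 1) => fun t : Fin q =>
        E (R b) (x (jj t))) := by
      intro h2
      have h3 := h2.fintype_card_le_finrank
      rw [Fintype.card_fin, Module.finrank_fin_fun] at h3
      omega
    rw [Fintype.linearIndependent_iff] at h1
    push Not at h1
    obtain ⟨g, hg, i, hi⟩ := h1
    refine hdet (Matrix.exists_vecMul_eq_zero_iff.1 ⟨g, fun h0 => hi (congrFun h0 i), ?_⟩)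
    funext b'
    show ∑ b, g b * E (R b) (x (col b')) = 0
    have h2 : ∀ t, ∑ b, g b * E (R b) (x (jj t)) = 0 := by
      intro t
      have h3 := congrFun hg t
      rw [Finset.sum_apply] at h3
      exact h3
    rw [Finset.sum_congr rfl fun b _ => by
      rw [hc (R b) (col b'), Finset.mul_sum]]
    rw [Finset.sum_comm]
    refine Finset.sum_eq_zero fun t _ => ?_
    rw [Finset.sum_congr rfl fun b _ => (by ring :
      g b * (c (col b') t * E (R b) (x (jj t))) = c (col b') t * (g b * E (R b) (x (jj t)))),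
      ← Finset.mul_sum, h2, mul_zero]
  obtain ⟨r, hr, hPr, hPr'⟩ : ∃ r ≤ n, P r ∧ ¬ P (r + 1) := by
    by_contra hcon
    push Not at hcon
    have h1 : ∀ r ≤ n + 1, P r := by
      intro r
      induction r with
      | zero => exact fun _ => hP0
      | succ r ih => exact fun h2 => hcon r (by omega) (ih (by omega))
    exact hPn (h1 _ le_rfl)
  rw [hP] at hPr hPr'
  obtain ⟨R, col, hR, hdet⟩ := hPr
  obtain ⟨l₀, hl₀⟩ : ∃ l₀, l₀ ∉ Set.range R := by
    by_contra hcon
    push Not at hcon
    have h1 := Fintype.card_le_of_surjective R hcon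
    rw [Fintype.card_fin, Fintype.card_fin] at h1
    omega
  obtain ⟨R', hR'⟩ : ∃ R' : Fin (r + 1) → Fin (n + 1), R' = Fin.cons l₀ R := ⟨_, rfl⟩
  have hR'i : Function.Injective R' := by
    rw [hR', Fin.cons_injective_iff]
    exact ⟨hl₀, hR⟩
  obtain ⟨mm, hmm⟩ : ∃ mm : Fin (r + 1) → L, mm = fun a : Fin (r + 1) => (-1) ^ (a : ℕ) *
    (Matrix.of fun b b' => E (R' (a.succAbove b)) (x (col b'))).det := ⟨_, rfl⟩
  have hrel : ∀ i, ∑ a, mm a * E (R' a) (x i) = 0 := by
    intro i
    have h1 : (Matrix.of fun a b => E (R' a) (x ((Fin.cons i col : Fin (r + 1) → Fin N) b))).det =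
        0 := by
      by_contra h2
      exact hPr' ⟨R', Fin.cons i col, hR'i, h2⟩
    rw [Matrix.det_succ_column_zero] at h1
    rw [← h1]
    refine Finset.sum_congr rfl fun a _ => ?_
    rw [hmm, Matrix.of_apply, Fin.cons_zero]
    have h2 : (Matrix.of fun a b => E (R' a) (x ((Fin.cons i col :
        Fin (r + 1) → Fin N) b))).submatrix a.succAbove Fin.succ =
        Matrix.of fun b b' => E (R' (a.succAbove b)) (x (col b')) := by
      ext b b'
      rw [Matrix.submatrix_apply, Matrix.of_apply, Fin.cons_succ]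
      rfl
    rw [h2]
    ring
  obtain ⟨M, hM⟩ : ∃ M : Fin (n + 1) → L, M = fun l => ∑ a, if R' a = l then mm a else 0 :=
    ⟨_, rfl⟩
  have hMa : ∀ a, M (R' a) = mm a := by
    intro a
    rw [hM]
    show ∑ a', (if R' a' = R' a then mm a' else 0) = mm a
    rw [Finset.sum_eq_single a]
    · rw [if_pos rfl]
    · intro a' _ ha'
      rw [if_neg]
      exact fun h1 => ha' (hR'i h1)
    · intro h1
      exact absurd (Finset.mem_univ _) h1
  have hMn : ∀ l, l ∉ Set.range R' → M l = 0 := by
    intro l hl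
    rw [hM]
    refine Finset.sum_eq_zero fun a _ => ?_
    rw [if_neg]
    exact fun h1 => hl ⟨a, h1⟩
  refine ⟨M, ?_, ?_, ?_⟩
  · intro h0
    have h1 := hMa 0
    rw [h0, hmm] at h1
    simp only [Pi.zero_apply, Fin.val_zero, pow_zero, one_mul] at h1
    apply hdet
    rw [h1]
    congr 1
    ext b b'
    rw [Matrix.of_apply, Matrix.of_apply, hR', Fin.zero_succAbove, Fin.cons_succ]
  · intro i
    rw [← hrel i]
    have h1 : ∀ l, M l * E l (x i) = ∑ a, if R' a = l then mm a * E (R' a) (x i) else 0 := by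
      intro l
      rw [hM]
      show (∑ a, if R' a = l then mm a else 0) * E l (x i) = _
      rw [Finset.sum_mul]
      refine Finset.sum_congr rfl fun a _ => ?_
      split_ifs with h2
      · rw [h2]
      · rw [zero_mul]
    rw [Finset.sum_congr rfl fun l _ => h1 l, Finset.sum_comm]
    refine Finset.sum_congr rfl fun a _ => ?_
    rw [Finset.sum_ite_eq, if_pos (Finset.mem_univ _)]
  · intro l w
    by_cases hl : l ∈ Set.range R'
    · obtain ⟨a, rfl⟩ := hl
      rw [hMa, hmm]
      show w.1 ((-1) ^ (a : ℕ) * _) ≤ _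
      rw [map_mul, map_pow, Valuation.map_neg, map_one, one_pow, one_mul]
      refine (minor_bound hE hx w (fun b => R' (a.succAbove b)) col).trans ?_
      have h1 : 1 ≤ vmax w.1 x := by
        have h2 := le_vmax w.1 x j₀
        rwa [hx, map_one] at h2
      refine mul_le_mul' (pow_le_pow_right₀ h1 (by omega)) ?_
      rw [exp_le_exp]
      have h2 : r * δ w + ρ w ≤ n * δ w + ρ w := Nat.add_le_add_right (Nat.mul_le_mul_right _ hr) _
      exact_mod_cast h2
    · rw [hMn l hl, map_zero]
      exact zero_le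

end Pool.Agent.Lib.MP_44a246_ntFP
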