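import Mathlib
import Pool.Agent.Lib.MP_44a246_ntX.XP2
import Pool.Agent.Lib.MP_44a246_ntL.LSum
import Pool.Agent.Lib.MP_44a246_ntK.K11
import Pool.Agent.Lib.MP_44a246_ntR.R05
import Pool.Agent.Lib.MP_44a246_ntU.U05
import Pool.Agent.Lib.MP_44a246_ntFP.FP03
import Pool.Agent.Lib.MP_44a246_ntFP.FP06

/-!
Close indices for a point over a finite extension of a function field.
-/

namespace Pool.Agent.Lib.MP_44a246_ntFP

open Pool.Agent.Lib.MP_44a246_nt
open Pool.Agent.Lib.MP_44a246_ntL
open Pool.Agent.Lib.MP_44a246_ntX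
open Pool.Agent.Lib.MP_44a246_ntK (der_aevalG wtP)
open Pool.Agent.Lib.MP_44a246_ntR (imI card_le_of_dimI_norm)
open Pool.Agent.Lib.MP_44a246_ntU (exists_der_comb)
open WithZero MvPolynomial

/-- the values of the form and of its derivatives -/
theorem der_form {k L : Type*} [Field k] [Field L] [Algebra k L] {N q : ℕ} {e : ℕ}
    {P : Fin q → MvPolynomial (Fin N) k} {a : Fin q → L} {x : Fin N → L}
    (D : Derivation ℤ L L) (hD : ∀ c : k, D (algebraMap k L c) = 0) :
    D (∑ j, a j * aeval x (P j) ^ e) = ∑ j, D (a j) * aeval x (P j) ^ e +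
      ∑ i, (∑ j, a j * (e * aeval x (P j) ^ (e - 1) * aeval x (pderiv i (P j)))) * D (x i) := by
  rw [map_sum]
  have h1 : ∀ j, D (a j * aeval x (P j) ^ e) = D (a j) * aeval x (P j) ^ e +
      ∑ i, a j * (e * aeval x (P j) ^ (e - 1) * aeval x (pderiv i (P j))) * D (x i) := by
    intro j
    rw [Derivation.leibniz, Derivation.leibniz_pow, der_aevalG D hD x (P j), smul_eq_mul,
      smul_eq_mul, nsmul_eq_mul, smul_eq_mul, Finset.mul_sum, Finset.mul_sum, Finset.mul_sum,
      add_comm]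
    congr 1
    · ring
    · refine Finset.sum_congr rfl fun i _ => ?_
      ring
  rw [Finset.sum_congr rfl fun j _ => h1 j, Finset.sum_add_distrib, Finset.sum_comm]
  congr 1
  refine Finset.sum_congr rfl fun i _ => ?_
  rw [Finset.sum_mul]

/-- local bounds for a vector in terms of another one -/
theorem height_le_pow {κ L : Type*} [Field κ] [IsAlgClosed κ] [CharZero κ] [Field L] [Algebra κ L]
    (h : IsFF κ L) {ι τ : Type*} [Fintype ι] [Fintype τ] {y : ι → L} (hy : y ≠ 0) {x : τ → L}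
    (hx : x ≠ 0) {c : ℕ} {φ : Place κ L → ℕ} (hφ : (Function.support φ).Finite)
    (hloc : ∀ w : Place κ L, vmax w.1 y ≤ vmax w.1 x ^ c * exp (φ w : ℤ)) :
    height κ y ≤ c * height κ x + ∑ᶠ w, (φ w : ℤ) := by
  have s1 := h.vmax_support hy
  have s2 := h.vmax_support hx
  have s2' : (Function.support fun w : Place κ L => (c : ℤ) * log (vmax w.1 x)).Finite := by
    refine s2.subset fun w hw h1 => hw ?_
    simp only at h1 ⊢
    rw [h1, mul_zero]
  have s3 : (Function.support fun w : Place κ L => (φ w : ℤ)).Finite := by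
    refine hφ.subset fun w hw h1 => hw ?_
    simp only at h1 ⊢
    rw [h1, Nat.cast_zero]
  have h1 : ∀ w : Place κ L, log (vmax w.1 y) ≤ (c : ℤ) * log (vmax w.1 x) + φ w := by
    intro w
    have hwx : vmax w.1 x ≠ 0 := fun h0 => hx (vmax_eq_zero_iff w.1 |>.1 h0)
    have hwy : vmax w.1 y ≠ 0 := fun h0 => hy (vmax_eq_zero_iff w.1 |>.1 h0)
    have h2 := (log_le_log hwy (mul_ne_zero (pow_ne_zero _ hwx) exp_ne_zero)).2 (hloc w)
    rwa [log_mul (pow_ne_zero _ hwx) exp_ne_zero, log_pow, log_exp, nsmul_eq_mul] at h2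
  have h2 := finsum_mono s1 ((s2'.union s3).subset (Function.support_add _ _)) h1
  rw [finsum_add_distrib s2' s3, ← mul_finsum _ _] at h2
  exact h2

/-- the value of a form at a point -/
theorem form_le {L : Type*} [Field L] (v : Valuation L ℤᵐ⁰) {k : Type*} [Field k] [Algebra k L]
    {N dP : ℕ} {P : MvPolynomial (Fin N) k} (hP : P.IsHomogeneous dP) {x : Fin N → L} {A : ℕ}
    (hA : ∀ m, v (algebraMap k L (coeff m P)) ≤ exp (A : ℤ)) :
    v (aeval x P) ≤ vmax v x ^ dP * exp (A : ℤ) := by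
  rw [aeval_def, eval₂_eq']
  refine Valuation.map_sum_le v fun m hm => ?_
  have h1 : ∑ i, m i = dP := by
    have h2 := hP (mem_support_iff.1 hm)
    rw [← h2, Finsupp.weight_apply, Finsupp.sum_fintype]
    · simp
    · simp
  rw [map_mul, map_prod, mul_comm]
  refine mul_le_mul' ?_ (hA m)
  rw [← h1, ← Finset.prod_pow_eq_pow_sum]
  refine Finset.prod_le_prod' fun i _ => ?_
  rw [map_pow]
  exact pow_le_pow_left' (le_vmax v x i) _

/-- **Close indices.** -/
theorem close_over {κ K L : Type*} [Field κ] [IsAlgClosed κ] [CharZero κ] [Field K] [CharZero K]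
    [Algebra κ K] (hK : IsFF κ K) [Field L] [CharZero L] [Algebra K L] [FiniteDimensional K L]
    [Algebra κ L] [IsScalarTower κ K L] {k₀ : Type*} [Field k₀] [CharZero k₀] [Algebra k₀ K]
    [Algebra k₀ L] [IsScalarTower k₀ K L] {n : ℕ} {E : Fin (n + 1) → Derivation ℤ K K}
    {B A B₀ : Place κ K → ℕ} (hB : (Function.support B).Finite)
    (hA : (Function.support A).Finite) (hB₀ : (Function.support B₀).Finite)
    (hPB : ∀ l, PoleBound κ (E l) B) (hEk : ∀ l, ∀ c : k₀, E l (algebraMap k₀ K c) = 0)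
    {D₀ : Derivation κ K K} (hD₀ : D₀ ≠ 0) (hPB₀ : PoleBound κ (D₀.restrictScalars ℤ) B₀)
    {N s q dP : ℕ} {d : Fin 1 → ℕ} {ee : Fin s → ℕ}
    {f : Fin s → MvPolynomial (Fin 1 ⊕ Fin N) k₀}
    (hf : ∀ i, (f i).IsWeightedHomogeneous (wtP N d) (ee i))
    (hdim : ringKrullDim (MvPolynomial (Fin N) k₀ ⧸ imI f) ≤ ((n + 1 : ℕ) : ℕ))
    {P : Fin q → MvPolynomial (Fin N) k₀} (hP : ∀ j, (P j).IsHomogeneous dP)
    (hPA : ∀ j m (v : Place κ K), v.1 (algebraMap k₀ K (coeff m (P j))) ≤ exp (A v : ℤ))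
    {a : Fin q → K} {e : ℕ} {S : Finset (Fin q)} {ν : ℕ} (hS : S.card = ν + 1)
    (hES : ∀ l, ∀ j ∉ S, E l (a j) = 0) (hEA : ∀ l j (v : Place κ K), v.1 (E l (a j)) ≤
      exp (A v : ℤ))
    (hEind : ∀ M : Fin (n + 1) → L, (∀ j, ∑ l, M l * algebraMap K L (E l (a j)) = 0) → M = 0)
    {g : MvPolynomial (Fin 1 ⊕ Fin N) k₀} {j₀ : Fin N} {x : Fin N → L} (hx : x j₀ = 1)
    {H : L} (hH : H = ∑ j, algebraMap K L (a j) * aeval x (P j) ^ e)
    (hzf : ∀ i, aeval (Sum.elim (fun _ => H) x : Fin 1 ⊕ Fin N → L) (f i) = 0)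
    (hzg : aeval (Sum.elim (fun _ => H) x : Fin 1 ⊕ Fin N → L) g = 0)
    (hdg : aeval (Sum.elim (fun _ => H) x : Fin 1 ⊕ Fin N → L) (pderiv (Sum.inl 0) g) ≠ 0)
    (hu : ∀ j ∈ S, aeval x (P j) ≠ 0) :
    ∃ i ∈ S, ∃ j ∈ S, i ≠ j ∧ (e : ℤ) * height κ ![aeval x (P i), aeval x (P j)] ≤
      (((n + 1) * (1 + tri ν * (ν + 1)) + tri ν * (ν + 1) * dP : ℕ) : ℤ) * height κ x +
      ((1 + tri ν * (ν + 1) + tri ν : ℕ) : ℤ) * ramDeg κ L K +
      Module.finrank K L * (((1 + tri ν * (ν + 1) : ℕ) : ℤ) * (n * ∑ᶠ v, (B v : ℤ) +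
        ∑ᶠ v, (A v : ℤ)) + ((tri ν * (ν + 1) : ℕ) : ℤ) * ∑ᶠ v, (A v : ℤ) +
        tri ν * ∑ᶠ v, (B₀ v : ℤ)) := by
  classical
  have hL : IsFF κ L := hK.of_finite
  choose E' hE' using fun l => exists_extension (L := L) (E l)
  have hEk' : ∀ l, ∀ c : k₀, E' l (algebraMap k₀ L c) = 0 := by
    intro l c
    rw [IsScalarTower.algebraMap_apply k₀ K L, hE', hEk, map_zero]
  have hmb := minor_over hK (s := Set.univ) (fun l _ => hPB l) hE'
  have hx0 : x ≠ 0 := by
    intro h0
    rw [h0] at hx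
    exact zero_ne_one hx
  -- the rank
  have hξ : ∑ j, (((Pi.single j₀ 1 : Fin N → ℕ) j : ℕ) : L) * x j = 1 := by
    rw [Finset.sum_eq_single j₀]
    · rw [Pi.single_eq_same, Nat.cast_one, one_mul, hx]
    · intro j _ hj
      rw [Pi.single_eq_of_ne hj, Nat.cast_zero, zero_mul]
    · intro h
      exact absurd (Finset.mem_univ _) h
  obtain ⟨q', jj, c, hq', hc⟩ := exists_der_comb (k := k₀) (γ := x) (r := n)
    fun q j hj => card_le_of_dimI_norm hf hdim hzf hξ hj
  obtain ⟨M, hM0, hMrel, hMle⟩ := exists_rel hmb hx hq' c jj fun l i => hc (E' l) (hEk' l) i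
  -- the relation between the powers
  have hrel : ∑ j, (∑ l, M l * algebraMap K L (E l (a j))) * aeval x (P j) ^ e = 0 := by
    obtain ⟨y, hy⟩ : ∃ y : Fin 1 ⊕ Fin N → L, y = Sum.elim (fun _ => H) x := ⟨_, rfl⟩
    rw [← hy] at hzg hdg
    have h1 : ∀ l, aeval y (pderiv (Sum.inl 0) g) * (∑ j, algebraMap K L (E l (a j)) *
        aeval x (P j) ^ e) = - ∑ i, (aeval y (pderiv (Sum.inr i) g) +
          aeval y (pderiv (Sum.inl 0) g) * ∑ j, algebraMap K L (a j) *
            (e * aeval x (P j) ^ (e - 1) * aeval x (pderiv i (P j)))) * E' l (x i) := by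
      intro l
      have h2 := der_aevalG (E' l) (hEk' l) y g
      rw [hzg, map_zero, Fintype.sum_sum_type, Fin.sum_univ_one] at h2
      have h3 : E' l (y (Sum.inl 0)) = ∑ j, algebraMap K L (E l (a j)) * aeval x (P j) ^ e +
          ∑ i, (∑ j, algebraMap K L (a j) * (e * aeval x (P j) ^ (e - 1) *
            aeval x (pderiv i (P j)))) * E' l (x i) := by
        rw [hy, Sum.elim_inl, hH, der_form (E' l) (hEk' l)]
        congr 1
        refine Finset.sum_congr rfl fun j _ => ?_
        rw [hE']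
      have h4 : ∀ i, y (Sum.inr i) = x i := fun i => by rw [hy]; rfl
      rw [h3] at h2
      simp only [h4] at h2
      have h5 : ∑ i, (aeval y (pderiv (Sum.inr i) g) +
          aeval y (pderiv (Sum.inl 0) g) * ∑ j, algebraMap K L (a j) *
            (e * aeval x (P j) ^ (e - 1) * aeval x (pderiv i (P j)))) * E' l (x i) =
          ∑ i, aeval y (pderiv (Sum.inr i) g) * E' l (x i) +
          aeval y (pderiv (Sum.inl 0) g) * ∑ i, (∑ j, algebraMap K L (a j) *
            (e * aeval x (P j) ^ (e - 1) * aeval x (pderiv i (P j)))) * E' l (x i) := by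
        rw [Finset.mul_sum, ← Finset.sum_add_distrib]
        refine Finset.sum_congr rfl fun i _ => ?_
        ring
      rw [h5]
      linear_combination -h2
    have h2 : aeval y (pderiv (Sum.inl 0) g) *
        ∑ j, (∑ l, M l * algebraMap K L (E l (a j))) * aeval x (P j) ^ e = 0 := by
      have h3 : ∑ j, (∑ l, M l * algebraMap K L (E l (a j))) * aeval x (P j) ^ e =
          ∑ l, M l * ∑ j, algebraMap K L (E l (a j)) * aeval x (P j) ^ e := by
        simp only [Finset.sum_mul, Finset.mul_sum]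
        rw [Finset.sum_comm]
        refine Finset.sum_congr rfl fun l _ => Finset.sum_congr rfl fun j _ => ?_
        ring
      rw [h3, Finset.mul_sum]
      have h4 : ∀ l, aeval y (pderiv (Sum.inl 0) g) * (M l * ∑ j, algebraMap K L (E l (a j)) *
          aeval x (P j) ^ e) = - ∑ i, (aeval y (pderiv (Sum.inr i) g) +
          aeval y (pderiv (Sum.inl 0) g) * ∑ j, algebraMap K L (a j) *
            (e * aeval x (P j) ^ (e - 1) * aeval x (pderiv i (P j)))) * (M l * E' l (x i)) := by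
        intro l
        have h5 := h1 l
        calc _ = M l * (aeval y (pderiv (Sum.inl 0) g) * ∑ j, algebraMap K L (E l (a j)) *
            aeval x (P j) ^ e) := by ring
          _ = _ := by
            rw [h5, mul_neg, Finset.mul_sum]
            congr 1
            refine Finset.sum_congr rfl fun i _ => ?_
            ring
      rw [Finset.sum_congr rfl fun l _ => h4 l, Finset.sum_neg_distrib, Finset.sum_comm,
        neg_eq_zero]
      refine Finset.sum_eq_zero fun i _ => ?_
      rw [← Finset.mul_sum, hMrel i, mul_zero]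
    exact (mul_eq_zero.1 h2).resolve_left hdg
  obtain ⟨M', hM'⟩ : ∃ M' : Fin q → L, M' = fun j => ∑ l, M l * algebraMap K L (E l (a j)) :=
    ⟨_, rfl⟩
  have hM'S : ∀ j ∉ S, M' j = 0 := by
    intro j hj
    rw [hM']
    refine Finset.sum_eq_zero fun l _ => ?_
    rw [hES l j hj, map_zero, mul_zero]
  have hM'0 : (fun j : S => M' j) ≠ 0 := by
    intro h0
    refine hM0 (hEind M fun j => ?_)
    by_cases hj : j ∈ S
    · have h1 := congrFun h0 ⟨j, hj⟩
      rw [hM'] at h1
      exact h1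
    · have h1 := hM'S j hj
      rw [hM'] at h1
      exact h1
  -- the derivation over the constants
  obtain ⟨D₀', hD₀'⟩ := exists_extension (K := K) (L := L) (D₀.restrictScalars ℤ)
  have hDκ : ∀ c : κ, D₀' (algebraMap κ L c) = 0 := by
    intro c
    rw [IsScalarTower.algebraMap_apply κ K L, hD₀']
    have h1 : (D₀.restrictScalars ℤ) (algebraMap κ K c) = 0 := D₀.map_algebraMap c
    rw [h1, map_zero]
  obtain ⟨DL, hDL⟩ : ∃ DL : Derivation κ L L, ∀ y, DL y = D₀' y := ⟨toLinearDer D₀' hDκ,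
    fun y => rfl⟩
  obtain ⟨z, hz⟩ : ∃ z, D₀ z ≠ 0 := by
    by_contra hcon
    push Not at hcon
    exact hD₀ (Derivation.ext fun s => hcon s)
  have hDL0 : ∀ y, DL y = 0 → ∃ c, algebraMap κ L c = y := by
    intro y hy
    refine mason_const hL DL (s := algebraMap K L z) ?_ hy
    rw [hDL, hD₀']
    exact (_root_.map_ne_zero _).2 hz
  -- the supports and the sums
  obtain ⟨a1, a2⟩ := mason_sum_over (L := L) hL hB
  obtain ⟨a3, a4⟩ := mason_sum_over (L := L) hL hA
  obtain ⟨a5, a6⟩ := mason_sum_over (L := L) hL hB₀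
  obtain ⟨a7, a8⟩ := mason_sum_ram (K := K) hL
  have hcast : ∀ {φ : Place κ L → ℕ}, (Function.support fun w => ((φ w : ℕ) : ℤ)).Finite →
      (Function.support φ).Finite := by
    intro φ hφ
    refine hφ.subset fun w hw => ?_
    rw [Function.mem_support] at hw ⊢
    exact_mod_cast hw
  have hcast' : ∀ {φ : Place κ K → ℕ}, (Function.support φ).Finite →
      ((∑ᶠ v, φ v : ℕ) : ℤ) = ∑ᶠ v, (φ v : ℤ) := by
    intro φ hφ
    exact map_finsum (Nat.castAddMonoidHom ℤ) hφ
  rw [hcast' hB] at a2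
  rw [hcast' hA] at a4
  rw [hcast' hB₀] at a6
  have hcard : Fintype.card S = ν + 1 := by rw [Fintype.card_coe, hS]
  have hSne : Nonempty S := by
    rw [← Fintype.card_pos_iff, hcard]
    omega
  -- the heights
  have hu0 : (fun j : S => aeval x (P j)) ≠ 0 := by
    intro h0
    exact hu _ (Classical.arbitrary S).2 (congrFun h0 (Classical.arbitrary S))
  have hx1 : ∀ w : Place κ L, 1 ≤ vmax w.1 x := by
    intro w
    have h2 := le_vmax w.1 x j₀
    rwa [hx, map_one] at h2
  have hAw : ∀ (w : Place κ L) (y : K), (below K w).1 y ≤ exp (A (below K w) : ℤ) →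
      w.1 (algebraMap K L y) ≤ exp ((ramIdx K w.1 * A (below K w) : ℕ) : ℤ) := by
    intro w y hy
    rw [below_pow]
    refine (pow_le_pow_left' hy (ramIdx K w.1)).trans (le_of_eq ?_)
    rw [← exp_nsmul, nsmul_eq_mul]
    push_cast
    rfl
  have hφ1 : (Function.support fun w : Place κ L => (n * (ramIdx K w.1 * B (below K w)) +
      (ramIdx K w.1 - 1)) + ramIdx K w.1 * A (below K w)).Finite := by
    refine (((hcast a1).union (hcast a7)).union (hcast a3)).subset ?_
    intro w hw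
    rw [Function.mem_support] at hw
    by_contra hcon
    rw [Set.mem_union, Set.mem_union, not_or, not_or, Function.notMem_support,
      Function.notMem_support, Function.notMem_support] at hcon
    obtain ⟨⟨h1, h2⟩, h3⟩ := hcon
    apply hw
    rw [h1, h2, h3]
    simp
  have hhM : height κ (fun j : S => M' j) ≤ (n + 1 : ℕ) * height κ x +
      (n * (Module.finrank K L * ∑ᶠ v, (B v : ℤ)) + ramDeg κ L K +
        Module.finrank K L * ∑ᶠ v, (A v : ℤ)) := by
    refine (height_le_pow hL hM'0 hx0 (c := n + 1) hφ1 fun w => ?_).trans (le_of_eq ?_)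
    · refine vmax_le w.1 fun j => ?_
      rw [hM']
      refine Valuation.map_sum_le _ fun l _ => ?_
      rw [map_mul]
      refine (mul_le_mul' (hMle l w) (hAw w _ (hEA l _ _))).trans (le_of_eq ?_)
      rw [mul_assoc, ← exp_add]
      congr 2
    · congr 1
      have e1 : ∑ᶠ w : Place κ L, (((n * (ramIdx K w.1 * B (below K w)) +
          (ramIdx K w.1 - 1)) + ramIdx K w.1 * A (below K w) : ℕ) : ℤ) =
          ∑ᶠ w : Place κ L, (((n : ℤ) * ((ramIdx K w.1 * B (below K w) : ℕ) : ℤ) +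
          ((ramIdx K w.1 - 1 : ℕ) : ℤ)) + ((ramIdx K w.1 * A (below K w) : ℕ) : ℤ)) := by
        refine finsum_congr fun w => ?_
        push_cast
        ring
      have a1' : (Function.support fun w : Place κ L =>
          (n : ℤ) * ((ramIdx K w.1 * B (below K w) : ℕ) : ℤ)).Finite := by
        refine a1.subset fun w hw h1 => hw ?_
        simp only at h1 ⊢
        rw [h1, mul_zero]
      rw [e1, finsum_add_distrib ((a1'.union a7).subset (Function.support_add _ _)) a3,
        finsum_add_distrib a1' a7, ← mul_finsum _ _, a2, a4, a8]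
      ring
  have hhu : height κ (fun j : S => aeval x (P j)) ≤ dP * height κ x +
      Module.finrank K L * ∑ᶠ v, (A v : ℤ) := by
    refine (height_le_pow hL hu0 hx0 (c := dP) (hcast a3) fun w => ?_).trans (le_of_eq ?_)
    · refine vmax_le w.1 fun j => ?_
      refine form_le w.1 (hP j) fun m => ?_
      rw [IsScalarTower.algebraMap_apply k₀ K L]
      exact hAw w _ (hPA _ _ _)
    · rw [a4]
      ring
  -- the close indices
  obtain ⟨i, j, hij, hclose⟩ := exists_close hL DL hDL0
    (β := fun w => ramIdx K w.1 * B₀ (below K w) + (ramIdx K w.1 - 1)) (by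
      refine ((hcast a5).union (hcast a7)).subset ?_
      intro w hw
      rw [Function.mem_support] at hw
      by_contra hcon
      rw [Set.mem_union, not_or, Function.notMem_support, Function.notMem_support] at hcon
      apply hw
      rw [hcon.1, hcon.2, add_zero])
    (fun w y hy => by
      rw [hDL]
      exact polar_over (K := K) hL hD₀' hPB₀ w hy)
    (M := fun j : S => M' j) (u := fun j : S => aeval x (P j)) (fun j => hu j j.2) hM'0 (e := e)
    (by
      rw [← hrel, hM']
      have h1 := Finset.sum_coe_sort S (fun j => (∑ l, M l * algebraMap K L (E l (a j))) *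
        aeval x (P j) ^ e)
      rw [h1]
      refine Finset.sum_subset (Finset.subset_univ _) fun j _ hj => ?_
      have h2 := hM'S j hj
      rw [hM'] at h2
      simp only at h2
      rw [h2, zero_mul])
  refine ⟨i, i.2, j, j.2, fun h1 => hij (Subtype.ext h1), hclose.trans ?_⟩
  have hβ : ∑ᶠ w : Place κ L, ((ramIdx K w.1 * B₀ (below K w) + (ramIdx K w.1 - 1) : ℕ) : ℤ) =
      Module.finrank K L * ∑ᶠ v, (B₀ v : ℤ) + ramDeg κ L K := by
    have e1 : ∑ᶠ w : Place κ L, ((ramIdx K w.1 * B₀ (below K w) + (ramIdx K w.1 - 1) : ℕ) : ℤ) =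
        ∑ᶠ w : Place κ L, (((ramIdx K w.1 * B₀ (below K w) : ℕ) : ℤ) +
          ((ramIdx K w.1 - 1 : ℕ) : ℤ)) := by
      refine finsum_congr fun w => ?_
      push_cast
      ring
    rw [e1, finsum_add_distrib a5 a7, a6, a8]
    ring
  rw [hβ, hcard, Nat.add_sub_cancel]
  have hT : (0 : ℤ) ≤ (tri ν : ℤ) := Int.natCast_nonneg _
  have h1 : height κ (fun j : S => M' j) + (tri ν : ℤ) * (((ν + 1 : ℕ) : ℤ) *
      (height κ (fun j : S => M' j) + height κ (fun j : S => aeval x (P j))) +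
      (Module.finrank K L * ∑ᶠ v, (B₀ v : ℤ) + ramDeg κ L K)) ≤
      ((n + 1 : ℕ) * height κ x + (n * (Module.finrank K L * ∑ᶠ v, (B v : ℤ)) + ramDeg κ L K +
        Module.finrank K L * ∑ᶠ v, (A v : ℤ))) + (tri ν : ℤ) * (((ν + 1 : ℕ) : ℤ) *
      (((n + 1 : ℕ) * height κ x + (n * (Module.finrank K L * ∑ᶠ v, (B v : ℤ)) +
        ramDeg κ L K + Module.finrank K L * ∑ᶠ v, (A v : ℤ))) +
        (dP * height κ x + Module.finrank K L * ∑ᶠ v, (A v : ℤ))) +
      (Module.finrank K L * ∑ᶠ v, (B₀ v : ℤ) + ramDeg κ L K)) := by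
    refine add_le_add hhM (mul_le_mul_of_nonneg_left (add_le_add (mul_le_mul_of_nonneg_left
      (add_le_add hhM hhu) (Int.natCast_nonneg _)) le_rfl) hT)
  refine h1.trans (le_of_eq ?_)
  push_cast
  ring

end Pool.Agent.Lib.MP_44a246_ntFP
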