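import Mathlib
import Pool.Agent.Lib.MP_44a246_ntL.LSum
import Pool.Agent.Lib.MP_44a246_ntL.LRoot
import Pool.Agent.Lib.MP_44a246_ntL.LMason
import Pool.Agent.Lib.MP_44a246_ntMS.MS05
import Pool.Agent.Lib.MP_44a246_ntFP.FP07

/-!
The height of a point which depends algebraically on parameters is bounded by the height of the
parameters.
-/

namespace Pool.Agent.Lib.MP_44a246_ntFP

open Pool.Agent.Lib.MP_44a246_nt
open Pool.Agent.Lib.MP_44a246_ntL
open Pool.Agent.Lib.MP_44a246_ntX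
open Pool.Agent.Lib.MP_44a246_ntMS
open WithZero MvPolynomial

universe u v w x

/-- the value of a polynomial at a place -/
theorem poly_le {L : Type*} [Field L] (v : Valuation L ℤᵐ⁰) {k : Type*} [Field k] [Algebra k L]
    {σ : Type*} [Fintype σ] {D : ℕ} {P : MvPolynomial σ k} (hP : ∀ m ∈ P.support, ∀ j, m j ≤ D)
    {b : σ → L} {A : ℕ} (hA : ∀ m, v (algebraMap k L (coeff m P)) ≤ exp (A : ℤ)) :
    v (aeval b P) ≤ (∏ j, vmax v ![1, b j]) ^ D * exp (A : ℤ) := by
  rw [aeval_def, eval₂_eq']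
  refine Valuation.map_sum_le v fun m hm => ?_
  rw [map_mul, map_prod, mul_comm]
  refine mul_le_mul' ?_ (hA m)
  rw [← Finset.prod_pow]
  refine Finset.prod_le_prod' fun j _ => ?_
  have h1 : 1 ≤ vmax v ![1, b j] := by
    rw [Pool.Agent.Lib.MP_44a246_ntL.vmax_pair]
    exact le_max_left _ _
  have h2 : v (b j) ≤ vmax v ![1, b j] := by
    rw [Pool.Agent.Lib.MP_44a246_ntL.vmax_pair]
    exact le_max_right _ _
  rw [map_pow]
  exact (pow_le_pow_left' h2 _).trans (pow_le_pow_right₀ h1 (hP m hm j))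

/-- the height of the values of finitely many polynomials -/
theorem poly_height {k : Type x} [Field k] {σ : Type*} [Fintype σ] {M D : ℕ}
    {Q : Fin (M + 1) → MvPolynomial σ k} (hD : ∀ i, ∀ m ∈ (Q i).support, ∀ j, m j ≤ D)
    {κ : Type u} {K : Type v} [Field κ] [IsAlgClosed κ] [CharZero κ] [Field K] [CharZero K]
    [Algebra κ K] (hK : IsFF κ K) [Algebra k K] :
    ∃ C : ℕ, ∀ (L : Type w) [Field L] [Algebra K L] [FiniteDimensional K L] [Algebra κ L]
      [IsScalarTower κ K L] [Algebra k L] [IsScalarTower k K L] (b : σ → L),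
      (fun i => aeval b (Q i)) ≠ 0 →
      height κ (fun i => aeval b (Q i)) ≤ D * ∑ j, height κ ![1, b j] +
        C * Module.finrank K L := by
  classical
  obtain ⟨A, hA, hAb⟩ := exists_poly_bound hK (fun i => map (algebraMap k K) (Q i))
  refine ⟨∑ᶠ v, A v, ?_⟩
  intro L _ _ _ _ _ _ _ b hne
  have hL : IsFF κ L := hK.of_finite
  have hs1 := mason_sum_over (L := L) hL hA
  have hloc : ∀ w : Place κ L, vmax w.1 (fun i => aeval b (Q i)) ≤
      (∏ j, vmax w.1 ![1, b j]) ^ D * exp ((ramIdx K w.1 * A (below K w) : ℕ) : ℤ) := by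
    intro w
    refine vmax_le _ fun i => poly_le w.1 (hD i) fun m => ?_
    have h1 := hAb i m (below K w)
    rw [coeff_map] at h1
    rw [IsScalarTower.algebraMap_apply k K L, below_pow]
    refine (pow_le_pow_left' h1 _).trans (le_of_eq ?_)
    rw [← exp_nsmul, nsmul_eq_mul]
    push_cast
    rfl
  have hp0 : ∀ (w : Place κ L) (j : σ), vmax w.1 ![1, b j] ≠ 0 := fun w j =>
    vmax_ne_zero w.1 (pair_ne_zero _)
  have hprod : ∀ w : Place κ L, (∏ j, vmax w.1 ![1, b j]) ≠ 0 := fun w =>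
    Finset.prod_ne_zero_iff.2 fun j _ => hp0 w j
  have hlogp : ∀ w : Place κ L, log (∏ j, vmax w.1 ![1, b j]) =
      ∑ j, log (vmax w.1 ![1, b j]) := by
    intro w
    have h1 : ∀ s : Finset σ, log (∏ j ∈ s, vmax w.1 ![1, b j]) =
        ∑ j ∈ s, log (vmax w.1 ![1, b j]) := by
      intro s
      induction s using Finset.induction_on with
      | empty => rw [Finset.prod_empty, Finset.sum_empty, log_one]
      | insert a s ha ih =>
        rw [Finset.prod_insert ha, Finset.sum_insert ha,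
          log_mul (hp0 w a) (Finset.prod_ne_zero_iff.2 fun j _ => hp0 w j), ih]
    exact h1 _
  have hlog : ∀ w : Place κ L, log (vmax w.1 (fun i => aeval b (Q i))) ≤
      (D : ℤ) * ∑ j, log (vmax w.1 ![1, b j]) + ((ramIdx K w.1 * A (below K w) : ℕ) : ℤ) := by
    intro w
    have h1 := (log_le_log (vmax_ne_zero w.1 hne)
      (mul_ne_zero (pow_ne_zero D (hprod w)) exp_ne_zero)).2 (hloc w)
    rwa [log_mul (pow_ne_zero D (hprod w)) exp_ne_zero, log_pow, log_exp, nsmul_eq_mul,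
      hlogp] at h1
  have s1 := hL.vmax_support hne
  have s2 : ∀ j, (Function.support fun w : Place κ L => log (vmax w.1 ![1, b j])).Finite :=
    fun j => hL.vmax_support (pair_ne_zero _)
  have s3 : (Function.support fun w : Place κ L => ∑ j, log (vmax w.1 ![1, b j])).Finite := by
    refine ((Finset.univ : Finset σ).finite_toSet.biUnion fun i _ => s2 i).subset ?_
    intro w hw
    rw [Function.mem_support] at hw
    obtain ⟨i, hi, hi'⟩ := Finset.exists_ne_zero_of_sum_ne_zero hw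
    exact Set.mem_biUnion hi hi'
  have s4 : (Function.support fun w : Place κ L =>
      (D : ℤ) * ∑ j, log (vmax w.1 ![1, b j])).Finite :=
    s3.subset (Function.support_mul_subset_right _ _)
  have h1 := finsum_mono s1 ((s4.union hs1.1).subset (Function.support_add _ _)) hlog
  rw [finsum_add_distrib s4 hs1.1, hs1.2, ← mul_finsum _ _,
    finsum_sum_comm _ _ (fun i _ => s2 i)] at h1
  exact h1

/-- the bound for the coordinate `i` of the zeros `(b, y)` of the ideal `I` with `g ≠ 0` -/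
def DomAt (k : Type x) [Field k] {σ τ : Type} [Fintype σ] (g : MvPolynomial (σ ⊕ τ) k) (i : τ)
    (I : Ideal (MvPolynomial (σ ⊕ τ) k)) : Prop :=
  ∃ D : ℕ, ∀ (κ : Type u) (K : Type v) [Field κ] [IsAlgClosed κ] [CharZero κ] [Field K]
    [CharZero K] [Algebra κ K], IsFF κ K → ∀ [Algebra k K],
    ∃ C : ℕ, ∀ (L : Type w) [Field L] [Algebra K L] [FiniteDimensional K L] [Algebra κ L]
      [IsScalarTower κ K L] [Algebra k L] [IsScalarTower k K L] (b : σ → L) (y : τ → L),
      (∀ f ∈ I, aeval (Sum.elim b y : σ ⊕ τ → L) f = 0) →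
      aeval (Sum.elim b y : σ ⊕ τ → L) g ≠ 0 →
      height κ ![1, y i] ≤ D * ∑ j, height κ ![1, b j] + C * Module.finrank K L

/-- the union of two closed subsets -/
theorem DomAt.union {k : Type x} [Field k] {σ τ : Type} [Fintype σ]
    {g : MvPolynomial (σ ⊕ τ) k} {i : τ} {I I₁ I₂ : Ideal (MvPolynomial (σ ⊕ τ) k)}
    (h₁ : DomAt.{u, v, w, x} k g i I₁) (h₂ : DomAt.{u, v, w, x} k g i I₂)
    (h : ∀ (L : Type w) [Field L] [Algebra k L] (z : σ ⊕ τ → L), (∀ f ∈ I, aeval z f = 0) →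
      (∀ f ∈ I₁, aeval z f = 0) ∨ ∀ f ∈ I₂, aeval z f = 0) : DomAt.{u, v, w, x} k g i I := by
  obtain ⟨D₁, h₁⟩ := h₁
  obtain ⟨D₂, h₂⟩ := h₂
  refine ⟨D₁ + D₂, ?_⟩
  intro κ K _ _ _ _ _ _ hK _
  obtain ⟨C₁, h₁⟩ := h₁ κ K hK
  obtain ⟨C₂, h₂⟩ := h₂ κ K hK
  refine ⟨C₁ + C₂, ?_⟩
  intro L _ _ _ _ _ _ _ b y hI hg
  have hL : IsFF κ L := hK.of_finite
  have h0 : 0 ≤ ∑ j, height κ ![1, b j] :=
    Finset.sum_nonneg fun j _ => hL.height_nonneg (pair_ne_zero _)
  have h3 : (0 : ℤ) ≤ Module.finrank K L := Int.natCast_nonneg _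
  have h4 : (0 : ℤ) ≤ D₁ := Int.natCast_nonneg _
  have h5 : (0 : ℤ) ≤ D₂ := Int.natCast_nonneg _
  have h6 : (0 : ℤ) ≤ C₁ := Int.natCast_nonneg _
  have h7 : (0 : ℤ) ≤ C₂ := Int.natCast_nonneg _
  push_cast
  rcases h L _ hI with h' | h'
  · have h8 := h₁ L b y h' hg
    nlinarith [mul_nonneg h5 h0, mul_nonneg h7 h3]
  · have h8 := h₂ L b y h' hg
    nlinarith [mul_nonneg h4 h0, mul_nonneg h6 h3]

/-- **Domination of heights.** -/
theorem exists_dom {k : Type x} [Field k] {σ τ : Type} [Fintype σ] [Finite τ]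
    (g : MvPolynomial (σ ⊕ τ) k) (i : τ) (I : Ideal (MvPolynomial (σ ⊕ τ) k))
    (h : ∀ p : Ideal (MvPolynomial (σ ⊕ τ) k), p.IsPrime → I ≤ p → g ∉ p →
      ∃ (M : ℕ) (Q : Fin (M + 1) → MvPolynomial σ k),
        (∃ m, rename (Sum.inl : σ → σ ⊕ τ) (Q m) ∉ p) ∧
        ∑ m, rename (Sum.inl : σ → σ ⊕ τ) (Q m) * X (Sum.inr i) ^ (m : ℕ) ∈ p) :
    DomAt.{u, v, w, x} k g i I := by
  classical
  refine IsNoetherian.induction (R := MvPolynomial (σ ⊕ τ) k)
    (P := fun J : Ideal (MvPolynomial (σ ⊕ τ) k) => I ≤ J → DomAt.{u, v, w, x} k g i J) ?_ I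
    le_rfl
  intro (J : Ideal (MvPolynomial (σ ⊕ τ) k)) ih hJ
  by_cases htop : (1 : MvPolynomial (σ ⊕ τ) k) ∈ J
  · refine ⟨0, ?_⟩
    intro κ K _ _ _ _ _ _ hK _
    refine ⟨0, ?_⟩
    intro L _ _ _ _ _ _ _ b y hI hg
    have h1 := hI 1 htop
    rw [map_one] at h1
    exact absurd h1 one_ne_zero
  by_cases hprime : J.IsPrime
  · by_cases hgJ : g ∈ J
    · refine ⟨0, ?_⟩
      intro κ K _ _ _ _ _ _ hK _
      refine ⟨0, ?_⟩
      intro L _ _ _ _ _ _ _ b y hI hg
      exact absurd (hI g hgJ) hg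
    obtain ⟨M, Q, ⟨m₀, hm₀⟩, hQ⟩ := h J hprime hJ hgJ
    have hlt : J < J ⊔ Ideal.span (Set.range fun m => rename (Sum.inl : σ → σ ⊕ τ) (Q m)) := by
      refine lt_of_le_of_ne le_sup_left fun h1 => hm₀ ?_
      rw [h1]
      exact Ideal.mem_sup_right (Ideal.subset_span ⟨m₀, rfl⟩)
    obtain ⟨D₁, h₁⟩ := ih _ hlt (hJ.trans hlt.le)
    obtain ⟨D, hD⟩ : ∃ D : ℕ, ∀ i, ∀ m ∈ (Q i).support, ∀ j, m j ≤ D := by
      refine ⟨Finset.univ.sup fun i => (Q i).totalDegree, fun i m hm j => ?_⟩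
      refine le_trans ?_ ((le_totalDegree hm).trans (Finset.le_sup (f := fun i =>
        (Q i).totalDegree) (Finset.mem_univ i)))
      rw [Finsupp.sum_fintype _ _ (fun _ => rfl)]
      exact Finset.single_le_sum (f := fun j => m j) (fun _ _ => Nat.zero_le _)
        (Finset.mem_univ j)
    refine ⟨D₁ + D, ?_⟩
    intro κ K _ _ _ _ _ _ hK _
    obtain ⟨C₁, h₁⟩ := h₁ κ K hK
    obtain ⟨C₂, h₂⟩ := poly_height.{u, v, w, x} hD hK
    refine ⟨C₁ + C₂, ?_⟩
    intro L _ _ _ _ _ _ _ b y hI hg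
    have hL : IsFF κ L := hK.of_finite
    have h0 : 0 ≤ ∑ j, height κ ![1, b j] :=
      Finset.sum_nonneg fun j _ => hL.height_nonneg (pair_ne_zero _)
    have h3 : (0 : ℤ) ≤ Module.finrank K L := Int.natCast_nonneg _
    have h4 : (0 : ℤ) ≤ D₁ := Int.natCast_nonneg _
    have h5 : (0 : ℤ) ≤ D := Int.natCast_nonneg _
    have h6 : (0 : ℤ) ≤ C₁ := Int.natCast_nonneg _
    have h7 : (0 : ℤ) ≤ C₂ := Int.natCast_nonneg _
    have hren : ∀ m, aeval (Sum.elim b y : σ ⊕ τ → L) (rename (Sum.inl : σ → σ ⊕ τ) (Q m)) =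
        aeval b (Q m) := by
      intro m
      rw [aeval_rename]
      rfl
    push_cast
    by_cases hzero : (fun m => aeval b (Q m)) = 0
    · have h8 := h₁ L b y (fun f hf => by
        have h9 : J ⊔ Ideal.span (Set.range fun m => rename (Sum.inl : σ → σ ⊕ τ) (Q m)) ≤
            RingHom.ker (aeval (Sum.elim b y : σ ⊕ τ → L) :
              MvPolynomial (σ ⊕ τ) k →ₐ[k] L) := by
          refine sup_le hI (Ideal.span_le.2 ?_)
          rintro _ ⟨m, rfl⟩
          exact (hren m).trans (congrFun hzero m)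
        exact h9 hf) hg
      nlinarith [mul_nonneg h5 h0, mul_nonneg h7 h3]
    · have h8 := h₂ L b hzero
      have h9 := root_height hL (c := fun m => aeval b (Q m)) hzero (z := y i) (by
        have h10 := hI _ hQ
        rw [map_sum] at h10
        rw [← h10]
        refine Finset.sum_congr rfl fun m _ => ?_
        rw [map_mul, hren, map_pow, aeval_X, Sum.elim_inr])
      nlinarith [mul_nonneg h4 h0, mul_nonneg h6 h3]
  · rw [Ideal.isPrime_iff] at hprime
    push Not at hprime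
    obtain ⟨a, b, hab, ha, hb⟩ := hprime (fun h1 => htop (by rw [h1]; trivial))
    have hlt : ∀ c, c ∉ J → J < J ⊔ Ideal.span {c} := by
      intro c hc
      refine lt_of_le_of_ne le_sup_left fun h1 => hc ?_
      rw [h1]
      exact Ideal.mem_sup_right (Ideal.mem_span_singleton_self c)
    refine DomAt.union (ih _ (hlt a ha) (hJ.trans (hlt a ha).le))
      (ih _ (hlt b hb) (hJ.trans (hlt b hb).le)) ?_
    intro L _ _ z hz
    have h1 := hz _ hab
    rw [map_mul, mul_eq_zero] at h1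
    have h2 : ∀ c, aeval z c = 0 → ∀ f ∈ J ⊔ Ideal.span {c}, aeval z f = 0 := by
      intro c hc f hf
      have h9 : J ⊔ Ideal.span {c} ≤
          RingHom.ker (aeval z : MvPolynomial (σ ⊕ τ) k →ₐ[k] L) := by
        refine sup_le hz (Ideal.span_le.2 ?_)
        rintro _ rfl
        exact hc
      exact h9 hf
    rcases h1 with h1 | h1
    · exact Or.inl (h2 a h1)
    · exact Or.inr (h2 b h1)

end Pool.Agent.Lib.MP_44a246_ntFP
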