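import Mathlib
import Pool.Agent.Lib.MP_44a246_ntFP.FP20

/-!
Forms which are not proportional on the curves of a variety: the height of a point is bounded by
the heights of the quotients of the values in few classes.
-/

namespace Pool.Agent.Lib.MP_44a246_ntFP

open Pool.Agent.Lib.MP_44a246_nt
open Pool.Agent.Lib.MP_44a246_ntL
open Pool.Agent.Lib.MP_44a246_ntX
open WithZero MvPolynomial

universe u v w x

/-- On every curve of the variety `{g = 0}` at least `ν` of the forms `P j` are pairwise not
proportional: for all algebraically closed fields `F` over `k`, all fields `E` over `F` and all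
points `y` of the variety over `E` which are not defined over `F`, there are `ν` indices `j` such
that the `P j (y)` are not zero and their quotients are not in `F`. -/
def Sep {k : Type x} [Field k] {N m q : ℕ} (g : Fin m → MvPolynomial (Fin (N + 1)) k)
    (P : Fin q → MvPolynomial (Fin (N + 1)) k) (ν : ℕ) : Prop :=
  ∀ (F E : Type x) [Field F] [IsAlgClosed F] [Field E] [Algebra k F] [Algebra F E] [Algebra k E]
    [IsScalarTower k F E] (y : Fin (N + 1) → E), (∀ i, aeval y (g i) = 0) →
    (∃ i l, y l ≠ 0 ∧ y i / y l ∉ Set.range (algebraMap F E)) →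
    ∃ S : Finset (Fin q), S.card = ν ∧ ∀ i ∈ S, aeval y (P i) ≠ 0 ∧
      ∀ j ∈ S, i ≠ j → aeval y (P i) / aeval y (P j) ∉ Set.range (algebraMap F E)

/-- equations for algebraic elements -/
theorem exists_rel_alg {k E σ : Type*} [Field k] [Field E] [Algebra k E] {b : σ → E} {z : E}
    (hz : IsAlgebraic (Algebra.adjoin k (Set.range b)) z) :
    ∃ (M : ℕ) (Q : Fin (M + 1) → MvPolynomial σ k), (∃ m, aeval b (Q m) ≠ 0) ∧
      ∑ m, aeval b (Q m) * z ^ (m : ℕ) = 0 := by
  obtain ⟨p, hp, hpz⟩ := hz
  have h1 : ∀ c : Algebra.adjoin k (Set.range b), ∃ Q : MvPolynomial σ k, aeval b Q = (c : E) := by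
    rintro ⟨c, hc⟩
    rw [Algebra.adjoin_range_eq_range_aeval] at hc
    exact hc
  choose Q hQ using h1
  refine ⟨p.natDegree, fun m => Q (p.coeff m), ⟨Fin.last _, fun h0 => hp ?_⟩, ?_⟩
  · rw [hQ, Fin.val_last] at h0
    have h2 : p.leadingCoeff = 0 := Subtype.ext h0
    exact Polynomial.leadingCoeff_eq_zero.1 h2
  · rw [Polynomial.aeval_eq_sum_range, Finset.sum_range] at hpz
    rw [← hpz]
    refine Finset.sum_congr rfl fun m _ => ?_
    rw [hQ, Algebra.smul_def]
    rfl

/-- the point is algebraic over the quotients in few classes -/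
theorem Sep.isAlgebraic {k : Type x} [Field k] {N m q ν : ℕ}
    {g : Fin m → MvPolynomial (Fin (N + 1)) k} {P : Fin q → MvPolynomial (Fin (N + 1)) k}
    (h : Sep g P (ν + 1)) {E : Type x} [Field E] [IsAlgClosed E] [Algebra k E]
    {y : Fin (N + 1) → E} (hy : ∀ i, aeval y (g i) = 0) {l₀ : Fin (N + 1)} (hl₀ : y l₀ = 1)
    {r : Fin q → Fin q} {b : Fin q → E} {I : Finset (Fin q)} (hI : I.card ≤ ν)
    (hr : ∀ j, aeval y (P j) ≠ 0 → r j ∈ I)
    (hb : ∀ j, aeval y (P j) ≠ 0 → aeval y (P j) = b j * aeval y (P (r j))) (l : Fin (N + 1)) :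
    IsAlgebraic (Algebra.adjoin k (Set.range b)) (y l) := by
  classical
  by_contra hcon
  let F₀ : IntermediateField k E := IntermediateField.adjoin k (Set.range b)
  let F : IntermediateField F₀ E := algebraicClosure F₀ E
  have hF : IsAlgClosed F := by
    rw [← IsAlgClosed.algebraicClosure_eq_bot_iff (F := F) (E := E)]
    exact algebraicClosure.algebraicClosure_eq_bot _ _
  have hbF : ∀ j, b j ∈ F := by
    intro j
    have h1 : b j ∈ F₀ := IntermediateField.subset_adjoin _ _ ⟨j, rfl⟩
    exact F.algebraMap_mem ⟨b j, h1⟩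
  have hyl : y l ∉ F := by
    intro h1
    apply hcon
    have h2 : IsAlgebraic F₀ (y l) := mem_algebraicClosure_iff.1 h1
    open scoped IntermediateField.algebraAdjoinAdjoin in
    exact (IsFractionRing.isAlgebraic_iff (Algebra.adjoin k (Set.range b))
      (IntermediateField.adjoin k (Set.range b)) E).2 h2
  have hrange : ∀ z : E, z ∈ Set.range (algebraMap F E) ↔ z ∈ F := by
    intro z
    constructor
    · rintro ⟨c, rfl⟩
      exact c.2
    · intro h1
      exact ⟨⟨z, h1⟩, rfl⟩
  have hkFE : IsScalarTower k F E := IsScalarTower.of_algebraMap_eq fun _ => rfl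
  obtain ⟨S, hS, hSP⟩ := h F E y hy ⟨l, l₀, by
    rw [hl₀]
    exact one_ne_zero, by
    rw [hl₀, div_one, hrange]
    exact hyl⟩
  obtain ⟨i, hi, j, hj, hij, hrij⟩ := Finset.exists_ne_map_eq_of_card_lt_of_maps_to
    (s := S) (t := I) (f := r) (by omega) (fun j hj => hr j (hSP j hj).1)
  have hi0 := (hSP i hi).1
  have hj0 := (hSP j hj).1
  refine (hSP i hi).2 j hj hij ?_
  rw [hrange]
  have h1 := hb i hi0
  have h2 := hb j hj0
  have h3 : aeval y (P (r j)) ≠ 0 := by
    intro h0
    rw [h0, mul_zero] at h2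
    exact hj0 h2
  rw [h1, h2, hrij, mul_div_mul_right _ _ h3]
  exact F.div_mem (hbF i) (hbF j)

end Pool.Agent.Lib.MP_44a246_ntFP
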