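import Mathlib
import Pool.Agent.Lib.MP_44a246_ntFP.FP08
import Pool.Agent.Lib.MP_44a246_ntFP.FP21

/-!
The height of a point in terms of the heights of the quotients of the values in few classes.
-/

namespace Pool.Agent.Lib.MP_44a246_ntFP

open Pool.Agent.Lib.MP_44a246_nt
open Pool.Agent.Lib.MP_44a246_ntL
open Pool.Agent.Lib.MP_44a246_ntX
open WithZero MvPolynomial

universe u v w x

/-- the height of a point in terms of the heights of the coordinates -/
theorem height_le_coords {κ L : Type*} [Field κ] [IsAlgClosed κ] [CharZero κ] [Field L]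
    [Algebra κ L] (h : IsFF κ L) {n : ℕ} {x : Fin n → L} {l₀ : Fin n} (hl₀ : x l₀ = 1) :
    height κ x ≤ ∑ l, height κ ![1, x l] := by
  classical
  have hx : x ≠ 0 := by
    intro h0
    rw [h0] at hl₀
    exact zero_ne_one hl₀
  have s1 := h.vmax_support hx
  have s2 : ∀ l, (Function.support fun w : Place κ L => log (vmax w.1 ![1, x l])).Finite :=
    fun l => h.vmax_support (pair_ne_zero _)
  have s3 : (Function.support fun w : Place κ L => ∑ l, log (vmax w.1 ![1, x l])).Finite := by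
    refine ((Finset.univ : Finset (Fin n)).finite_toSet.biUnion fun i _ => s2 i).subset ?_
    intro w hw
    rw [Function.mem_support] at hw
    obtain ⟨i, hi, hi'⟩ := Finset.exists_ne_zero_of_sum_ne_zero hw
    exact Set.mem_biUnion hi hi'
  have hloc : ∀ w : Place κ L, log (vmax w.1 x) ≤ ∑ l, log (vmax w.1 ![1, x l]) := by
    intro w
    obtain ⟨l, hl, hl1, -⟩ := exists_vmax w.1 hx
    have h0 : ∀ l, 0 ≤ log (vmax w.1 ![1, x l]) := by
      intro l
      rw [← log_one (M := ℤ)]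
      refine (log_le_log one_ne_zero (Pool.Agent.Lib.MP_44a246_ntL.vmax_ne_zero w.1
        (pair_ne_zero _))).2 ?_
      rw [Pool.Agent.Lib.MP_44a246_ntL.vmax_pair]
      exact le_max_left _ _
    refine le_trans ?_ (Finset.single_le_sum (f := fun l => log (vmax w.1 ![1, x l]))
      (fun l _ => h0 l) (Finset.mem_univ l))
    rw [hl1]
    refine (log_le_log ((Valuation.ne_zero_iff _).2 hl)
      (Pool.Agent.Lib.MP_44a246_ntL.vmax_ne_zero w.1 (pair_ne_zero _))).2 ?_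
    rw [Pool.Agent.Lib.MP_44a246_ntL.vmax_pair]
    exact le_max_right _ _
  have h1 := finsum_mono s1 s3 hloc
  rw [finsum_sum_comm _ _ (fun i _ => s2 i)] at h1
  exact h1

/-- the equations of the points whose values are in given classes -/
def clsSet {k : Type x} [Field k] {N m q : ℕ} (g : Fin m → MvPolynomial (Fin (N + 1)) k)
    (P : Fin q → MvPolynomial (Fin (N + 1)) k) (Z : Finset (Fin q)) (r : Fin q → Fin q)
    (l₀ : Fin (N + 1)) : Set (MvPolynomial (Fin q ⊕ Fin (N + 1)) k) :=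
  {f | (∃ i, f = rename Sum.inr (g i)) ∨ f = X (Sum.inr l₀) - 1 ∨
    (∃ j ∈ Z, f = rename Sum.inr (P j)) ∨
    ∃ j ∉ Z, f = rename Sum.inr (P j) - X (Sum.inl j) * rename Sum.inr (P (r j))}

/-- the bound for the points in given classes -/
theorem Sep.dom {k : Type x} [Field k] {N m q ν : ℕ}
    {g : Fin m → MvPolynomial (Fin (N + 1)) k} {P : Fin q → MvPolynomial (Fin (N + 1)) k}
    (h : Sep g P (ν + 1)) {I : Finset (Fin q)} (hI : I.card ≤ ν) (Z : Finset (Fin q))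
    {r : Fin q → Fin q} (hr : ∀ j ∉ Z, r j ∈ I) (l₀ l : Fin (N + 1)) :
    DomAt.{u, v, w, x} k (∏ j ∈ Zᶜ, rename (Sum.inr : Fin (N + 1) → Fin q ⊕ Fin (N + 1)) (P j)) l
      (Ideal.span (clsSet g P Z r l₀)) := by
  classical
  refine exists_dom _ _ _ ?_
  intro p hp hIp hgp
  let φ : MvPolynomial (Fin q ⊕ Fin (N + 1)) k →ₐ[k]
      AlgebraicClosure (FractionRing (MvPolynomial (Fin q ⊕ Fin (N + 1)) k ⧸ p)) :=
    (IsScalarTower.toAlgHom k (MvPolynomial (Fin q ⊕ Fin (N + 1)) k ⧸ p)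
      (AlgebraicClosure (FractionRing (MvPolynomial (Fin q ⊕ Fin (N + 1)) k ⧸ p)))).comp
      (Ideal.Quotient.mkₐ k p)
  have hφ : ∀ f, φ f = 0 ↔ f ∈ p := by
    intro f
    have h1 : φ f = algebraMap (MvPolynomial (Fin q ⊕ Fin (N + 1)) k ⧸ p)
        (AlgebraicClosure (FractionRing (MvPolynomial (Fin q ⊕ Fin (N + 1)) k ⧸ p)))
        (Ideal.Quotient.mk p f) := rfl
    rw [h1, ← Ideal.Quotient.eq_zero_iff_mem, IsScalarTower.algebraMap_apply
      (MvPolynomial (Fin q ⊕ Fin (N + 1)) k ⧸ p)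
      (FractionRing (MvPolynomial (Fin q ⊕ Fin (N + 1)) k ⧸ p))]
    rw [map_eq_zero_iff _ (algebraMap (FractionRing (MvPolynomial (Fin q ⊕ Fin (N + 1)) k ⧸ p))
      (AlgebraicClosure _)).injective]
    exact IsFractionRing.to_map_eq_zero_iff
  obtain ⟨b, hb⟩ : ∃ b, b = fun j => φ (X (Sum.inl j)) := ⟨_, rfl⟩
  obtain ⟨y, hy⟩ : ∃ y, y = fun l => φ (X (Sum.inr l)) := ⟨_, rfl⟩
  have hφ' : φ = aeval (Sum.elim b y) := by
    refine algHom_ext fun i => ?_
    rw [aeval_X]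
    rcases i with i | i
    · rw [hb, Sum.elim_inl]
    · rw [hy, Sum.elim_inr]
  have hinr : ∀ f : MvPolynomial (Fin (N + 1)) k, φ (rename Sum.inr f) = aeval y f := by
    intro f
    rw [hφ', aeval_rename]
    rfl
  have hinl : ∀ f : MvPolynomial (Fin q) k, φ (rename Sum.inl f) = aeval b f := by
    intro f
    rw [hφ', aeval_rename]
    rfl
  have hmem : ∀ f ∈ clsSet g P Z r l₀, φ f = 0 := fun f hf =>
    (hφ f).2 (hIp (Ideal.subset_span hf))
  have hyg : ∀ i, aeval y (g i) = 0 := by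
    intro i
    rw [← hinr]
    exact hmem _ (Or.inl ⟨i, rfl⟩)
  have hyl : y l₀ = 1 := by
    have h1 := hmem _ (Or.inr (Or.inl rfl))
    rw [map_sub, map_one, sub_eq_zero] at h1
    rw [hy]
    exact h1
  have hZ : ∀ j, aeval y (P j) ≠ 0 → j ∉ Z := by
    intro j hj hjZ
    apply hj
    rw [← hinr]
    exact hmem _ (Or.inr (Or.inr (Or.inl ⟨j, hjZ, rfl⟩)))
  have hbP : ∀ j, aeval y (P j) ≠ 0 → aeval y (P j) = b j * aeval y (P (r j)) := by
    intro j hj
    have h1 := hmem _ (Or.inr (Or.inr (Or.inr ⟨j, hZ j hj, rfl⟩)))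
    rw [map_sub, map_mul, hinr, hinr, sub_eq_zero] at h1
    rw [h1, hb]
  have halg := h.isAlgebraic hyg hyl hI (fun j hj => hr j (hZ j hj)) hbP l
  obtain ⟨M, Q, ⟨m₀, hm₀⟩, hQ⟩ := exists_rel_alg halg
  refine ⟨M, Q, ⟨m₀, fun h1 => hm₀ ?_⟩, ?_⟩
  · rw [← hinl]
    exact (hφ _).2 h1
  · rw [← hφ, map_sum, ← hQ]
    refine Finset.sum_congr rfl fun m _ => ?_
    rw [map_mul, map_pow, hinl, hy]

/-- **The height of a point in terms of the heights of the quotients in few classes.** -/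
theorem Sep.height_le {k : Type x} [Field k] {N m q ν : ℕ}
    {g : Fin m → MvPolynomial (Fin (N + 1)) k} {P : Fin q → MvPolynomial (Fin (N + 1)) k}
    (h : Sep g P (ν + 1)) : ∃ D : ℕ, ∀ (κ : Type u) (K : Type v) [Field κ] [IsAlgClosed κ]
      [CharZero κ] [Field K] [CharZero K] [Algebra κ K], IsFF κ K → ∀ [Algebra k K],
      ∃ C : ℕ, ∀ (L : Type w) [Field L] [Algebra K L] [FiniteDimensional K L] [Algebra κ L]
        [IsScalarTower κ K L] [Algebra k L] [IsScalarTower k K L] (x : Fin (N + 1) → L)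
        (l₀ : Fin (N + 1)), x l₀ = 1 → (∀ i, aeval x (g i) = 0) →
        ∀ (I : Finset (Fin q)) (r : Fin q → Fin q), I.card ≤ ν →
        (∀ j, aeval x (P j) ≠ 0 → r j ∈ I ∧ aeval x (P (r j)) ≠ 0) →
        ∀ (e : ℕ) (E₁ : ℤ), 0 ≤ E₁ →
        (∀ j, aeval x (P j) ≠ 0 →
          (e : ℤ) * height κ ![aeval x (P (r j)), aeval x (P j)] ≤ E₁) →
        (e : ℤ) * height κ x ≤ D * E₁ + e * (C * Module.finrank K L) := by
  classical
  have hdom : ∀ t : Finset (Fin q) × Finset (Fin q) × (Fin q → Fin q) × Fin (N + 1) ×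
      Fin (N + 1), ∃ D : ℕ, (t.1.card ≤ ν ∧ ∀ j ∉ t.2.1, t.2.2.1 j ∈ t.1) →
      ∀ (κ : Type u) (K : Type v) [Field κ] [IsAlgClosed κ] [CharZero κ] [Field K]
      [CharZero K] [Algebra κ K], IsFF κ K → ∀ [Algebra k K],
      ∃ C : ℕ, ∀ (L : Type w) [Field L] [Algebra K L] [FiniteDimensional K L] [Algebra κ L]
        [IsScalarTower κ K L] [Algebra k L] [IsScalarTower k K L] (b : Fin q → L)
        (y : Fin (N + 1) → L), (∀ f ∈ Ideal.span (clsSet g P t.2.1 t.2.2.1 t.2.2.2.1),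
          aeval (Sum.elim b y : Fin q ⊕ Fin (N + 1) → L) f = 0) →
        aeval (Sum.elim b y : Fin q ⊕ Fin (N + 1) → L)
          (∏ j ∈ t.2.1ᶜ, rename (Sum.inr : Fin (N + 1) → Fin q ⊕ Fin (N + 1)) (P j)) ≠ 0 →
        height κ ![1, y t.2.2.2.2] ≤ D * ∑ j, height κ ![1, b j] + C * Module.finrank K L := by
    intro t
    by_cases ht : t.1.card ≤ ν ∧ ∀ j ∉ t.2.1, t.2.2.1 j ∈ t.1
    · obtain ⟨D, hD⟩ := h.dom (I := t.1) ht.1 t.2.1 (r := t.2.2.1) ht.2 t.2.2.2.1 t.2.2.2.2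
      exact ⟨D, fun _ => hD⟩
    · exact ⟨0, fun h0 => absurd h0 ht⟩
  choose D hD using hdom
  refine ⟨(N + 1) * (∑ t, D t) * q, ?_⟩
  intro κ K _ _ _ _ _ _ hK _
  have hdom' : ∀ t : Finset (Fin q) × Finset (Fin q) × (Fin q → Fin q) × Fin (N + 1) ×
      Fin (N + 1), ∃ C : ℕ, (t.1.card ≤ ν ∧ ∀ j ∉ t.2.1, t.2.2.1 j ∈ t.1) →
      ∀ (L : Type w) [Field L] [Algebra K L] [FiniteDimensional K L] [Algebra κ L]
        [IsScalarTower κ K L] [Algebra k L] [IsScalarTower k K L] (b : Fin q → L)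
        (y : Fin (N + 1) → L), (∀ f ∈ Ideal.span (clsSet g P t.2.1 t.2.2.1 t.2.2.2.1),
          aeval (Sum.elim b y : Fin q ⊕ Fin (N + 1) → L) f = 0) →
        aeval (Sum.elim b y : Fin q ⊕ Fin (N + 1) → L)
          (∏ j ∈ t.2.1ᶜ, rename (Sum.inr : Fin (N + 1) → Fin q ⊕ Fin (N + 1)) (P j)) ≠ 0 →
        height κ ![1, y t.2.2.2.2] ≤ D t * ∑ j, height κ ![1, b j] +
          C * Module.finrank K L := by
    intro t
    by_cases ht : t.1.card ≤ ν ∧ ∀ j ∉ t.2.1, t.2.2.1 j ∈ t.1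
    · obtain ⟨C, hC⟩ := hD t ht κ K hK
      exact ⟨C, fun _ => hC⟩
    · exact ⟨0, fun h0 => absurd h0 ht⟩
  choose C hC using hdom'
  refine ⟨(N + 1) * ∑ t, C t, ?_⟩
  intro L _ _ _ _ _ _ _ x l₀ hl₀ hxg I r hI hr e E₁ hE₁ hclose
  have hL : IsFF κ L := hK.of_finite
  obtain ⟨Z, hZdef⟩ : ∃ Z : Finset (Fin q), Z = Finset.univ.filter fun j => aeval x (P j) = 0 :=
    ⟨_, rfl⟩
  have hmemZ : ∀ j, j ∈ Z ↔ aeval x (P j) = 0 := by
    intro j
    rw [hZdef]
    simp
  obtain ⟨b, hb⟩ : ∃ b : Fin q → L, b = fun j => if aeval x (P j) = 0 then 1 else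
    aeval x (P j) / aeval x (P (r j)) := ⟨_, rfl⟩
  have hinr : ∀ f : MvPolynomial (Fin (N + 1)) k,
      aeval (Sum.elim b x : Fin q ⊕ Fin (N + 1) → L) (rename Sum.inr f) = aeval x f := by
    intro f
    rw [aeval_rename]
    rfl
  have hzero : ∀ f ∈ Ideal.span (clsSet g P Z r l₀),
      aeval (Sum.elim b x : Fin q ⊕ Fin (N + 1) → L) f = 0 := by
    have h1 : Ideal.span (clsSet g P Z r l₀) ≤
        RingHom.ker (aeval (Sum.elim b x : Fin q ⊕ Fin (N + 1) → L) :
          MvPolynomial (Fin q ⊕ Fin (N + 1)) k →ₐ[k] L) := by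
      refine Ideal.span_le.2 ?_
      rintro f (⟨i, rfl⟩ | rfl | ⟨j, hj, rfl⟩ | ⟨j, hj, rfl⟩)
      · exact (hinr _).trans (hxg i)
      · rw [SetLike.mem_coe, RingHom.mem_ker, map_sub, map_one, aeval_X, Sum.elim_inr, hl₀,
          sub_self]
      · exact (hinr _).trans ((hmemZ j).1 hj)
      · have h2 : aeval x (P j) ≠ 0 := fun h0 => hj ((hmemZ j).2 h0)
        rw [SetLike.mem_coe, RingHom.mem_ker, map_sub, map_mul, hinr, hinr, aeval_X,
          Sum.elim_inl, hb]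
        simp only [if_neg h2]
        rw [div_mul_cancel₀ _ (hr j h2).2, sub_self]
    exact h1
  have hprod : aeval (Sum.elim b x : Fin q ⊕ Fin (N + 1) → L)
      (∏ j ∈ Zᶜ, rename (Sum.inr : Fin (N + 1) → Fin q ⊕ Fin (N + 1)) (P j)) ≠ 0 := by
    rw [map_prod, Finset.prod_ne_zero_iff]
    intro j hj
    rw [hinr]
    exact fun h0 => Finset.mem_compl.1 hj ((hmemZ j).2 h0)
  obtain ⟨F, hF⟩ : ∃ F : ℤ, F = ((Module.finrank K L : ℕ) : ℤ) := ⟨_, rfl⟩
  have hF0 : 0 ≤ F := by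
    rw [hF]
    exact Int.natCast_nonneg _
  obtain ⟨B, hB⟩ : ∃ B : ℤ, B = ∑ j, height κ ![1, b j] := ⟨_, rfl⟩
  have hB0 : 0 ≤ B := by
    rw [hB]
    exact Finset.sum_nonneg fun j _ => hL.height_nonneg (pair_ne_zero _)
  have hcoord : ∀ l, height κ ![1, x l] ≤ ((∑ t, D t : ℕ) : ℤ) * B + ((∑ t, C t : ℕ) : ℤ) * F := by
    intro l
    have h1 := hC (I, Z, r, l₀, l) ⟨hI, fun j hj => (hr j fun h0 => hj ((hmemZ j).2 h0)).1⟩ L b x
      hzero hprod
    rw [← hB, ← hF] at h1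
    refine h1.trans (add_le_add (mul_le_mul_of_nonneg_right ?_ hB0)
      (mul_le_mul_of_nonneg_right ?_ hF0))
    · exact_mod_cast Finset.single_le_sum (f := D) (fun _ _ => Nat.zero_le _)
        (Finset.mem_univ (I, Z, r, l₀, l))
    · exact_mod_cast Finset.single_le_sum (f := C) (fun _ _ => Nat.zero_le _)
        (Finset.mem_univ (I, Z, r, l₀, l))
  have hx := (height_le_coords hL hl₀).trans (Finset.sum_le_sum fun l _ => hcoord l)
  rw [Finset.sum_const, Finset.card_univ, Fintype.card_fin, nsmul_eq_mul] at hx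
  have hBe : (e : ℤ) * B ≤ q * E₁ := by
    rw [hB, Finset.mul_sum]
    have h1 : ∀ j ∈ Finset.univ, (e : ℤ) * height κ ![1, b j] ≤ E₁ := by
      intro j _
      by_cases h2 : aeval x (P j) = 0
      · have h3 : b j = 1 := by
          rw [hb]
          simp only [if_pos h2]
        rw [h3, height_pair_self hL one_ne_zero, mul_zero]
        exact hE₁
      · have h3 : b j = aeval x (P j) / aeval x (P (r j)) := by
          rw [hb]
          simp only [if_neg h2]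
        have h4 := (hr j h2).2
        have h5 : (![aeval x (P (r j)), aeval x (P j)] : Fin 2 → L) =
            fun i => aeval x (P (r j)) * (![1, b j] : Fin 2 → L) i := by
          funext i
          fin_cases i
          · simp
          · simp [h3, mul_div_cancel₀ _ h4]
        have h6 : height κ ![aeval x (P (r j)), aeval x (P j)] = height κ ![1, b j] := by
          rw [h5]
          exact hL.height_smul h4
        rw [← h6]
        exact hclose j h2
    refine (Finset.sum_le_sum h1).trans (le_of_eq ?_)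
    rw [Finset.sum_const, Finset.card_univ, Fintype.card_fin, nsmul_eq_mul]
  rw [← hF]
  have he : (0 : ℤ) ≤ e := Int.natCast_nonneg _
  calc (e : ℤ) * height κ x ≤ e * (((N + 1 : ℕ) : ℤ) * (((∑ t, D t : ℕ) : ℤ) * B +
        ((∑ t, C t : ℕ) : ℤ) * F)) := mul_le_mul_of_nonneg_left hx he
    _ = ((N + 1 : ℕ) : ℤ) * ((∑ t, D t : ℕ) : ℤ) * (e * B) +
        e * (((N + 1 : ℕ) : ℤ) * ((∑ t, C t : ℕ) : ℤ) * F) := by ring
    _ ≤ ((N + 1 : ℕ) : ℤ) * ((∑ t, D t : ℕ) : ℤ) * (q * E₁) +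
        e * (((N + 1 : ℕ) : ℤ) * ((∑ t, C t : ℕ) : ℤ) * F) := by
        refine add_le_add (mul_le_mul_of_nonneg_left hBe (by positivity)) le_rfl
    _ = _ := by
        push_cast
        ring

end Pool.Agent.Lib.MP_44a246_ntFP
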