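import Mathlib
import Pool.Agent.Lib.MP_44a246_ntML.ML01
import Pool.Agent.Lib.MP_44a246_ntFP.FP06

/-!
A relation between the derivatives of a point and of one more element, with coefficients of
bounded height.
-/

namespace Pool.Agent.Lib.MP_44a246_ntFP

open Pool.Agent.Lib.MP_44a246_nt
open Pool.Agent.Lib.MP_44a246_ntL
open Pool.Agent.Lib.MP_44a246_ntX
open Pool.Agent.Lib.MP_44a246_ntMS
open Pool.Agent.Lib.MP_44a246_ntML (border_log)
open WithZero

/-- a relation between the rows of a matrix, with minors as coefficients -/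
theorem exists_minors {L : Type*} [Field L] {m : ℕ} {ι : Type*} (W : Fin (m + 1) → ι → L)
    (hW : ∀ (R : Fin (m + 1) → Fin (m + 1)) (col : Fin (m + 1) → ι),
      (Matrix.of fun b b' => W (R b) (col b')).det = 0) :
    ∃ (r : ℕ) (col : Fin r → ι) (R₀ : Fin r → Fin (m + 1)) (M : Fin (m + 1) → L), r ≤ m ∧
      (Matrix.of fun b b' => W (R₀ b) (col b')).det ≠ 0 ∧ M ≠ 0 ∧
      (∀ i, ∑ l, M l * W l i = 0) ∧ ∀ (v : Valuation L ℤᵐ⁰) (β : ℤᵐ⁰),
        (∀ R : Fin r → Fin (m + 1), v (Matrix.of fun b b' => W (R b) (col b')).det ≤ β) →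
        ∀ l, v (M l) ≤ β := by
  classical
  obtain ⟨P, hP⟩ : ∃ P : ℕ → Prop, P = fun r => ∃ (R : Fin r → Fin (m + 1))
    (col : Fin r → ι), Function.Injective R ∧
      (Matrix.of fun b b' => W (R b) (col b')).det ≠ 0 := ⟨_, rfl⟩
  have hP0 : P 0 := by
    rw [hP]
    refine ⟨Fin.elim0, Fin.elim0, fun i => i.elim0, ?_⟩
    rw [Matrix.det_fin_zero]
    exact one_ne_zero
  have hPn : ¬ P (m + 1) := by
    rw [hP]
    rintro ⟨R, col, -, hdet⟩
    exact hdet (hW R col)
  obtain ⟨r, hr, hPr, hPr'⟩ : ∃ r ≤ m, P r ∧ ¬ P (r + 1) := by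
    by_contra hcon
    push Not at hcon
    have h1 : ∀ r ≤ m + 1, P r := by
      intro r
      induction r with
      | zero => exact fun _ => hP0
      | succ r ih => exact fun h2 => hcon r (by omega) (ih (by omega))
    exact hPn (h1 _ le_rfl)
  rw [hP] at hPr hPr'
  obtain ⟨R, col, hR, hdet⟩ := hPr
  obtain ⟨l₀, hl₀⟩ : ∃ l₀, l₀ ∉ Set.range R := by
    by_contra hcon
    push Not at hcon
    have h1 := Fintype.card_le_of_surjective R hcon
    rw [Fintype.card_fin, Fintype.card_fin] at h1
    omega
  obtain ⟨R', hR'⟩ : ∃ R' : Fin (r + 1) → Fin (m + 1), R' = Fin.cons l₀ R := ⟨_, rfl⟩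
  have hR'i : Function.Injective R' := by
    rw [hR', Fin.cons_injective_iff]
    exact ⟨hl₀, hR⟩
  obtain ⟨mm, hmm⟩ : ∃ mm : Fin (r + 1) → L, mm = fun a : Fin (r + 1) => (-1) ^ (a : ℕ) *
    (Matrix.of fun b b' => W (R' (a.succAbove b)) (col b')).det := ⟨_, rfl⟩
  have hrel : ∀ i, ∑ a, mm a * W (R' a) i = 0 := by
    intro i
    have h1 : (Matrix.of fun a b => W (R' a) ((Fin.cons i col : Fin (r + 1) → ι) b)).det =
        0 := by
      by_contra h2
      exact hPr' ⟨R', Fin.cons i col, hR'i, h2⟩
    rw [Matrix.det_succ_column_zero] at h1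
    rw [← h1]
    refine Finset.sum_congr rfl fun a _ => ?_
    rw [hmm, Matrix.of_apply, Fin.cons_zero]
    have h2 : (Matrix.of fun a b => W (R' a) ((Fin.cons i col :
        Fin (r + 1) → ι) b)).submatrix a.succAbove Fin.succ =
        Matrix.of fun b b' => W (R' (a.succAbove b)) (col b') := by
      ext b b'
      rw [Matrix.submatrix_apply, Matrix.of_apply, Fin.cons_succ]
      rfl
    rw [h2]
    ring
  obtain ⟨M, hM⟩ : ∃ M : Fin (m + 1) → L, M = fun l => ∑ a, if R' a = l then mm a else 0 :=
    ⟨_, rfl⟩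
  have hMa : ∀ a, M (R' a) = mm a := by
    intro a
    rw [hM]
    show ∑ a', (if R' a' = R' a then mm a' else 0) = mm a
    rw [Finset.sum_eq_single a]
    · rw [if_pos rfl]
    · intro a' _ ha'
      rw [if_neg]
      exact fun h1 => ha' (hR'i h1)
    · intro h1
      exact absurd (Finset.mem_univ _) h1
  have hMn : ∀ l, l ∉ Set.range R' → M l = 0 := by
    intro l hl
    rw [hM]
    refine Finset.sum_eq_zero fun a _ => ?_
    rw [if_neg]
    exact fun h1 => hl ⟨a, h1⟩
  refine ⟨r, col, R, M, hr, hdet, ?_, ?_, ?_⟩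
  · intro h0
    have h1 := hMa 0
    rw [h0, hmm] at h1
    simp only [Pi.zero_apply, Fin.val_zero, pow_zero, one_mul] at h1
    apply hdet
    rw [h1]
    congr 1
    ext b b'
    rw [Matrix.of_apply, Matrix.of_apply, hR', Fin.zero_succAbove, Fin.cons_succ]
  · intro i
    rw [← hrel i]
    have h1 : ∀ l, M l * W l i = ∑ a, if R' a = l then mm a * W (R' a) i else 0 := by
      intro l
      rw [hM]
      show (∑ a, if R' a = l then mm a else 0) * W l i = _
      rw [Finset.sum_mul]
      refine Finset.sum_congr rfl fun a _ => ?_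
      split_ifs with h2
      · rw [h2]
      · rw [zero_mul]
    rw [Finset.sum_congr rfl fun l _ => h1 l, Finset.sum_comm]
    refine Finset.sum_congr rfl fun a _ => ?_
    rw [Finset.sum_ite_eq, if_pos (Finset.mem_univ _)]
  · intro v β hv l
    by_cases hl : l ∈ Set.range R'
    · obtain ⟨a, rfl⟩ := hl
      rw [hMa, hmm]
      show v ((-1) ^ (a : ℕ) * _) ≤ _
      rw [map_mul, map_pow, Valuation.map_neg, map_one, one_pow, one_mul]
      exact hv fun b => R' (a.succAbove b)
    · rw [hMn l hl, map_zero]
      exact zero_le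

variable {κ L : Type*} [Field κ] [Field L] [Algebra κ L]

/-- the rows: the derivatives of the coordinates and the logarithmic derivative -/
noncomputable def rowL (D : Derivation ℤ L L) {N : ℕ} (x : Fin N → L) (u : L) : Option (Fin N) → L
  | some i => D (x i)
  | none => D u / u

/-- the minors with a logarithmic column -/
theorem minor_boundL {ι : Type*} {E : ι → Derivation ℤ L L} {δ ρ : Place κ L → ℕ}
    (hE : MinorBound κ E Set.univ δ ρ) {N : ℕ} {x : Fin N → L} {j₀ : Fin N} (hx : x j₀ = 1)
    {u : L} (hu : u ≠ 0) (d : ℕ) (w : Place κ L) {η : ℕ} (hη : w.1 u ≠ vmax w.1 x ^ d → 1 ≤ η)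
    {r : ℕ} (R : Fin r → ι) {b₀ : Fin r} {col : Fin r → Option (Fin N)} (hb₀ : col b₀ = none)
    {c : Fin r → Fin N} (hc : ∀ b, b ≠ b₀ → col b = some (c b)) :
    w.1 (Matrix.of fun b b' => rowL (E (R b)) x u (col b')).det ≤
      vmax w.1 x ^ r * exp ((r * δ w + ρ w + η : ℕ) : ℤ) := by
  classical
  have hx0 : x ≠ 0 := by
    intro h0
    rw [h0] at hx
    exact zero_ne_one hx
  obtain ⟨l, hl, hlmax, hlk⟩ := exists_vmax w.1 hx0
  have hwl : w.1 (x l) ≠ 0 := (Valuation.ne_zero_iff _).2 hl
  obtain ⟨xh, hxh⟩ : ∃ xh : Fin N → L, xh = fun i => x i / x l := ⟨_, rfl⟩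
  have hxxh : ∀ i, x i = x l * xh i := by
    intro i
    rw [hxh]
    show x i = x l * (x i / x l)
    rw [mul_div_cancel₀ _ hl]
  have hxh1 : ∀ i, w.1 (xh i) ≤ 1 := by
    intro i
    rw [hxh]
    show w.1 (x i / x l) ≤ 1
    rw [map_div₀]
    exact div_le_one_of_le₀ (hlk i) zero_le
  obtain ⟨uh, huh⟩ : ∃ uh : L, uh = u / x l ^ d := ⟨_, rfl⟩
  have huh0 : uh ≠ 0 := by
    rw [huh]
    exact div_ne_zero hu (pow_ne_zero _ hl)
  have hlog : ∀ D : Derivation ℤ L L, D u / u = D uh / uh + d * (D (x l) / x l) := by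
    intro D
    have h1 : u = uh * x l ^ d := by
      rw [huh, div_mul_cancel₀ _ (pow_ne_zero _ hl)]
    have h2 : D u = uh * (d * x l ^ (d - 1) * D (x l)) + x l ^ d * D uh := by
      rw [h1, Derivation.leibniz, Derivation.leibniz_pow, smul_eq_mul, smul_eq_mul, nsmul_eq_mul,
        smul_eq_mul]
      ring
    rw [h2]
    rcases Nat.eq_zero_or_pos d with h3 | h3
    · rw [h1]
      simp [h3]
    · obtain ⟨d', rfl⟩ : ∃ d', d = d' + 1 := ⟨d - 1, by omega⟩
      rw [h1, Nat.add_sub_cancel]
      field_simp
      ring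
  -- the first row and the elements
  obtain ⟨e, he⟩ : ∃ e : Fin 1 ⊕ Fin r → L, e = Sum.elim (fun _ => xh j₀)
    (fun b => if b = b₀ then (d : L) else xh (c b)) := ⟨_, rfl⟩
  obtain ⟨cc, hcc⟩ : ∃ cc : Fin 1 ⊕ Fin r → L, cc = Sum.elim (fun _ => xh j₀)
    (fun b => if b = b₀ then uh else xh (c b)) := ⟨_, rfl⟩
  obtain ⟨sc, hsc⟩ : ∃ sc : Fin 1 ⊕ Fin r → L, sc = Sum.elim (fun _ => x l)
    (fun b => if b = b₀ then 1 else x l) := ⟨_, rfl⟩
  have hnat : ∀ k : ℕ, w.1 (k : L) ≤ 1 := by
    intro k
    induction k with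
    | zero => rw [Nat.cast_zero, map_zero]; exact zero_le
    | succ k ih =>
      rw [Nat.cast_succ]
      exact (Valuation.map_add _ _ _).trans (max_le ih (by rw [map_one]))
  have hbord := border_log hE w R e cc (by
      intro b
      rw [he]
      rcases b with b | b
      · exact hxh1 _
      · show w.1 (if b = b₀ then (d : L) else xh (c b)) ≤ 1
        split_ifs
        · exact hnat d
        · exact hxh1 _) (Sum.inr b₀) (by
      intro b hb
      rw [hcc]
      rcases b with b | b
      · exact hxh1 _
      · show w.1 (if b = b₀ then uh else xh (c b)) ≤ 1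
        rw [if_neg (fun h => hb (by rw [h]))]
        exact hxh1 _) (by
      rw [hcc]
      show (if b₀ = b₀ then uh else xh (c b₀)) ≠ 0
      rw [if_pos rfl]
      exact huh0) (n := η) (by
      rw [hcc]
      show w.1 (if b₀ = b₀ then uh else xh (c b₀)) ≠ 1 → 1 ≤ η
      rw [if_pos rfl]
      intro h1
      refine hη fun h2 => h1 ?_
      rw [huh, map_div₀, map_pow, h2, hlmax, div_self (pow_ne_zero _ hwl)])
  -- the matrix of the point
  have h1 : (Matrix.of (Sum.elim (fun _ : Fin 1 => fun b : Fin 1 ⊕ Fin r =>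
      Sum.elim (fun _ => x j₀) (fun b => if b = b₀ then (d : L) else x (c b)) b)
      (fun q b => Sum.elim (fun _ => E (R q) (x j₀)) (fun b => rowL (E (R q)) x u (col b)) b))).det =
      (Matrix.of fun b b' => rowL (E (R b)) x u (col b')).det := by
    have h2 : (Matrix.of (Sum.elim (fun _ : Fin 1 => fun b : Fin 1 ⊕ Fin r =>
        Sum.elim (fun _ => x j₀) (fun b => if b = b₀ then (d : L) else x (c b)) b)
        (fun q b => Sum.elim (fun _ => E (R q) (x j₀))
          (fun b => rowL (E (R q)) x u (col b)) b))) =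
        Matrix.fromBlocks (1 : Matrix (Fin 1) (Fin 1) L)
          (Matrix.of fun _ b => if b = b₀ then (d : L) else x (c b)) 0
          (Matrix.of fun b b' => rowL (E (R b)) x u (col b')) := by
      ext i j
      rcases i with i | i <;> rcases j with j | j
      · show x j₀ = (1 : Matrix (Fin 1) (Fin 1) L) i j
        rw [hx, Subsingleton.elim i j, Matrix.one_apply_eq]
      · rfl
      · show E (R i) (x j₀) = 0
        rw [hx, Derivation.map_one_eq_zero]
      · rfl
    rw [h2, Matrix.det_fromBlocks_zero₂₁, Matrix.det_one, one_mul]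
  have h3 : (Matrix.of (Sum.elim (fun _ : Fin 1 => fun b : Fin 1 ⊕ Fin r =>
      Sum.elim (fun _ => x j₀) (fun b => if b = b₀ then (d : L) else x (c b)) b)
      (fun q b => Sum.elim (fun _ => E (R q) (x j₀)) (fun b => rowL (E (R q)) x u (col b)) b))).det =
      (∏ b, sc b) * (Matrix.of (Sum.elim (fun _ : Fin 1 => e)
        (fun q b => if b = Sum.inr b₀ then E (R q) (cc b) / cc b else E (R q) (cc b)))).det := by
    have h4 : (Matrix.of (Sum.elim (fun _ : Fin 1 => fun b : Fin 1 ⊕ Fin r =>
        Sum.elim (fun _ => x j₀) (fun b => if b = b₀ then (d : L) else x (c b)) b)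
        (fun q b => Sum.elim (fun _ => E (R q) (x j₀))
          (fun b => rowL (E (R q)) x u (col b)) b))) =
        Matrix.fromBlocks (1 : Matrix (Fin 1) (Fin 1) L) 0
          (Matrix.of fun q _ => E (R q) (x l) / x l) (1 : Matrix (Fin r) (Fin r) L) *
        (Matrix.of (Sum.elim (fun _ : Fin 1 => e)
          (fun q b => if b = Sum.inr b₀ then E (R q) (cc b) / cc b else E (R q) (cc b))) *
        Matrix.diagonal sc) := by
      ext i j
      rw [Matrix.mul_apply, Fintype.sum_sum_type]
      simp only [Matrix.mul_diagonal]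
      rcases i with i | i
      · simp only [Matrix.fromBlocks_apply₁₁, Matrix.fromBlocks_apply₁₂, Matrix.zero_apply,
          zero_mul, Finset.sum_const_zero, add_zero, Matrix.of_apply, Sum.elim_inl]
        rw [Fin.sum_univ_one, Subsingleton.elim i 0, Matrix.one_apply_eq, one_mul, he, hsc]
        rcases j with j | j
        · show x j₀ = xh j₀ * x l
          rw [mul_comm]
          exact hxxh _
        · show (if j = b₀ then (d : L) else x (c j)) = (if j = b₀ then (d : L) else xh (c j)) *
            (if j = b₀ then 1 else x l)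
          split_ifs
          · rw [mul_one]
          · rw [mul_comm]
            exact hxxh _
      · simp only [Matrix.fromBlocks_apply₂₁, Matrix.fromBlocks_apply₂₂, Matrix.of_apply,
          Sum.elim_inl, Sum.elim_inr]
        rw [Fin.sum_univ_one, Finset.sum_eq_single i]
        · rw [Matrix.one_apply_eq, one_mul, he, hsc, hcc]
          have h5 : ∀ z, E (R i) (x z) = E (R i) (x l) / x l * (xh z * x l) +
              E (R i) (xh z) * x l := by
            intro z
            conv_lhs => rw [hxxh z, Derivation.leibniz, smul_eq_mul, smul_eq_mul]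
            field_simp
            ring
          rcases j with j | j
          · show E (R i) (x j₀) = E (R i) (x l) / x l * (xh j₀ * x l) +
              (if (Sum.inl j : Fin 1 ⊕ Fin r) = Sum.inr b₀ then E (R i) (xh j₀) / xh j₀
                else E (R i) (xh j₀)) * x l
            rw [if_neg (by simp)]
            exact h5 _
          · by_cases hj : j = b₀
            · subst hj
              show rowL (E (R i)) x u (col j) = E (R i) (x l) / x l *
                ((if j = j then (d : L) else xh (c j)) * (if j = j then 1 else x l)) +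
                (if (Sum.inr j : Fin 1 ⊕ Fin r) = Sum.inr j then
                  E (R i) (if j = j then uh else xh (c j)) / (if j = j then uh else xh (c j))
                  else E (R i) (if j = j then uh else xh (c j))) * (if j = j then 1 else x l)
              rw [if_pos rfl, if_pos rfl, if_pos rfl, if_pos rfl, hb₀]
              show E (R i) u / u = _
              rw [hlog]
              ring
            · show rowL (E (R i)) x u (col j) = E (R i) (x l) / x l *
                ((if j = b₀ then (d : L) else xh (c j)) * (if j = b₀ then 1 else x l)) +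
                (if (Sum.inr j : Fin 1 ⊕ Fin r) = Sum.inr b₀ then
                  E (R i) (if j = b₀ then uh else xh (c j)) / (if j = b₀ then uh else xh (c j))
                  else E (R i) (if j = b₀ then uh else xh (c j))) * (if j = b₀ then 1 else x l)
              rw [if_neg hj, if_neg hj, if_neg hj, if_neg (fun h => hj (Sum.inr_injective h)),
                hc j hj]
              exact h5 _
        · intro b _ hb
          rw [Matrix.one_apply_ne hb.symm, zero_mul]
        · intro h5
          exact absurd (Finset.mem_univ _) h5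
    rw [h4, Matrix.det_mul, Matrix.det_fromBlocks_zero₁₂, Matrix.det_mul, Matrix.det_diagonal,
      Matrix.det_one, Matrix.det_one]
    ring
  have h6 : ∏ b, sc b = x l ^ r := by
    rw [hsc, Fintype.prod_sum_type, Fin.prod_univ_one]
    show x l * ∏ b, (if b = b₀ then 1 else x l) = x l ^ r
    rw [Finset.prod_ite, Finset.prod_const_one, one_mul, Finset.prod_const]
    have h7 : (Finset.univ.filter fun b : Fin r => ¬ b = b₀).card = r - 1 := by
      rw [Finset.filter_ne', Finset.card_erase_of_mem (Finset.mem_univ _), Finset.card_univ,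
        Fintype.card_fin]
    rw [h7, ← pow_succ']
    congr 1
    have h8 := b₀.2
    omega
  rw [← h1, h3, h6, map_mul, map_pow, ← hlmax]
  exact mul_le_mul' le_rfl hbord

/-- the rank of the derivatives -/
theorem det_zero_of_span {L : Type*} [Field L] {r : ℕ} {τ : Type*} [Fintype τ]
    (hr : Fintype.card τ < r) (A : Matrix (Fin r) (Fin r) L) (B : Fin r → τ → L)
    (C : Fin r → τ → L) (hA : ∀ b b', A b b' = ∑ t, C b' t * B b t) : A.det = 0 := by
  classical
  have h1 : ¬ LinearIndependent L B := by
    intro h2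
    have h3 := h2.fintype_card_le_finrank
    rw [Fintype.card_fin, Module.finrank_fintype_fun_eq_card] at h3
    omega
  rw [Fintype.linearIndependent_iff] at h1
  push Not at h1
  obtain ⟨g, hg, i, hi⟩ := h1
  refine Matrix.exists_vecMul_eq_zero_iff.1 ⟨g, fun h0 => hi (congrFun h0 i), ?_⟩
  funext b'
  show ∑ b, g b * A b b' = 0
  have h2 : ∀ t, ∑ b, g b * B b t = 0 := by
    intro t
    have h3 := congrFun hg t
    rw [Finset.sum_apply] at h3
    exact h3
  rw [Finset.sum_congr rfl fun b _ => by rw [hA, Finset.mul_sum]]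
  rw [Finset.sum_comm]
  refine Finset.sum_eq_zero fun t _ => ?_
  rw [Finset.sum_congr rfl fun b _ => (by ring :
    g b * (C b' t * B b t) = C b' t * (g b * B b t)), ← Finset.mul_sum, h2, mul_zero]

/-- **The relation between the derivatives of a point and of one more element.** -/
theorem exists_relL {n d : ℕ} {E : Fin (n + 2) → Derivation ℤ L L} {δ ρ : Place κ L → ℕ}
    (hE : MinorBound κ E Set.univ δ ρ) {N : ℕ} {x : Fin N → L} {j₀ : Fin N} (hx : x j₀ = 1)
    {u : L} (hu : u ≠ 0) {η : Place κ L → ℕ}
    (hη : ∀ w : Place κ L, w.1 u ≠ vmax w.1 x ^ d → 1 ≤ η w) {q : ℕ} (hq : q ≤ n)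
    (c : Fin N → Fin q → L) (jj : Fin q → Fin N)
    (hc : ∀ l i, E l (x i) = ∑ t, c i t * E l (x (jj t))) :
    ∃ M : Fin (n + 2) → L, M ≠ 0 ∧ (∀ i, ∑ l, M l * E l (x i) = 0) ∧
      (∑ l, M l * E l u = 0) ∧ ∀ l (w : Place κ L), w.1 (M l) ≤
        vmax w.1 x ^ (n + 1) * exp (((n + 1) * δ w + ρ w + η w : ℕ) : ℤ) := by
  classical
  obtain ⟨W, hWdef⟩ : ∃ W : Fin (n + 2) → Option (Fin N) → L, W = fun l => rowL (E l) x u :=
    ⟨_, rfl⟩
  have hWs : ∀ l i, W l (some i) = E l (x i) := fun l i => by rw [hWdef]; rfl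
  have hWn : ∀ l, W l none = E l u / u := fun l => by rw [hWdef]; rfl
  obtain ⟨r, col, R₀, M, hr, hdet, hM0, hMrel, hMle⟩ := exists_minors (m := n + 1) W (by
    intro R col
    refine det_zero_of_span (τ := Option (Fin q)) (by
      rw [Fintype.card_option, Fintype.card_fin]
      omega) _ (fun b t => Option.elim t (E (R b) u / u) fun t => E (R b) (x (jj t)))
      (fun b' t => Option.elim (col b') (Option.elim t 1 fun _ => 0)
        fun i => Option.elim t 0 fun t => c i t) fun b b' => ?_
    rw [Fintype.sum_option, Matrix.of_apply]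
    rcases hcb : col b' with _ | i
    · simp only [Option.elim_none, Option.elim_some, one_mul, zero_mul, Finset.sum_const_zero,
        add_zero]
      exact hWn _
    · simp only [Option.elim_none, Option.elim_some, zero_mul, zero_add]
      rw [hWs]
      exact hc _ _)
  refine ⟨M, hM0, fun i => ?_, ?_, fun l w => ?_⟩
  · have h1 := hMrel (some i)
    simp only [hWs] at h1
    exact h1
  · have h1 := hMrel none
    simp only [hWn] at h1
    have h2 : (∑ l, M l * E l u) * u⁻¹ = 0 := by
      rw [← h1, Finset.sum_mul]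
      refine Finset.sum_congr rfl fun l _ => ?_
      rw [div_eq_mul_inv]
      ring
    exact (mul_eq_zero.1 h2).resolve_right (inv_ne_zero hu)
  · have hvm : 1 ≤ vmax w.1 x := by
      have h2 := le_vmax w.1 x j₀
      rwa [hx, map_one] at h2
    refine hMle w.1 _ (fun R => ?_) l
    by_cases hnone : ∃ b₀, col b₀ = none
    · obtain ⟨b₀, hb₀⟩ := hnone
      have hsome : ∀ b, b ≠ b₀ → ∃ i, col b = some i := by
        intro b hb
        rcases hcb : col b with _ | i
        · exfalso
          apply hdet
          refine Matrix.det_zero_of_column_eq hb fun b' => ?_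
          rw [Matrix.of_apply, Matrix.of_apply, hcb, hb₀]
        · exact ⟨i, rfl⟩
      obtain ⟨c', hc'⟩ : ∃ c' : Fin r → Fin N, ∀ b, b ≠ b₀ → col b = some (c' b) := by
        have h3 : ∀ b, ∃ i, b ≠ b₀ → col b = some i := by
          intro b
          by_cases hb : b = b₀
          · exact ⟨j₀, fun h4 => absurd hb h4⟩
          · obtain ⟨i, hi⟩ := hsome b hb
            exact ⟨i, fun _ => hi⟩
        choose c' hc' using h3
        exact ⟨c', hc'⟩
      have h1 := minor_boundL hE hx hu d w (hη w) R hb₀ hc'
      rw [hWdef]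
      refine h1.trans (mul_le_mul' (pow_le_pow_right₀ hvm hr) ?_)
      rw [exp_le_exp]
      have h2 : r * δ w + ρ w + η w ≤ (n + 1) * δ w + ρ w + η w :=
        Nat.add_le_add_right (Nat.add_le_add_right (Nat.mul_le_mul_right _ hr) _) _
      exact_mod_cast h2
    · push Not at hnone
      have hsome : ∀ b, ∃ i, col b = some i := by
        intro b
        rcases hcb : col b with _ | i
        · exact absurd hcb (hnone b)
        · exact ⟨i, rfl⟩
      choose c' hc' using hsome
      have hrn : r ≤ n := by
        by_contra hcon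
        apply hdet
        refine det_zero_of_span (τ := Fin q) (by
          rw [Fintype.card_fin]
          omega) _ (fun b t => E (R₀ b) (x (jj t))) (fun b' t => c (c' b') t) fun b b' => ?_
        rw [Matrix.of_apply, hc' b', hWs]
        exact hc _ _
      have h1 := minor_bound hE hx w R c'
      have h2 : (Matrix.of fun b b' => W (R b) (col b')) =
          Matrix.of fun b b' => E (R b) (x (c' b')) := by
        ext b b'
        rw [Matrix.of_apply, Matrix.of_apply, hc' b', hWs]
      rw [h2]
      refine h1.trans (mul_le_mul' (pow_le_pow_right₀ hvm (by omega)) ?_)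
      rw [exp_le_exp]
      have h3 : r * δ w + ρ w ≤ (n + 1) * δ w + ρ w + η w := by
        have h4 := Nat.mul_le_mul_right (δ w) hr
        omega
      exact_mod_cast h3

end Pool.Agent.Lib.MP_44a246_ntFP
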