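import Mathlib
import Pool.Agent.Lib.MP_e52354_ntMR.MR09
import Pool.Agent.Lib.MP_44a246_ntFP.FP22

/-!
Close pairs and forms which are not proportional on curves: the height of a point.
-/

namespace Pool.Agent.Lib.MP_44a246_ntFP

open Pool.Agent.Lib.MP_44a246_nt
open Pool.Agent.Lib.MP_44a246_ntL
open Pool.Agent.Lib.MP_44a246_ntX
open Pool.Agent.Lib.MP_e52354_ntMR
open WithZero MvPolynomial

universe u v w x

/-- few classes -/
theorem exists_classes {α : Type*} [Fintype α] [DecidableEq α] (J : Finset α) (R : α → α → Prop)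
    (hs : ∀ i j, R i j → R j i) (hr : ∀ i ∈ J, R i i) {ν : ℕ}
    (h : ∀ S : Finset α, S ⊆ J → S.card = ν + 1 → ∃ i ∈ S, ∃ j ∈ S, i ≠ j ∧ R i j) :
    ∃ (I : Finset α) (r : α → α), I.card ≤ ν ∧ I ⊆ J ∧ ∀ j ∈ J, r j ∈ I ∧ R (r j) j := by
  classical
  obtain ⟨T, hT⟩ : ∃ T : Finset (Finset α), T = J.powerset.filter fun I =>
      ∀ i ∈ I, ∀ j ∈ I, i ≠ j → ¬ R i j := ⟨_, rfl⟩
  have hmem : ∀ I, I ∈ T ↔ I ⊆ J ∧ ∀ i ∈ I, ∀ j ∈ I, i ≠ j → ¬ R i j := by
    intro I
    rw [hT, Finset.mem_filter, Finset.mem_powerset]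
  have h0 : T.Nonempty := ⟨∅, (hmem _).2 ⟨Finset.empty_subset _, fun i hi => by simp at hi⟩⟩
  obtain ⟨I, hI, hmax⟩ := T.exists_max_image (fun I => I.card) h0
  obtain ⟨hIJ, hIR⟩ := (hmem I).1 hI
  have hcard : I.card ≤ ν := by
    by_contra hcon
    obtain ⟨S, hS, hSc⟩ := Finset.exists_subset_card_eq (by omega : ν + 1 ≤ I.card)
    obtain ⟨i, hi, j, hj, hij, hR⟩ := h S (hS.trans hIJ) hSc
    exact hIR i (hS hi) j (hS hj) hij hR
  have hex : ∀ j, ∃ i, j ∈ J → i ∈ I ∧ R i j := by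
    intro j
    by_cases hj : j ∈ J
    · by_cases hjI : j ∈ I
      · exact ⟨j, fun _ => ⟨hjI, hr j hj⟩⟩
      · by_contra hcon
        push Not at hcon
        have h1 : insert j I ∈ T := by
          rw [hmem]
          refine ⟨Finset.insert_subset hj hIJ, ?_⟩
          intro a ha b hb hab
          rw [Finset.mem_insert] at ha hb
          rcases ha with rfl | ha
          · rcases hb with rfl | hb
            · exact absurd rfl hab
            · exact fun hR => (hcon b).2 hb (hs _ _ hR)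
          · rcases hb with rfl | hb
            · exact (hcon a).2 ha
            · exact hIR a ha b hb hab
        have h2 := hmax _ h1
        simp only [Finset.card_insert_of_notMem hjI] at h2
        omega
    · exact ⟨j, fun h => absurd h hj⟩
  choose r hr' using hex
  exact ⟨I, r, hcard, hIJ, hr'⟩

/-- **Close pairs and forms which are not proportional on curves.** -/
theorem Sep.height_of_close {k : Type x} [Field k] {N m q ν dP : ℕ}
    {g : Fin m → MvPolynomial (Fin (N + 1)) k} {P : Fin q → MvPolynomial (Fin (N + 1)) k}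
    {dg : Fin m → ℕ} (hg : ∀ i, (g i).IsHomogeneous (dg i)) (hP : ∀ j, (P j).IsHomogeneous dP)
    (h : Sep g P (ν + 1)) : ∃ D : ℕ, ∀ (κ : Type u) (K : Type v) [Field κ] [IsAlgClosed κ]
      [CharZero κ] [Field K] [CharZero K] [Algebra κ K], IsFF κ K → ∀ [Algebra k K],
      ∃ C : ℕ, ∀ (L : Type w) [Field L] [Algebra K L] [FiniteDimensional K L] [Algebra κ L]
        [IsScalarTower κ K L] [Algebra k L] [IsScalarTower k K L] (z : Fin (N + 1) → L),
        z ≠ 0 → (∀ i, aeval z (g i) = 0) → ∀ (e : ℕ) (E₁ : ℤ), 0 ≤ E₁ →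
        (∀ S : Finset (Fin q), S.card = ν + 1 → (∀ j ∈ S, aeval z (P j) ≠ 0) →
          ∃ i ∈ S, ∃ j ∈ S, i ≠ j ∧
            (e : ℤ) * height κ ![aeval z (P i), aeval z (P j)] ≤ E₁) →
        (e : ℤ) * height κ z ≤ D * E₁ + e * (C * Module.finrank K L) := by
  classical
  obtain ⟨D, hD⟩ := h.height_le
  refine ⟨D, ?_⟩
  intro κ K _ _ _ _ _ _ hK _
  obtain ⟨C, hC⟩ := hD κ K hK
  refine ⟨C, ?_⟩
  intro L _ _ _ _ _ _ _ z hz hzg e E₁ hE₁ hclose
  have hL : IsFF κ L := hK.of_finite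
  obtain ⟨l₀, hl₀⟩ : ∃ l₀, z l₀ ≠ 0 := by
    by_contra hcon
    push Not at hcon
    exact hz (funext hcon)
  obtain ⟨c', hc'⟩ : ∃ c', c' = (z l₀)⁻¹ := ⟨_, rfl⟩
  have hc0 : c' ≠ 0 := by
    rw [hc']
    exact inv_ne_zero hl₀
  obtain ⟨x, hx⟩ : ∃ x : Fin (N + 1) → L, x = fun j => c' * z j := ⟨_, rfl⟩
  have hhom : ∀ {Q : MvPolynomial (Fin (N + 1)) k} {E : ℕ}, Q.IsHomogeneous E →
      aeval x Q = c' ^ E * aeval z Q := by
    intro Q E hQ
    have h1 := aeval_smul_weighted (k₀ := k) (k := L) (w := 1) (n := E) hQ c' z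
    simp only [Pi.one_apply, pow_one] at h1
    rw [hx]
    exact h1
  have hx1 : x l₀ = 1 := by
    rw [hx, hc']
    exact inv_mul_cancel₀ hl₀
  have hxg : ∀ i, aeval x (g i) = 0 := by
    intro i
    rw [hhom (hg i), hzg, mul_zero]
  have hP0 : ∀ j, aeval x (P j) ≠ 0 ↔ aeval z (P j) ≠ 0 := by
    intro j
    rw [hhom (hP j), Ne, Ne, mul_eq_zero, not_or]
    exact ⟨fun h => h.2, fun h => ⟨pow_ne_zero _ hc0, h⟩⟩
  have hpair : ∀ i j, height κ ![aeval x (P i), aeval x (P j)] =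
      height κ ![aeval z (P i), aeval z (P j)] := by
    intro i j
    have h2 : (![aeval x (P i), aeval x (P j)] : Fin 2 → L) =
        fun l => c' ^ dP * (![aeval z (P i), aeval z (P j)] : Fin 2 → L) l := by
      funext l
      fin_cases l
      · simp [hhom (hP i)]
      · simp [hhom (hP j)]
    rw [h2]
    exact hL.height_smul (pow_ne_zero _ hc0)
  have hxz : height κ x = height κ z := by
    rw [hx]
    exact hL.height_smul hc0
  obtain ⟨J, hJ⟩ : ∃ J : Finset (Fin q), J = Finset.univ.filter fun j => aeval x (P j) ≠ 0 :=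
    ⟨_, rfl⟩
  have hmemJ : ∀ j, j ∈ J ↔ aeval x (P j) ≠ 0 := by
    intro j
    rw [hJ]
    simp
  obtain ⟨I, r, hIc, hIJ, hr⟩ := exists_classes J
    (fun i j => (e : ℤ) * height κ ![aeval x (P i), aeval x (P j)] ≤ E₁) (fun i j h1 => by
      rw [height_pair_comm]
      exact h1) (fun i hi => by
      rw [height_pair_self hL ((hmemJ i).1 hi), mul_zero]
      exact hE₁) (ν := ν) (fun S hSJ hSc => by
      obtain ⟨i, hi, j, hj, hij, hle⟩ := hclose S hSc fun j hj =>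
        (hP0 j).1 ((hmemJ j).1 (hSJ hj))
      refine ⟨i, hi, j, hj, hij, ?_⟩
      rw [hpair]
      exact hle)
  rw [← hxz]
  exact hC L x l₀ hx1 hxg I r hIc (fun j hj => ⟨(hr j ((hmemJ j).2 hj)).1,
    (hmemJ _).1 (hIJ (hr j ((hmemJ j).2 hj)).1)⟩) e E₁ hE₁ fun j hj =>
    (hr j ((hmemJ j).2 hj)).2

end Pool.Agent.Lib.MP_44a246_ntFP
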