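import Mathlib
import Pool.Agent.Lib.MP_44a246_ntMS.MS05
import Pool.Agent.Lib.MP_44a246_ntMS.MW05

/-!
Forms without common zero on a projective variety: the size of a point is bounded by the size of
the values of the forms.
-/

namespace Pool.Agent.Lib.MP_44a246_ntFP

open Pool.Agent.Lib.MP_44a246_nt
open Pool.Agent.Lib.MP_44a246_ntL
open Pool.Agent.Lib.MP_44a246_ntX
open Pool.Agent.Lib.MP_44a246_ntMS
open Pool.Agent.Lib.MP_44a246_ntR (imI mem_imI)
open WithZero MvPolynomial

universe u v w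

/-- **The equations of the coordinates.** -/
theorem exists_null {F : Type*} [Field F] {n δ : ℕ} {T S : Type*} [Fintype T] [Fintype S]
    {Q : T → MvPolynomial (Fin n) F} {e : T → ℕ} (hQ : ∀ t, (Q t).IsHomogeneous (e t))
    {P : S → MvPolynomial (Fin n) F} (hP : ∀ j, (P j).IsHomogeneous δ)
    (hX : ∀ y : Fin n → AlgebraicClosure F, (∀ t, aeval y (Q t) = 0) → (∀ j, aeval y (P j) = 0) →
      y = 0) (l : Fin n) :
    ∃ (b : ℕ) (A : S → MvPolynomial (Fin n) F) (B : T → MvPolynomial (Fin n) F), δ ≤ b ∧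
      (∀ j, (A j).IsHomogeneous (b - δ)) ∧ X l ^ b = ∑ t, B t * Q t + ∑ j, A j * P j := by
  classical
  obtain ⟨u, hu⟩ : ∃ u : T ⊕ S → MvPolynomial (Fin n) F, u = Sum.elim Q P := ⟨_, rfl⟩
  obtain ⟨I, hI⟩ : ∃ I : Ideal (MvPolynomial (Fin n) F), I = Ideal.span (Set.range u) := ⟨_, rfl⟩
  have huI : ∀ a, u a ∈ I := by
    intro a
    rw [hI]
    exact Ideal.subset_span ⟨a, rfl⟩
  have h1 : (X l : MvPolynomial (Fin n) F) ∈ I.radical := by
    rw [← vanishingIdeal_zeroLocus_eq_radical (K := AlgebraicClosure F) I,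
      mem_vanishingIdeal_iff]
    intro y hy
    rw [mem_zeroLocus_iff] at hy
    have h2 : y = 0 := by
      refine hX y (fun t => ?_) fun j => ?_
      · have h3 := hy _ (huI (Sum.inl t))
        rw [hu, Sum.elim_inl] at h3
        exact h3
      · have h3 := hy _ (huI (Sum.inr j))
        rw [hu, Sum.elim_inr] at h3
        exact h3
    rw [aeval_X, h2]
    rfl
  obtain ⟨b', hb'⟩ := h1
  have h2 : (X l : MvPolynomial (Fin n) F) ^ (b' + δ) ∈ I := by
    rw [pow_add]
    exact I.mul_mem_right _ hb'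
  obtain ⟨b, hb⟩ : ∃ b, b = b' + δ := ⟨_, rfl⟩
  rw [← hb] at h2
  rw [hI, Ideal.mem_span_range_iff_exists_fun] at h2
  obtain ⟨C', hC'⟩ := h2
  have hbδ : δ ≤ b := by omega
  choose B hB _ using fun t => whc_mul (w := 1) (hQ t) (C' (Sum.inl t)) b
  choose A hA hA' using fun j => whc_mul (w := 1) (hP j) (C' (Sum.inr j)) b
  refine ⟨b, A, B, hbδ, fun j => hA' j hbδ, ?_⟩
  have h3 : weightedHomogeneousComponent (1 : Fin n → ℕ) b ((X l : MvPolynomial (Fin n) F) ^ b) =
      X l ^ b := by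
    have h4 := (isWeightedHomogeneous_X F (1 : Fin n → ℕ) l).pow b
    rw [Pi.one_apply, smul_eq_mul, mul_one] at h4
    exact h4.weightedHomogeneousComponent_same
  rw [← h3, ← hC', map_sum, Fintype.sum_sum_type]
  congr 1
  · refine Finset.sum_congr rfl fun t _ => ?_
    rw [hu]
    exact hB t
  · refine Finset.sum_congr rfl fun j _ => ?_
    rw [hu]
    exact hA j

/-- the value of a form at a place -/
theorem val_le_exp {K L : Type*} [Field K] [Field L] [Algebra K L] (v : Valuation L ℤᵐ⁰)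
    {n d : ℕ} {F : MvPolynomial (Fin n) K} (hF : F.IsHomogeneous d) {θ : ℕ}
    (hc : ∀ m, v (algebraMap K L (coeff m F)) ≤ exp (θ : ℤ)) (z : Fin n → L) :
    v (aeval z F) ≤ exp (θ : ℤ) * vmax v z ^ d := by
  rw [aeval_def, eval₂_eq']
  refine Valuation.map_sum_le _ fun m hm => ?_
  have h1 : ∏ i, v (z i) ^ m i ≤ ∏ i, vmax v z ^ m i := by
    refine Finset.prod_le_prod' fun i _ => pow_le_pow_left' ?_ _
    exact Finset.le_sup (f := fun l => v (z l)) (Finset.mem_univ i)
  have h2 : ∑ i, m i = d := by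
    have h3 := hF (mem_support_iff.1 hm)
    rw [Finsupp.weight_apply, Finsupp.sum_fintype _ _ (fun _ => by simp)] at h3
    rw [← h3]
    exact Finset.sum_congr rfl fun i _ => by simp
  rw [map_mul, map_prod]
  calc _ ≤ exp (θ : ℤ) * ∏ i, vmax v z ^ m i := by
        refine mul_le_mul' (hc m) ?_
        simp only [map_pow]
        exact h1
    _ = exp (θ : ℤ) * vmax v z ^ d := by rw [Finset.prod_pow_eq_pow_sum, h2]

/-- the components of the renamed polynomial -/
theorem whc_rename {F σ τ : Type*} [Field F] {g : σ → τ} (hg : Function.Injective g) {w : τ → ℕ}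
    (P : MvPolynomial σ F) (b : ℕ) :
    weightedHomogeneousComponent w b (rename g P) =
      rename g (weightedHomogeneousComponent (w ∘ g) b P) := by
  classical
  induction P using MvPolynomial.induction_on' with
  | monomial u a =>
    have hw : Finsupp.weight w (u.mapDomain g) = Finsupp.weight (w ∘ g) u := by
      rw [Finsupp.weight_apply, Finsupp.weight_apply, Finsupp.sum_mapDomain_index_inj hg]
      rfl
    have h1 : (monomial u a : MvPolynomial σ F).IsWeightedHomogeneous (w ∘ g)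
        (Finsupp.weight (w ∘ g) u) := isWeightedHomogeneous_monomial _ u a rfl
    have h2 : (monomial (u.mapDomain g) a : MvPolynomial τ F).IsWeightedHomogeneous w
        (Finsupp.weight (w ∘ g) u) := isWeightedHomogeneous_monomial _ _ a hw
    rw [rename_monomial]
    by_cases h : b = Finsupp.weight (w ∘ g) u
    · rw [h, h1.weightedHomogeneousComponent_same, h2.weightedHomogeneousComponent_same,
        rename_monomial]
    · rw [h1.weightedHomogeneousComponent_ne b h, h2.weightedHomogeneousComponent_ne b h,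
        map_zero]
  | add p q hp hq => rw [map_add, map_add, hp, hq, map_add, map_add]

/-- the ideal of the equations is homogeneous -/
theorem imI_hom {k : Type*} [Field k] {p n s : ℕ} {d : Fin p → ℕ} {e : Fin s → ℕ}
    {f : Fin s → MvPolynomial (Fin p ⊕ Fin n) k}
    (hf : ∀ i, (f i).IsWeightedHomogeneous (Sum.elim d fun _ => 1) (e i))
    {g : MvPolynomial (Fin n) k} (hg : g ∈ imI f) (b : ℕ) :
    homogeneousComponent b g ∈ imI f := by
  classical
  rw [mem_imI] at hg ⊢
  rw [Ideal.mem_span_range_iff_exists_fun] at hg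
  obtain ⟨c, hc⟩ := hg
  have h1 := whc_rename (F := k) (g := (Sum.inr : Fin n → Fin p ⊕ Fin n)) Sum.inr_injective
    (w := Sum.elim d fun _ => 1) g b
  have h2 : rename (Sum.inr : Fin n → Fin p ⊕ Fin n) (homogeneousComponent b g) =
      weightedHomogeneousComponent (Sum.elim d fun _ => 1) b
        (rename (Sum.inr : Fin n → Fin p ⊕ Fin n) g) := by
    rw [h1]
    rfl
  rw [h2, ← hc, map_sum]
  refine Ideal.sum_mem _ fun i _ => ?_
  obtain ⟨A, hA, -⟩ := whc_mul (hf i) (c i) b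
  rw [hA]
  exact Ideal.mul_mem_left _ _ (Ideal.subset_span ⟨i, rfl⟩)

/-- the ideal of the equations is generated by finitely many forms -/
theorem imI_gens {k : Type*} [Field k] {p n s : ℕ} {d : Fin p → ℕ} {e : Fin s → ℕ}
    {f : Fin s → MvPolynomial (Fin p ⊕ Fin n) k}
    (hf : ∀ i, (f i).IsWeightedHomogeneous (Sum.elim d fun _ => 1) (e i)) :
    ∃ (T : Type) (_ : Fintype T) (Q : T → MvPolynomial (Fin n) k) (e' : T → ℕ),
      (∀ t, (Q t).IsHomogeneous (e' t)) ∧ (∀ t, Q t ∈ imI f) ∧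
      ∀ g ∈ imI f, g ∈ Ideal.span (Set.range Q) := by
  classical
  obtain ⟨r, G, hG⟩ := Submodule.fg_iff_exists_fin_generating_family.1
    (IsNoetherian.noetherian (imI f))
  have hG' : ∀ i, G i ∈ imI f := by
    intro i
    rw [← hG]
    exact Submodule.subset_span ⟨i, rfl⟩
  refine ⟨Σ i : Fin r, Fin ((G i).totalDegree + 1), inferInstance,
    fun t => homogeneousComponent t.2 (G t.1), fun t => t.2,
    fun t => homogeneousComponent_isHomogeneous _ _, fun t => imI_hom hf (hG' _) _, fun g hg => ?_⟩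
  have h1 : imI f ≤ Ideal.span (Set.range fun t : Σ i : Fin r, Fin ((G i).totalDegree + 1) =>
      homogeneousComponent (t.2 : ℕ) (G t.1)) := by
    rw [← hG]
    refine Submodule.span_le.2 ?_
    rintro _ ⟨i, rfl⟩
    rw [SetLike.mem_coe, ← sum_homogeneousComponent (G i)]
    refine Ideal.sum_mem _ fun j hj => Ideal.subset_span ?_
    exact ⟨⟨i, ⟨j, Finset.mem_range.1 hj⟩⟩, rfl⟩
  exact h1 hg

/-- **General position.** The forms `P j` of degree `δ` over `k` are such that no `P j`, `j ∈ S`,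
for a set `S` of `r` indices, have a common zero on the projective variety of the ideal of the
equations `f`. Then the size of a point of this variety is bounded by the maximum of the values
of the `P j`, `j ∈ S`. -/
theorem general_position {κ : Type u} {K : Type v} {k : Type*} [Field κ] [IsAlgClosed κ] [CharZero κ] [Field K]
    [CharZero K] [Algebra κ K] (hK : IsFF κ K) [Field k] [Algebra k K] {p n s q r δ : ℕ}
    {d : Fin p → ℕ} {e : Fin s → ℕ} {f : Fin s → MvPolynomial (Fin p ⊕ Fin n) k}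
    (hf : ∀ i, (f i).IsWeightedHomogeneous (Sum.elim d fun _ => 1) (e i))
    {P : Fin q → MvPolynomial (Fin n) k} (hP : ∀ j, (P j).IsHomogeneous δ)
    (hX : ∀ S : Finset (Fin q), S.card = r → ∀ y : Fin n → AlgebraicClosure k,
      (∀ g ∈ imI f, aeval y g = 0) → (∀ j ∈ S, aeval y (P j) = 0) → y = 0) :
    ∃ Θ : Place κ K → ℕ, (Function.support Θ).Finite ∧
      ∀ {L : Type w} [Field L] [Algebra K L] [FiniteDimensional K L] [Algebra κ L]
        [IsScalarTower κ K L] [Algebra k L] [IsScalarTower k K L] {x : Fin n → L}, x ≠ 0 →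
        (∀ g ∈ imI f, aeval x g = 0) → ∀ S : Finset (Fin q), S.card = r →
        (fun j : {j // j ∈ S} => aeval x (P j)) ≠ 0 ∧
        ∀ w : Place κ L, vmax w.1 x ^ δ ≤ exp ((ramIdx K w.1 * Θ (below K w) : ℕ) : ℤ) *
          vmax w.1 (fun j : {j // j ∈ S} => aeval x (P j)) := by
  classical
  obtain ⟨T, hT, Q, e', hQ, hQI, hIQ⟩ := imI_gens hf
  have hX' : ∀ S : {S : Finset (Fin q) // S.card = r}, ∀ y : Fin n → AlgebraicClosure k,
      (∀ t, aeval y (Q t) = 0) → (∀ j : {j // j ∈ S.1}, aeval y (P j) = 0) → y = 0 := by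
    intro S y hy1 hy2
    refine hX S.1 S.2 y (fun g hg => ?_) fun j hj => hy2 ⟨j, hj⟩
    have h1 : Ideal.span (Set.range Q) ≤ RingHom.ker (aeval y : MvPolynomial (Fin n) k →ₐ[k]
        AlgebraicClosure k) := by
      refine Ideal.span_le.2 ?_
      rintro _ ⟨t, rfl⟩
      exact hy1 t
    exact h1 (hIQ g hg)
  choose b A B hb hA hAB using fun (S : {S : Finset (Fin q) // S.card = r}) (l : Fin n) =>
    exists_null hQ (P := fun j : {j // j ∈ S.1} => P j) (fun j => hP j) (hX' S) l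
  obtain ⟨Θ, hΘ, hΘb⟩ := exists_poly_bound hK
    (fun a : (Σ S : {S : Finset (Fin q) // S.card = r}, Fin n × {j // j ∈ S.1}) =>
      map (algebraMap k K) (A a.1 a.2.1 a.2.2))
  refine ⟨Θ, hΘ, fun {L} _ _ _ _ _ _ _ x hx hxQ S hS => ⟨fun h0 => ?_, fun w => ?_⟩⟩
  · obtain ⟨l, hl⟩ : ∃ l, x l ≠ 0 := by
      by_contra hcon
      push Not at hcon
      exact hx (funext hcon)
    have h1 := congrArg (aeval x) (hAB ⟨S, hS⟩ l)
    rw [map_pow, aeval_X, map_add, map_sum, map_sum] at h1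
    have h2 : ∑ t, aeval x (B ⟨S, hS⟩ l t * Q t) = 0 :=
      Finset.sum_eq_zero fun t _ => by rw [map_mul, hxQ _ (hQI t), mul_zero]
    have h3 : ∑ j : {j // j ∈ S}, aeval x (A ⟨S, hS⟩ l j * P j) = 0 :=
      Finset.sum_eq_zero fun j _ => by
        have h4 := congrFun h0 j
        simp only [Pi.zero_apply] at h4
        rw [map_mul, h4, mul_zero]
    rw [h2, zero_add] at h1
    exact pow_ne_zero _ hl (h1.trans h3)
  obtain ⟨l, hl, hlmax, -⟩ := exists_vmax w.1 hx
  have hv0 : vmax w.1 x ≠ 0 := by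
    rw [hlmax]
    exact (Valuation.ne_zero_iff _).2 hl
  have h1 := congrArg (aeval x) (hAB ⟨S, hS⟩ l)
  rw [map_pow, aeval_X, map_add, map_sum, map_sum] at h1
  have h2 : ∑ t, aeval x (B ⟨S, hS⟩ l t * Q t) = 0 :=
    Finset.sum_eq_zero fun t _ => by rw [map_mul, hxQ _ (hQI t), mul_zero]
  rw [h2, zero_add] at h1
  have h3 : w.1 (x l ^ b ⟨S, hS⟩ l) ≤ exp ((ramIdx K w.1 * Θ (below K w) : ℕ) : ℤ) *
      vmax w.1 x ^ (b ⟨S, hS⟩ l - δ) * vmax w.1 (fun j : {j // j ∈ S} => aeval x (P j)) := by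
    rw [h1]
    refine Valuation.map_sum_le _ fun j _ => ?_
    rw [map_mul, map_mul]
    refine mul_le_mul' ?_ (Finset.le_sup (f := fun j : {j // j ∈ S} => w.1 (aeval x (P j)))
      (Finset.mem_univ j))
    have h5 : aeval x (A ⟨S, hS⟩ l j) =
        aeval x (map (algebraMap k K) (A ⟨S, hS⟩ l j)) := by
      rw [aeval_map_algebraMap]
    rw [h5]
    have h6 : (map (algebraMap k K) (A ⟨S, hS⟩ l j)).IsHomogeneous (b ⟨S, hS⟩ l - δ) :=
      (hA ⟨S, hS⟩ l j).map _
    refine val_le_exp w.1 h6 (fun m => ?_) x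
    rw [below_pow]
    have h4 := pow_le_pow_left' (hΘb ⟨⟨S, hS⟩, (l, j)⟩ m (below K w)) (ramIdx K w.1)
    refine h4.trans (le_of_eq ?_)
    rw [← exp_nsmul, nsmul_eq_mul]
    push_cast
    rfl
  rw [map_pow, ← hlmax] at h3
  have h4 : vmax w.1 x ^ b ⟨S, hS⟩ l = vmax w.1 x ^ δ * vmax w.1 x ^ (b ⟨S, hS⟩ l - δ) := by
    rw [← pow_add, Nat.add_sub_cancel' (hb _ l)]
  have h5 : exp ((ramIdx K w.1 * Θ (below K w) : ℕ) : ℤ) *
      vmax w.1 x ^ (b ⟨S, hS⟩ l - δ) * vmax w.1 (fun j : {j // j ∈ S} => aeval x (P j)) =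
      (exp ((ramIdx K w.1 * Θ (below K w) : ℕ) : ℤ) *
        vmax w.1 (fun j : {j // j ∈ S} => aeval x (P j))) *
          vmax w.1 x ^ (b ⟨S, hS⟩ l - δ) := by
    rw [mul_right_comm]
  rw [h4, h5] at h3
  exact le_of_mul_le_mul_right h3 (zero_lt_iff.2 (pow_ne_zero _ hv0))

/-- **General position**, the heights. -/
theorem general_position_height {κ : Type u} {K : Type v} {k : Type*} [Field κ] [IsAlgClosed κ] [CharZero κ] [Field K]
    [CharZero K] [Algebra κ K] (hK : IsFF κ K) [Field k] [Algebra k K] {p n s q r δ : ℕ}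
    {d : Fin p → ℕ} {e : Fin s → ℕ} {f : Fin s → MvPolynomial (Fin p ⊕ Fin n) k}
    (hf : ∀ i, (f i).IsWeightedHomogeneous (Sum.elim d fun _ => 1) (e i))
    {P : Fin q → MvPolynomial (Fin n) k} (hP : ∀ j, (P j).IsHomogeneous δ)
    (hX : ∀ S : Finset (Fin q), S.card = r → ∀ y : Fin n → AlgebraicClosure k,
      (∀ g ∈ imI f, aeval y g = 0) → (∀ j ∈ S, aeval y (P j) = 0) → y = 0) :
    ∃ C : ℤ, 0 ≤ C ∧
      ∀ {L : Type w} [Field L] [CharZero L] [Algebra K L] [FiniteDimensional K L] [Algebra κ L]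
        [IsScalarTower κ K L] [Algebra k L] [IsScalarTower k K L] {x : Fin n → L}, x ≠ 0 →
        (∀ g ∈ imI f, aeval x g = 0) → ∀ S : Finset (Fin q), S.card = r →
        (fun j : {j // j ∈ S} => aeval x (P j)) ≠ 0 ∧
        δ * height κ x ≤ height κ (fun j : {j // j ∈ S} => aeval x (P j)) +
          C * Module.finrank K L := by
  classical
  obtain ⟨Θ, hΘ, hloc⟩ := general_position.{u, v, w} (κ := κ) hK hf hP hX
  refine ⟨∑ᶠ v, (Θ v : ℤ), finsum_nonneg fun v => by positivity, ?_⟩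
  intro L _ _ _ _ _ _ _ _ x hx hxI S hS
  obtain ⟨hne, hloc⟩ := hloc hx hxI S hS
  refine ⟨hne, ?_⟩
  have hL : IsFF κ L := hK.of_finite
  have hΘs : (Function.support fun v : Place κ K => (Θ v : ℤ)).Finite := by
    refine hΘ.subset fun w hw h1 => hw ?_
    simp only at h1 ⊢
    rw [h1, Nat.cast_zero]
  have hs1 : (Function.support fun w : Place κ L =>
      ((ramIdx K w.1 : ℤ) * (Θ (below K w) : ℤ))).Finite := by
    refine (mason_sum_over (L := L) hL hΘ).1.subset ?_
    intro w hw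
    rw [Function.mem_support] at hw ⊢
    exact_mod_cast hw
  have hs2 := hL.vmax_support hx
  have hs3 := hL.vmax_support hne
  have e1 : ∑ᶠ w : Place κ L, ((ramIdx K w.1 : ℤ) * (Θ (below K w) : ℤ)) =
      Module.finrank K L * ∑ᶠ v, (Θ v : ℤ) := finsum_ramIdx_mul hL hΘs
  unfold height
  rw [mul_comm (∑ᶠ v, (Θ v : ℤ)), ← e1, mul_finsum, ← finsum_add_distrib hs3 hs1]
  refine finsum_mono ?_ ?_ fun w => ?_
  · exact hs2.subset (Function.support_mul_subset_right _ _)
  · exact (hs3.union hs1).subset (Function.support_add _ _)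
  · have hv0 : vmax w.1 x ≠ 0 := vmax_ne_zero _ hx
    have hv1 : vmax w.1 (fun j : {j // j ∈ S} => aeval x (P j)) ≠ 0 := vmax_ne_zero _ hne
    have h1 := (log_le_log (pow_ne_zero _ hv0) (mul_ne_zero exp_ne_zero hv1)).2 (hloc w)
    rw [log_pow, log_mul exp_ne_zero hv1, log_exp, nsmul_eq_mul] at h1
    push_cast at h1
    linarith

end Pool.Agent.Lib.MP_44a246_ntFP
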