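import Mathlib
import Pool.Agent.Lib.MP_44a246_ntN.NullG
import Pool.Agent.Lib.MP_44a246_ntMS.MS05

/-!
Derivations which kill all but a few of the coefficients.
-/

namespace Pool.Agent.Lib.MP_44a246_ntFP

open Pool.Agent.Lib.MP_44a246_nt
open Pool.Agent.Lib.MP_44a246_ntL
open Pool.Agent.Lib.MP_44a246_ntMS
open Pool.Agent.Lib.MP_e52354_ntMR
open WithZero MvPolynomial

universe u v

/-- a combination of derivations -/
noncomputable def combD {K T : Type*} [Field K] [Fintype T] (lam : T → K)
    (D : T → Derivation ℤ K K) : Derivation ℤ K K := ∑ t, lam t • D t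

theorem combD_apply {K T : Type*} [Field K] [Fintype T] (lam : T → K)
    (D : T → Derivation ℤ K K) (y : K) : combD lam D y = ∑ t, lam t * D t y := by
  unfold combD
  rw [← Derivation.coeFnAddMonoidHom_apply, map_sum, Finset.sum_apply]
  rfl

/-- **Derivations which kill all but `n + c + 1` of the coefficients.** -/
theorem exists_ders_comb {κ : Type u} {K : Type v} [Field κ] [IsAlgClosed κ] [CharZero κ]
    [Field K] [CharZero K] [Algebra κ K] (hK : IsFF κ K) {k : Type*} [Field k] [CharZero k]
    [Algebra k K] (hk : Algebra.trdeg ℚ k < Cardinal.aleph0) {q n c : ℕ} {a : Fin q → K}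
    (hgen : (q : Cardinal) ≤ Algebra.trdeg k (IntermediateField.adjoin k (Set.range a)) + c)
    (S : Finset (Fin q)) (hS : S.card = n + c + 1) :
    ∃ (E : Fin (n + 1) → Derivation ℤ K K) (B : Place κ K → ℕ) (σ : Fin (n + 1) → Fin q),
      (Function.support B).Finite ∧ (∀ l, PoleBound κ (E l) B) ∧
      (∀ l, ∀ u : k, E l (algebraMap k K u) = 0) ∧ (∀ l, ∀ j ∉ S, E l (a j) = 0) ∧
      (Matrix.of fun l l' => E l (a (σ l'))).det ≠ 0 := by
  classical
  obtain ⟨F, hF⟩ : ∃ F : IntermediateField k K, F = IntermediateField.adjoin k (Set.range a) :=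
    ⟨_, rfl⟩
  obtain ⟨aF, haF⟩ : ∃ aF : Fin q → F, ∀ i, (aF i : K) = a i := ⟨fun i => ⟨a i, by
    rw [hF]
    exact IntermediateField.subset_adjoin k _ ⟨i, rfl⟩⟩, fun _ => rfl⟩
  rw [← hF] at hgen
  obtain ⟨T, hTc, hind, -⟩ := exists_trbasis aF (adjoin_range_top a hF aF haF) (c := c) (by
    rw [Nat.card_eq_fintype_card, Fintype.card_fin]
    exact hgen)
  rw [Nat.card_eq_fintype_card, Fintype.card_fin] at hTc
  have hindK : AlgebraicIndependent k (fun t : T => a t) := by
    have h1 := hind.map' (f := F.val) F.val.injective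
    have h2 : (F.val ∘ fun t : T => aF t) = fun t : T => a t := funext fun t => haF t
    rw [h2] at h1
    exact h1
  obtain ⟨D, B, hB, hPB, hD, hDk⟩ := exists_ders hK hk hindK
  -- the combinations which kill the other coefficients
  obtain ⟨Φ, hΦ⟩ : ∃ Φ : (T → K) →ₗ[K] ({j // j ∉ S} → K),
      ∀ lam j, Φ lam j = ∑ t, lam t * D t (a j) := by
    refine ⟨{ toFun := fun lam j => ∑ t, lam t * D t (a j)
              map_add' := fun x y => ?_
              map_smul' := fun c x => ?_ }, fun _ _ => rfl⟩
    · funext j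
      show ∑ t, (x t + y t) * D t (a j) = ∑ t, x t * D t (a j) + ∑ t, y t * D t (a j)
      rw [← Finset.sum_add_distrib]
      exact Finset.sum_congr rfl fun t _ => by ring
    · funext j
      show ∑ t, (c * x t) * D t (a j) = c * ∑ t, x t * D t (a j)
      rw [Finset.mul_sum]
      exact Finset.sum_congr rfl fun t _ => by ring
  have hcard : Fintype.card {j // j ∉ S} = q - (n + c + 1) := by
    rw [Fintype.card_subtype_compl, Fintype.card_fin, Fintype.card_coe, hS]
  have hqS : n + c + 1 ≤ q := by
    have h1 := Finset.card_le_univ S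
    rw [hS, Fintype.card_fin] at h1
    exact h1
  have hker : n + 1 ≤ Module.finrank K (LinearMap.ker Φ) := by
    have h1 := LinearMap.finrank_range_add_finrank_ker Φ
    have h2 : Module.finrank K (LinearMap.range Φ) ≤ q - (n + c + 1) := by
      refine (Submodule.finrank_le _).trans ?_
      rw [Module.finrank_fintype_fun_eq_card, hcard]
    rw [Module.finrank_fintype_fun_eq_card, Fintype.card_coe] at h1
    omega
  obtain ⟨lam, hlam⟩ : ∃ lam : Fin (n + 1) → LinearMap.ker Φ, LinearIndependent K lam := by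
    obtain ⟨b, -⟩ : ∃ b : Module.Basis (Fin (Module.finrank K (LinearMap.ker Φ))) K
      (LinearMap.ker Φ), True := ⟨Module.finBasis K _, trivial⟩
    exact ⟨fun i => b (Fin.castLE hker i), b.linearIndependent.comp _ (Fin.castLE_injective _)⟩
  have hlamK : LinearIndependent K fun l => (lam l : T → K) :=
    hlam.map' (LinearMap.ker Φ).subtype (LinearMap.ker_eq_bot.2 (Submodule.subtype_injective _))
  obtain ⟨σ, hσ⟩ := Pool.Agent.Lib.MP_44a246_ntN.exists_minor (fun l => (lam l : T → K)) hlamK
  obtain ⟨A, hA, hAb⟩ := exists_poly_bound hK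
    (fun t : Fin (n + 1) × T => (C ((lam t.1 : T → K) t.2) : MvPolynomial (Fin 1) K))
  refine ⟨fun l => combD (lam l) D, fun v => A v + B v, fun l => σ l,
    (hA.union hB).subset (Function.support_add _ _), fun l v y hy => ?_, fun l u => ?_,
    fun l j hj => ?_, ?_⟩
  · rw [combD_apply]
    refine Valuation.map_sum_le _ fun t _ => ?_
    rw [map_mul]
    have h1 := hAb (l, t) 0 v
    rw [coeff_C, if_pos rfl] at h1
    refine (mul_le_mul' h1 (hPB t v y hy)).trans (le_of_eq ?_)
    rw [← exp_add]
    congr 1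
  · rw [combD_apply]
    exact Finset.sum_eq_zero fun t _ => by rw [hDk, mul_zero]
  · rw [combD_apply]
    have h1 : Φ (lam l) = 0 := (lam l).2
    have h2 := congrFun h1 ⟨j, hj⟩
    rw [hΦ] at h2
    exact h2
  · have h1 : (Matrix.of fun l l' => combD (lam l) D (a (σ l'))) =
        Matrix.of fun l l' => (lam l : T → K) (σ l') := by
      ext l l'
      rw [Matrix.of_apply, Matrix.of_apply, combD_apply, Finset.sum_eq_single (σ l')]
      · rw [hD, if_pos rfl, mul_one]
      · intro t _ ht
        rw [hD, if_neg ht, mul_zero]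
      · intro h
        exact absurd (Finset.mem_univ _) h
    rw [h1]
    exact hσ

end Pool.Agent.Lib.MP_44a246_ntFP
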