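import Mathlib
import Pool.Agent.Lib.MP_44a246_ntMS.MS05
import Pool.Agent.Lib.MP_44a246_ntFP.FP05
import Pool.Agent.Lib.MP_44a246_ntFP.FP07
import Pool.Agent.Lib.MP_44a246_ntFP.FP08
import Pool.Agent.Lib.MP_44a246_ntFP.FP09

/-!
Close indices for all points, for a field of definition of finite transcendence degree.
-/

namespace Pool.Agent.Lib.MP_44a246_ntFP

open Pool.Agent.Lib.MP_44a246_nt
open Pool.Agent.Lib.MP_44a246_ntL
open Pool.Agent.Lib.MP_44a246_ntX
open Pool.Agent.Lib.MP_44a246_ntMS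
open Pool.Agent.Lib.MP_e52354_ntMR
open Pool.Agent.Lib.MP_e52354_nt (exists_derivation)
open Pool.Agent.Lib.MP_44a246_ntK (wtP)
open Pool.Agent.Lib.MP_44a246_ntR (imI mem_imI)
open WithZero MvPolynomial

universe u v w x

/-- the elements of the ideal of the image vanish at the points -/
theorem imI_zero {k L : Type*} [Field k] [Field L] [Algebra k L] {p n s : ℕ}
    {f : Fin s → MvPolynomial (Fin p ⊕ Fin n) k} {h : Fin p → L} {x : Fin n → L}
    (hz : ∀ i, aeval (Sum.elim h x : Fin p ⊕ Fin n → L) (f i) = 0) {g : MvPolynomial (Fin n) k}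
    (hg : g ∈ imI f) : aeval x g = 0 := by
  have h1 : Ideal.span (Set.range f) ≤ RingHom.ker (aeval (Sum.elim h x : Fin p ⊕ Fin n → L) :
      MvPolynomial (Fin p ⊕ Fin n) k →ₐ[k] L) := by
    refine Ideal.span_le.2 ?_
    rintro _ ⟨i, rfl⟩
    exact hz i
  have h2 := h1 (mem_imI.1 hg)
  rw [RingHom.mem_ker] at h2
  have h3 : (aeval (Sum.elim h x : Fin p ⊕ Fin n → L))
      (rename (Sum.inr : Fin n → Fin p ⊕ Fin n) g) = aeval x g := by
    rw [aeval_rename]
    rfl
  rw [← h3]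
  exact h2

/-- a nonzero derivation over the constants, with finitely many poles -/
theorem exists_kder' {κ K : Type*} [Field κ] [IsAlgClosed κ] [CharZero κ] [Field K] [CharZero K]
    [Algebra κ K] (hK : IsFF κ K) : ∃ (D₀ : Derivation κ K K) (B : Place κ K → ℕ), D₀ ≠ 0 ∧
      (Function.support B).Finite ∧ PoleBound κ (D₀.restrictScalars ℤ) B := by
  obtain ⟨t, ht, hfin⟩ := id hK
  have halg : Algebra.IsAlgebraic (IntermediateField.adjoin κ {t}) K :=
    Algebra.IsAlgebraic.of_finite _ _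
  obtain ⟨D₀, hD₀⟩ : ∃ D₀ : Derivation κ K K, D₀ t = 1 := by
    have h1 : AlgebraicIndependent κ (fun _ : Unit => t) :=
      algebraicIndependent_unique_type_iff.mpr ht
    have h2 : IsTranscendenceBasis κ (fun _ : Unit => t) := by
      rw [h1.isTranscendenceBasis_iff_isAlgebraic, ← IntermediateField.isAlgebraic_adjoin_iff_top,
        Set.range_const]
      exact halg
    have h3 := h2.isAlgebraic
    obtain ⟨D, hD⟩ := exists_derivation h1 (fun _ => 1)
    exact ⟨D, hD ()⟩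
  let D : Derivation ℤ K K := D₀.restrictScalars ℤ
  have hDκ : ∀ c : κ, D (algebraMap κ K c) = 0 := fun c => D₀.map_algebraMap c
  have hDt : D t = 1 := hD₀
  obtain ⟨B, hBfin, hB⟩ := exists_poleBound ht hfin D (fun c => ⟨0, by rw [hDκ, map_zero]⟩)
    ⟨1, by rw [hDt, map_one]⟩
  refine ⟨D₀, B, ?_, hBfin, hB⟩
  rintro rfl
  rw [Derivation.zero_apply] at hD₀
  exact zero_ne_one hD₀

/-- a common bound for finitely many elements -/
theorem exists_elt_bound {κ K : Type*} [Field κ] [IsAlgClosed κ] [CharZero κ] [Field K]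
    [Algebra κ K] (hK : IsFF κ K) {ι : Type*} [Finite ι] (y : ι → K) :
    ∃ A : Place κ K → ℕ, (Function.support A).Finite ∧
      ∀ i (v : Place κ K), v.1 (y i) ≤ exp (A v : ℤ) := by
  obtain ⟨A, hA, h1⟩ := exists_poly_bound hK (fun i => (C (y i) : MvPolynomial (Fin 0) K))
  refine ⟨A, hA, fun i v => ?_⟩
  have h2 := h1 i 0 v
  rwa [coeff_zero_C] at h2

/-- **Close indices**, for a field of definition of finite transcendence degree -/
theorem close_core {κ : Type u} {K : Type v} [Field κ] [IsAlgClosed κ] [CharZero κ]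
    [Field K] [CharZero K] [Algebra κ K] (hK : IsFF κ K) {k₀ : Type x} [Field k₀] [CharZero k₀]
    [Algebra k₀ K] (htk : Algebra.trdeg ℚ k₀ < Cardinal.aleph0) {N n c q e dP s : ℕ}
    {d : Fin 1 → ℕ} (hd : d 0 = e * dP) {ee : Fin s → ℕ}
    (f : Fin s → MvPolynomial (Fin 1 ⊕ Fin (N + 1)) k₀)
    (hf : ∀ i, (f i).IsWeightedHomogeneous (Sum.elim d fun _ => 1) (ee i))
    (hdim : ringKrullDim (MvPolynomial (Fin (N + 1)) k₀ ⧸ imI f) ≤ ((n + 1 : ℕ) : ℕ))
    (P : Fin q → MvPolynomial (Fin (N + 1)) k₀) (hP : ∀ j, (P j).IsHomogeneous dP)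
    (a : Fin q → K)
    (hgen : (q : Cardinal) ≤ Algebra.trdeg k₀ (IntermediateField.adjoin k₀ (Set.range a)) + c) :
    ∃ C : ℕ, ∀ (L : Type w) [Field L] [Algebra K L] [FiniteDimensional K L] [Algebra κ L]
        [IsScalarTower κ K L] [Algebra k₀ L] [IsScalarTower k₀ K L] (v : Fin (N + 1) → L), v ≠ 0 →
        (∀ i, aeval (Sum.elim (fun _ => ∑ j, algebraMap K L (a j) * aeval v (P j) ^ e) v :
          Fin 1 ⊕ Fin (N + 1) → L) (f i) = 0) →
        (∃ (i : Fin s) (τ : L), aeval (Sum.elim (fun _ => τ) v :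
          Fin 1 ⊕ Fin (N + 1) → L) (f i) ≠ 0) →
        ∀ S : Finset (Fin q), S.card = n + c + 1 → (∀ j ∈ S, aeval v (P j) ≠ 0) →
        ∃ i ∈ S, ∃ j ∈ S, i ≠ j ∧
          (e : ℤ) * height κ ![aeval v (P i), aeval v (P j)] ≤
          (((n + 1) * (1 + tri (n + c) * (n + c + 1)) + tri (n + c) * (n + c + 1) * dP : ℕ) : ℤ) *
            height κ v +
          ((1 + tri (n + c) * (n + c + 1) + tri (n + c) : ℕ) : ℤ) * ramDeg κ L K +
          C * Module.finrank K L := by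
  classical
  obtain ⟨ν, hν⟩ : ∃ ν, ν = n + c := ⟨_, rfl⟩
  rw [← hν]
  -- the derivations
  have hex := fun S : {S : Finset (Fin q) // S.card = ν + 1} =>
    exists_ders_comb hK htk hgen (n := n) S.1 (by rw [S.2, hν])
  choose E BS σ hBS hPB hEk hES hdet using hex
  obtain ⟨B, hB, hPB'⟩ := poleBound_family (κ := κ)
    (fun t : {S : Finset (Fin q) // S.card = ν + 1} × Fin (n + 1) => E t.1 t.2)
    fun t => ⟨BS t.1, hBS t.1, hPB t.1 t.2⟩
  obtain ⟨D₀, B₀, hD₀, hB₀, hPB₀⟩ := exists_kder' hK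
  obtain ⟨A₁, hA₁, hA₁'⟩ := exists_elt_bound hK
    (fun t : ({S : Finset (Fin q) // S.card = ν + 1} × Fin (n + 1)) × Fin q =>
      E t.1.1 t.1.2 (a t.2))
  obtain ⟨A₂, hA₂, hA₂'⟩ := exists_poly_bound hK (fun j => map (algebraMap k₀ K) (P j))
  obtain ⟨A, hAdef⟩ : ∃ A : Place κ K → ℕ, A = fun v => A₁ v + A₂ v := ⟨_, rfl⟩
  have hA : (Function.support A).Finite := by
    refine (hA₁.union hA₂).subset ?_
    rw [hAdef]
    exact Function.support_add _ _
  -- the constants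
  obtain ⟨W, hW⟩ : ∃ W : ℤ, W = ((1 + tri ν * (ν + 1) : ℕ) : ℤ) * (n * ∑ᶠ v, (B v : ℤ) +
        ∑ᶠ v, (A v : ℤ)) + ((tri ν * (ν + 1) : ℕ) : ℤ) * ∑ᶠ v, (A v : ℤ) +
        tri ν * ∑ᶠ v, (B₀ v : ℤ) := ⟨_, rfl⟩
  have nB : 0 ≤ ∑ᶠ v, (B v : ℤ) := finsum_nonneg fun v => Int.natCast_nonneg _
  have nA : 0 ≤ ∑ᶠ v, (A v : ℤ) := finsum_nonneg fun v => Int.natCast_nonneg _
  have nB₀ : 0 ≤ ∑ᶠ v, (B₀ v : ℤ) := finsum_nonneg fun v => Int.natCast_nonneg _
  have hW0 : 0 ≤ W := by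
    rw [hW]
    positivity
  refine ⟨W.toNat, ?_⟩
  rw [Int.toNat_of_nonneg hW0]
  intro L _ _ _ _ _ _ _ v hv hvf ⟨i, τ, hτ⟩ S hSc hSv
  have hLc : CharZero L := charZero_of_injective_algebraMap (algebraMap K L).injective
  have hL : IsFF κ L := hK.of_finite
  obtain ⟨H, hHdef⟩ : ∃ H : Fin 1 → MvPolynomial (Fin (N + 1)) K,
    H = fun _ => ∑ j, C (a j) * map (algebraMap k₀ K) (P j) ^ e := ⟨_, rfl⟩
  have hHh : ∀ j, (H j).IsHomogeneous (d j) := by
    intro j
    rw [hHdef, Subsingleton.elim j 0, hd]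
    refine IsHomogeneous.sum _ _ _ fun j _ => ?_
    have h1 := (isHomogeneous_C (Fin (N + 1)) (a j)).mul (((hP j).map (algebraMap k₀ K)).pow e)
    rw [zero_add, mul_comm dP e] at h1
    exact h1
  have hHv : ∀ (z : Fin (N + 1) → L), (fun j => aeval z (H j)) =
      fun _ => ∑ j, algebraMap K L (a j) * aeval z (P j) ^ e := by
    intro z
    funext l
    rw [hHdef, map_sum]
    refine Finset.sum_congr rfl fun j _ => ?_
    rw [map_mul, map_pow, aeval_C, aeval_map_algebraMap]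
  have hG1 : ∀ l : Fin 1, ((fun _ => 1 : Fin 1 → MvPolynomial (Fin (N + 1)) K) l).IsHomogeneous
      0 := fun _ => isHomogeneous_one _ _
  have hup : ∀ (h : Fin 1 → L), Function.update h 0 τ = fun _ => τ := by
    intro h
    funext l
    rw [Subsingleton.elim l 0, Function.update_self]
  obtain ⟨c', j₀, b, x, hc0, hx, hx1, hxf, hxg, hxd, -⟩ :=
    normalise_point (j₁ := 0) hf hHh hG1 hv (by
      intro i
      rw [hHv]
      exact hvf i) (i := i) (τ := τ) (by
      rw [hup]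
      exact hτ) (l := 0) (by
      rw [map_one]
      exact one_ne_zero)
  rw [hHv] at hxg hxd
  have hxf' : ∀ i, aeval (Sum.elim (fun _ => ∑ j, algebraMap K L (a j) * aeval x (P j) ^ e) x :
      Fin 1 ⊕ Fin (N + 1) → L) (f i) = 0 := by
    intro i
    rw [← hHv]
    exact hxf i
  have h1 : height κ x = height κ v := by
    rw [hx]
    exact hL.height_smul hc0
  have hPx : ∀ j, aeval x (P j) = c' ^ dP * aeval v (P j) := by
    intro j
    have h1 := aeval_smul_weighted (k₀ := k₀) (k := L) (w := 1) (n := dP) (hP j) c' v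
    simp only [Pi.one_apply, pow_one] at h1
    rw [hx]
    exact h1
  have hpair : ∀ i j, height κ ![aeval x (P i), aeval x (P j)] =
      height κ ![aeval v (P i), aeval v (P j)] := by
    intro i j
    have h2 : (![aeval x (P i), aeval x (P j)] : Fin 2 → L) =
        fun l => c' ^ dP * (![aeval v (P i), aeval v (P j)] : Fin 2 → L) l := by
      funext l
      fin_cases l
      · simp [hPx]
      · simp [hPx]
    rw [h2]
    exact hL.height_smul (pow_ne_zero _ hc0)
  obtain ⟨i, hi, j, hj, hij, hle⟩ := close_over (κ := κ) (L := L) hK hB hA hB₀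
    (E := E ⟨S, hSc⟩) (fun l => hPB' (⟨S, hSc⟩, l)) (hEk ⟨S, hSc⟩) hD₀ hPB₀ hf hdim hP
    (fun j m v => by
      have h2 := hA₂' j m v
      rw [coeff_map] at h2
      refine h2.trans ?_
      rw [exp_le_exp, hAdef]
      have h3 : A₂ v ≤ A₁ v + A₂ v := Nat.le_add_left _ _
      exact_mod_cast h3) (a := a) (e := e) hSc (hES ⟨S, hSc⟩)
    (fun l j v => by
      refine (hA₁' ((⟨S, hSc⟩, l), j) v).trans ?_
      rw [exp_le_exp, hAdef]
      have h3 : A₁ v ≤ A₁ v + A₂ v := Nat.le_add_right _ _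
      exact_mod_cast h3)
    (fun M hM => by
      have h2 : ((algebraMap K L).mapMatrix
          (Matrix.of fun l l' => E ⟨S, hSc⟩ l (a (σ ⟨S, hSc⟩ l')))).det ≠ 0 := by
        rw [← RingHom.map_det]
        exact (_root_.map_ne_zero _).2 (hdet ⟨S, hSc⟩)
      refine Matrix.eq_zero_of_vecMul_eq_zero h2 ?_
      funext l'
      exact hM (σ ⟨S, hSc⟩ l'))
    hx1 rfl hxf' hxg hxd (fun j hj => by
      rw [hPx]
      exact mul_ne_zero (pow_ne_zero _ hc0) (hSv j hj))
  refine ⟨i, hi, j, hj, hij, ?_⟩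
  rw [← hpair, ← h1]
  refine hle.trans (le_of_eq ?_)
  rw [hW]
  ring

end Pool.Agent.Lib.MP_44a246_ntFP
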