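import Mathlib
import Pool.Agent.Lib.MP_44a246_ntMS.MS06
import Pool.Agent.Lib.MP_44a246_ntFP.FP10

/-!
Close indices for all points and all fields of definition.
-/

namespace Pool.Agent.Lib.MP_44a246_ntFP

open Pool.Agent.Lib.MP_44a246_nt
open Pool.Agent.Lib.MP_44a246_ntL
open Pool.Agent.Lib.MP_44a246_ntTV
open Pool.Agent.Lib.MP_44a246_ntMS
open Pool.Agent.Lib.MP_e52354_ntMR
open Pool.Agent.Lib.MP_44a246_ntR (imI mem_imI)
open Pool.Agent.Lib.MP_44a246_ntD (trdeg_adjoin_lt)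
open WithZero MvPolynomial

universe u v w x

/-- two finite families of polynomials are defined over a field of finite transcendence degree -/
theorem exists_base_fld₂ {k : Type x} [Field k] [CharZero k] {σ τ ι ι' : Type*} [Finite ι]
    [Finite ι'] (f : ι → MvPolynomial σ k) (P : ι' → MvPolynomial τ k) :
    ∃ (k₀ : Type x) (_ : Field k₀) (_ : CharZero k₀) (_ : Algebra k₀ k),
      Algebra.trdeg ℚ k₀ < Cardinal.aleph0 ∧
      (∃ f₀ : ι → MvPolynomial σ k₀, ∀ i, map (algebraMap k₀ k) (f₀ i) = f i) ∧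
      ∃ P₀ : ι' → MvPolynomial τ k₀, ∀ i, map (algebraMap k₀ k) (P₀ i) = P i := by
  classical
  obtain ⟨g, hg, hg'⟩ : ∃ g : (Σ i, {m // m ∈ (f i).support}) ⊕
      (Σ i, {m // m ∈ (P i).support}) → k,
      (∀ s, g (Sum.inl s) = (f s.1).coeff s.2.1) ∧ ∀ s, g (Sum.inr s) = (P s.1).coeff s.2.1 :=
    ⟨Sum.elim (fun s => (f s.1).coeff s.2.1) (fun s => (P s.1).coeff s.2.1),
      fun _ => rfl, fun _ => rfl⟩
  have h0 : Algebra.trdeg ℚ ℚ < Cardinal.aleph0 := by
    rw [trdeg_eq_zero]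
    exact Cardinal.aleph0_pos
  have h1 := trdeg_adjoin_lt (F := ℚ) (K := k) h0 g
  obtain ⟨F, hF⟩ : ∃ F : IntermediateField ℚ k, F = IntermediateField.adjoin ℚ (Set.range g) :=
    ⟨_, rfl⟩
  rw [← hF] at h1
  have hmem : ∀ i m, (f i).coeff m ∈ F := by
    intro i m
    by_cases hm : m ∈ (f i).support
    · rw [hF, ← hg ⟨i, m, hm⟩]
      exact IntermediateField.subset_adjoin _ _ ⟨_, rfl⟩
    · rw [notMem_support_iff.1 hm]
      exact F.zero_mem
  have hmem' : ∀ i m, (P i).coeff m ∈ F := by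
    intro i m
    by_cases hm : m ∈ (P i).support
    · rw [hF, ← hg' ⟨i, m, hm⟩]
      exact IntermediateField.subset_adjoin _ _ ⟨_, rfl⟩
    · rw [notMem_support_iff.1 hm]
      exact F.zero_mem
  refine ⟨F, inferInstance, inferInstance, inferInstance, ?_, ⟨fun i =>
    ∑ m ∈ (f i).support, monomial m ⟨(f i).coeff m, hmem i m⟩, fun i => ?_⟩, ⟨fun i =>
    ∑ m ∈ (P i).support, monomial m ⟨(P i).coeff m, hmem' i m⟩, fun i => ?_⟩⟩
  · convert h1
  · rw [map_sum]
    conv_rhs => rw [(f i).as_sum]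
    exact Finset.sum_congr rfl fun m _ => by rw [map_monomial]; rfl
  · rw [map_sum]
    conv_rhs => rw [(P i).as_sum]
    exact Finset.sum_congr rfl fun m _ => by rw [map_monomial]; rfl

/-- **Close indices**, for all fields of definition -/
theorem close_all {κ : Type u} {K : Type v} [Field κ] [IsAlgClosed κ] [CharZero κ]
    [Field K] [CharZero K] [Algebra κ K] (hK : IsFF κ K) {k : Type x} [Field k] [CharZero k]
    [Algebra k K] {N n c q e dP s : ℕ} {d : Fin 1 → ℕ} (hd : d 0 = e * dP) {ee : Fin s → ℕ}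
    (f : Fin s → MvPolynomial (Fin 1 ⊕ Fin (N + 1)) k)
    (hf : ∀ i, (f i).IsWeightedHomogeneous (Sum.elim d fun _ => 1) (ee i))
    (hdim : ringKrullDim (MvPolynomial (Fin (N + 1)) k ⧸ (Ideal.span (Set.range f)).comap
      (rename (Sum.inr : Fin (N + 1) → Fin 1 ⊕ Fin (N + 1)))) ≤ ((n + 1 : ℕ) : WithBot ℕ∞))
    (P : Fin q → MvPolynomial (Fin (N + 1)) k) (hP : ∀ j, (P j).IsHomogeneous dP)
    (a : Fin q → K)
    (hgen : (q : Cardinal) ≤ Algebra.trdeg k (IntermediateField.adjoin k (Set.range a)) + c) :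
    ∃ C : ℕ, ∀ (L : Type w) [Field L] [Algebra K L] [FiniteDimensional K L] [Algebra κ L]
        [IsScalarTower κ K L] [Algebra k L] [IsScalarTower k K L] (v : Fin (N + 1) → L), v ≠ 0 →
        (∀ i, aeval (Sum.elim (fun _ => ∑ j, algebraMap K L (a j) * aeval v (P j) ^ e) v :
          Fin 1 ⊕ Fin (N + 1) → L) (f i) = 0) →
        (∃ (i : Fin s) (τ : L), aeval (Sum.elim (fun _ => τ) v :
          Fin 1 ⊕ Fin (N + 1) → L) (f i) ≠ 0) →
        ∀ S : Finset (Fin q), S.card = n + c + 1 → (∀ j ∈ S, aeval v (P j) ≠ 0) →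
        ∃ i ∈ S, ∃ j ∈ S, i ≠ j ∧
          (e : ℤ) * height κ ![aeval v (P i), aeval v (P j)] ≤
          (((n + 1) * (1 + tri (n + c) * (n + c + 1)) + tri (n + c) * (n + c + 1) * dP : ℕ) : ℤ) *
            height κ v +
          ((1 + tri (n + c) * (n + c + 1) + tri (n + c) : ℕ) : ℤ) * ramDeg κ L K +
          C * Module.finrank K L := by
  obtain ⟨k₀, _, _, _, htk, ⟨f₀, hf₀⟩, ⟨P₀, hP₀⟩⟩ := exists_base_fld₂ f P
  let _ : Algebra k₀ K := ((algebraMap k K).comp (algebraMap k₀ k)).toAlgebra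
  have s0 : IsScalarTower k₀ k K := IsScalarTower.of_algebraMap_eq fun _ => rfl
  obtain rfl : (fun i => map (algebraMap k₀ k) (f₀ i)) = f := funext hf₀
  obtain rfl : (fun i => map (algebraMap k₀ k) (P₀ i)) = P := funext hP₀
  have hf' : ∀ i, (f₀ i).IsWeightedHomogeneous (Sum.elim d fun _ => 1) (ee i) := by
    intro i m hm
    refine hf i ?_
    rw [coeff_map]
    exact fun h0 => hm ((map_eq_zero _).1 h0)
  have hP' : ∀ j, (P₀ j).IsHomogeneous dP := by
    intro j m hm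
    refine hP j ?_
    rw [coeff_map]
    exact fun h0 => hm ((map_eq_zero _).1 h0)
  have hdim' := (imDim_le (k₀ := k₀) (k := k)
    (e := (Sum.inr : Fin (N + 1) → Fin 1 ⊕ Fin (N + 1))) Sum.inr_injective f₀).trans hdim
  have hgen' : (q : Cardinal) ≤
      Algebra.trdeg k₀ (IntermediateField.adjoin k₀ (Set.range a)) + c := by
    refine hgen.trans ?_
    gcongr
    exact trdeg_adjoin_le (k₀ := k₀) (k := k) _
  obtain ⟨C, hC⟩ := close_core.{u, v, w, x} hK htk hd f₀ hf' hdim' P₀ hP' a hgen'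
  refine ⟨C, ?_⟩
  intro L _ _ _ _ _ _ _ x hx hxf hxt S hS hSx
  let _ : Algebra k₀ L := ((algebraMap k L).comp (algebraMap k₀ k)).toAlgebra
  have s1 : IsScalarTower k₀ k L := IsScalarTower.of_algebraMap_eq fun _ => rfl
  have s2 : IsScalarTower k₀ K L := IsScalarTower.of_algebraMap_eq fun c => by
    rw [IsScalarTower.algebraMap_apply k₀ k L, IsScalarTower.algebraMap_apply k K L,
      IsScalarTower.algebraMap_apply k₀ k K]
  simp only [aeval_map_algebraMap] at hxf hSx ⊢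
  refine hC L x hx hxf ?_ S hS hSx
  obtain ⟨i, τ, hi⟩ := hxt
  refine ⟨i, τ, fun h0 => hi ?_⟩
  rw [aeval_map_algebraMap]
  exact h0

end Pool.Agent.Lib.MP_44a246_ntFP
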