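import Mathlib
import Pool.Agent.Lib.MP_44a246_ntFP.FP14
import Pool.Agent.Lib.MP_44a246_ntFP.FP23

/-!
The height inequality with few parameters, for forms which are not proportional on curves.
-/

namespace Pool.Agent.Lib.MP_44a246_ntFP

open Pool.Agent.Lib.MP_44a246_nt
open Pool.Agent.Lib.MP_44a246_ntL
open Pool.Agent.Lib.MP_44a246_ntX
open Pool.Agent.Lib.MP_44a246_ntMS
open Pool.Agent.Lib.MP_44a246_ntK (wtP)
open WithZero MvPolynomial

universe u v w x y

/-- the value of the form `H = H₀ + ∑ a j * P j ^ e` at the point `x` -/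
noncomputable def hval {k₁ k K L : Type*} [Field k₁] [Field k] [Field K] [Field L]
    [Algebra k₁ L] [Algebra k L] [Algebra K L] {N q : ℕ} (H₀ : MvPolynomial (Fin (N + 1)) k)
    (P : Fin q → MvPolynomial (Fin (N + 1)) k₁) (e : ℕ) (a : Fin q → K)
    (x : Fin (N + 1) → L) : L :=
  aeval x H₀ + ∑ j, algebraMap K L (a j) * aeval x (P j) ^ e

/-- close indices for the points with `H (x) = 0` -/
theorem close_zero {κ : Type u} {K : Type v} [Field κ] [IsAlgClosed κ] [CharZero κ]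
    [Field K] [CharZero K] [Algebra κ K] (hK : IsFF κ K) {k₁ : Type y} [Field k₁]
    {k : Type x} [Field k] [CharZero k] [Algebra k₁ k] [Algebra k K]
    {N n c q e dP s : ℕ} {df : Fin s → ℕ}
    (f : Fin s → MvPolynomial (Fin (N + 1)) k) (hf : ∀ i, (f i).IsHomogeneous (df i))
    (hdim : ringKrullDim (MvPolynomial (Fin (N + 1)) k ⧸ Ideal.span (Set.range f)) ≤
      ((n + 1 : ℕ) : WithBot ℕ∞))
    {P : Fin q → MvPolynomial (Fin (N + 1)) k₁} (hP : ∀ j, (P j).IsHomogeneous dP)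
    {H₀ : MvPolynomial (Fin (N + 1)) k} (hH₀ : H₀.IsHomogeneous (e * dP)) (a : Fin q → K)
    (hgen : (q : Cardinal) ≤ Algebra.trdeg k (IntermediateField.adjoin k (Set.range a)) + c) :
    ∃ C : ℕ, ∀ (L : Type w) [Field L] [Algebra K L] [FiniteDimensional K L] [Algebra κ L]
        [IsScalarTower κ K L] [Algebra k L] [IsScalarTower k K L] [Algebra k₁ L]
        [IsScalarTower k₁ k L] (z : Fin (N + 1) → L), z ≠ 0 →
        (∀ i, aeval z (f i) = 0) → hval H₀ P e a z = 0 →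
        ∀ S : Finset (Fin q), S.card = n + c + 1 → (∀ j ∈ S, aeval z (P j) ≠ 0) →
        ∃ i ∈ S, ∃ j ∈ S, i ≠ j ∧
          (e : ℤ) * height κ ![aeval z (P i), aeval z (P j)] ≤
          (((n + 1) * (1 + tri (n + c) * (n + c + 1)) + tri (n + c) * (n + c + 1) * dP : ℕ) : ℤ) *
            height κ z +
          ((1 + tri (n + c) * (n + c + 1) + tri (n + c) : ℕ) : ℤ) * ramDeg κ L K +
          C * Module.finrank K L := by
  classical
  obtain ⟨f', hf'⟩ : ∃ f' : Fin (s + 1) → MvPolynomial (Fin 1 ⊕ Fin (N + 1)) k,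
      f' = Fin.cons (X (Sum.inl 0) + rename Sum.inr H₀) fun i => rename Sum.inr (f i) := ⟨_, rfl⟩
  obtain ⟨ee, hee⟩ : ∃ ee : Fin (s + 1) → ℕ, ee = Fin.cons (e * dP) df := ⟨_, rfl⟩
  obtain ⟨d, hd⟩ : ∃ d : Fin 1 → ℕ, d = fun _ => e * dP := ⟨_, rfl⟩
  have hren : ∀ {Q : MvPolynomial (Fin (N + 1)) k} {E : ℕ}, Q.IsHomogeneous E →
      (rename Sum.inr Q : MvPolynomial (Fin 1 ⊕ Fin (N + 1)) k).IsWeightedHomogeneous
        (Sum.elim d fun _ => 1) E := by
    intro Q E hQ m hm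
    obtain ⟨m', rfl, hm'⟩ := coeff_rename_ne_zero _ _ _ hm
    have h1 := hQ hm'
    rw [← h1, Finsupp.weight_apply, Finsupp.weight_apply,
      Finsupp.sum_mapDomain_index (h := fun i c => c • (Sum.elim d (fun _ => 1) :
        Fin 1 ⊕ Fin (N + 1) → ℕ) i) (fun _ => zero_smul _ _) (fun _ _ _ => add_smul _ _ _)]
    rfl
  have hwf : ∀ i, (f' i).IsWeightedHomogeneous (Sum.elim d fun _ => 1) (ee i) := by
    intro i
    rw [hf', hee]
    refine Fin.cases ?_ (fun i => ?_) i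
    · rw [Fin.cons_zero, Fin.cons_zero]
      refine IsWeightedHomogeneous.add ?_ (hren hH₀)
      have h1 := isWeightedHomogeneous_X k (Sum.elim d fun _ => 1 : Fin 1 ⊕ Fin (N + 1) → ℕ)
        (Sum.inl 0)
      have h2 : (Sum.elim d (fun _ => 1) : Fin 1 ⊕ Fin (N + 1) → ℕ) (Sum.inl 0) = e * dP := by
        rw [hd]
        rfl
      rwa [h2] at h1
    · rw [Fin.cons_succ, Fin.cons_succ]
      exact hren (hf i)
  have hle : Ideal.span (Set.range f) ≤ (Ideal.span (Set.range f')).comap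
      (rename (Sum.inr : Fin (N + 1) → Fin 1 ⊕ Fin (N + 1))) := by
    refine Ideal.span_le.2 ?_
    rintro _ ⟨i, rfl⟩
    rw [SetLike.mem_coe, Ideal.mem_comap]
    refine Ideal.subset_span ⟨i.succ, ?_⟩
    rw [hf', Fin.cons_succ]
  have hdim' : ringKrullDim (MvPolynomial (Fin (N + 1)) k ⧸ (Ideal.span (Set.range f')).comap
      (rename (Sum.inr : Fin (N + 1) → Fin 1 ⊕ Fin (N + 1)))) ≤ ((n + 1 : ℕ) : WithBot ℕ∞) :=
    (ringKrullDim_le_of_surjective (Ideal.Quotient.factor hle)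
      (Ideal.Quotient.factor_surjective hle)).trans hdim
  obtain ⟨C, hC⟩ := close_all.{u, v, w, x} hK (d := d) (dP := dP) (e := e) (by rw [hd]) f' hwf hdim'
    (fun j => map (algebraMap k₁ k) (P j)) (fun j => (hP j).map _) a hgen
  refine ⟨C, ?_⟩
  intro L _ _ _ _ _ _ _ _ _ z hz hzf hH S hS hSz
  unfold hval at hH
  have hC' := hC L z hz
  simp only [aeval_map_algebraMap] at hC'
  refine hC' (fun i => ?_) ⟨0, 1 - aeval z H₀, ?_⟩ S hS hSz
  · rw [hf']
    refine Fin.cases ?_ (fun i => ?_) i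
    · rw [Fin.cons_zero, map_add, aeval_X, Sum.elim_inl, aeval_rename, ← hH, add_comm]
      rfl
    · rw [Fin.cons_succ, aeval_rename]
      exact hzf i
  · rw [hf', Fin.cons_zero, map_add, aeval_X, Sum.elim_inl, aeval_rename]
    have h1 : aeval (((Sum.elim (fun _ => 1 - aeval z H₀) z : Fin 1 ⊕ Fin (N + 1) → L)) ∘
        Sum.inr) H₀ = aeval z H₀ := rfl
    rw [h1, sub_add_cancel]
    exact one_ne_zero

/-- the last step -/
theorem final_arith {θ C₁ A B e : ℕ} (hC₁ : 1 ≤ C₁) (hB : 1 ≤ B) (he : C₁ * (A + θ * B) ≤ e)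
    {h M R W F C₂ : ℤ} (hh : 0 ≤ h) (hW : 0 ≤ W) (hF : 0 ≤ F) (hC₂ : 0 ≤ C₂)
    (hle : (e : ℤ) * h ≤ C₁ * (A * h + B * (M + R) + W * F) + e * (C₂ * F)) :
    (θ : ℤ) * h ≤ M + R + (W + e * C₂) * F := by
  have h1 : ((C₁ * (A + θ * B) : ℕ) : ℤ) ≤ e := by exact_mod_cast he
  have h2 := mul_le_mul_of_nonneg_right h1 hh
  push_cast at h2
  have hCB : (1 : ℤ) ≤ C₁ * B := by
    have h3 : 1 ≤ C₁ * B := Nat.one_le_iff_ne_zero.2 (by positivity)
    exact_mod_cast h3
  have hB' : (1 : ℤ) ≤ B := by exact_mod_cast hB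
  have hC₁' : (1 : ℤ) ≤ C₁ := by exact_mod_cast hC₁
  have hWF : 0 ≤ W * F := mul_nonneg hW hF
  have heF : 0 ≤ (e : ℤ) * (C₂ * F) :=
    mul_nonneg (Int.natCast_nonneg _) (mul_nonneg hC₂ hF)
  have h4 : (C₁ * B : ℤ) * (θ * h) ≤ (C₁ * B : ℤ) * (M + R + (W + e * C₂) * F) := by
    have h5 : (C₁ : ℤ) * (W * F) ≤ (C₁ * B : ℤ) * (W * F) := by
      refine mul_le_mul_of_nonneg_right ?_ hWF
      nlinarith
    have h6 : (e : ℤ) * (C₂ * F) ≤ (C₁ * B : ℤ) * (e * (C₂ * F)) := by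
      nlinarith
    nlinarith
  exact le_of_mul_le_mul_left h4 (by linarith)

/-- **The height inequality with few parameters**, for the points with `H (x) = 0`. -/
theorem few_zero {k₁ : Type y} [Field k₁] {N m q n c dP : ℕ}
    {g : Fin m → MvPolynomial (Fin (N + 1)) k₁} {dg : Fin m → ℕ}
    (hg : ∀ i, (g i).IsHomogeneous (dg i)) {P : Fin q → MvPolynomial (Fin (N + 1)) k₁}
    (hP : ∀ j, (P j).IsHomogeneous dP) (hsep : Sep g P (n + c + 1)) (θ : ℕ) :
    ∃ e₀ : ℕ, ∀ (κ : Type u) (K : Type v) [Field κ] [IsAlgClosed κ] [CharZero κ] [Field K]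
      [CharZero K] [Algebra κ K], IsFF κ K → ∀ (k : Type x) [Field k] [CharZero k]
      [Algebra k₁ k] [Algebra k K] (e : ℕ), e₀ ≤ e → ∀ {s : ℕ} {df : Fin s → ℕ}
      (f : Fin s → MvPolynomial (Fin (N + 1)) k), (∀ i, (f i).IsHomogeneous (df i)) →
      ringKrullDim (MvPolynomial (Fin (N + 1)) k ⧸ Ideal.span (Set.range f)) ≤
        ((n + 1 : ℕ) : WithBot ℕ∞) →
      ∀ (H₀ : MvPolynomial (Fin (N + 1)) k), H₀.IsHomogeneous (e * dP) → ∀ (a : Fin q → K),
      (q : Cardinal) ≤ Algebra.trdeg k (IntermediateField.adjoin k (Set.range a)) + c →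
      ∃ C : ℕ, ∀ (L : Type w) [Field L] [Algebra K L] [FiniteDimensional K L] [Algebra κ L]
        [IsScalarTower κ K L] [Algebra k L] [IsScalarTower k K L] [Algebra k₁ L]
        [IsScalarTower k₁ k L] (z : Fin (N + 1) → L), z ≠ 0 →
        (∀ i, aeval z (g i) = 0) → (∀ i, aeval z (f i) = 0) → hval H₀ P e a z = 0 →
        (θ : ℤ) * height κ z ≤ ramDeg κ L K + C * Module.finrank K L := by
  obtain ⟨C₁, hC₁⟩ := hsep.height_of_close hg hP
  obtain ⟨A, hA⟩ : ∃ A : ℕ, A = (n + 1) * (1 + tri (n + c) * (n + c + 1)) +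
    tri (n + c) * (n + c + 1) * dP := ⟨_, rfl⟩
  obtain ⟨B, hB⟩ : ∃ B : ℕ, B = 1 + tri (n + c) * (n + c + 1) + tri (n + c) := ⟨_, rfl⟩
  refine ⟨(C₁ + 1) * (A + θ * B), ?_⟩
  intro κ K _ _ _ _ _ _ hK k _ _ _ _ e he s df f hf hdim H₀ hH₀ a hgen
  let _ : Algebra k₁ K := ((algebraMap k K).comp (algebraMap k₁ k)).toAlgebra
  have s0 : IsScalarTower k₁ k K := IsScalarTower.of_algebraMap_eq fun _ => rfl
  obtain ⟨C₂, hC₂⟩ := hC₁ κ K hK
  obtain ⟨W, hW⟩ := close_zero.{u, v, w, x, y} hK f hf hdim hP hH₀ a hgen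
  refine ⟨W + e * C₂, ?_⟩
  intro L _ _ _ _ _ _ _ _ _ z hz hzg hzf hH
  have s2 : IsScalarTower k₁ K L := IsScalarTower.of_algebraMap_eq fun c => by
    rw [IsScalarTower.algebraMap_apply k₁ k L, IsScalarTower.algebraMap_apply k K L,
      IsScalarTower.algebraMap_apply k₁ k K]
  have hLc : CharZero L := charZero_of_injective_algebraMap (algebraMap K L).injective
  have hL : IsFF κ L := hK.of_finite
  have hh : 0 ≤ height κ z := hL.height_nonneg hz
  have hF : (0 : ℤ) ≤ Module.finrank K L := Int.natCast_nonneg _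
  have hR : (0 : ℤ) ≤ ramDeg κ L K := Int.natCast_nonneg _
  have h1 := hC₂ L z hz hzg e (A * height κ z + B * (0 + ramDeg κ L K) +
    W * Module.finrank K L) (by positivity) (fun S hS hSz => by
      obtain ⟨i, hi, j, hj, hij, hle⟩ := hW L z hz hzf hH S hS hSz
      refine ⟨i, hi, j, hj, hij, hle.trans (le_of_eq ?_)⟩
      rw [hA, hB, zero_add])
  have h2 := final_arith (θ := θ) (C₁ := C₁ + 1) (A := A) (B := B) (e := e) (by omega)
    (by omega) he (h := height κ z) (M := 0) (R := ramDeg κ L K) (W := W)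
    (F := Module.finrank K L) (C₂ := C₂) hh (Int.natCast_nonneg _) hF (Int.natCast_nonneg _)
    (h1.trans (by
      refine add_le_add (mul_le_mul_of_nonneg_right ?_ (by positivity)) le_rfl
      push_cast
      linarith))
  rw [zero_add] at h2
  push_cast
  exact h2

end Pool.Agent.Lib.MP_44a246_ntFP
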