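import Mathlib
import Pool.Agent.Lib.MP_44a246_ntFP.FP05
import Pool.Agent.Lib.MP_44a246_ntFP.FP24

/-!
The height inequality with few parameters, for forms in general position.
-/

namespace Pool.Agent.Lib.MP_44a246_ntFP

open Pool.Agent.Lib.MP_44a246_nt
open Pool.Agent.Lib.MP_44a246_ntL
open Pool.Agent.Lib.MP_44a246_ntX
open Pool.Agent.Lib.MP_44a246_ntMS
open Pool.Agent.Lib.MP_44a246_ntR (imI mem_imI)
open WithZero MvPolynomial

universe u v w x y

/-- renaming and weights -/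
theorem rename_weighted {k σ τ : Type*} [Field k] {w : σ → ℕ} {w' : τ → ℕ} {f : σ → τ}
    (hf : ∀ i, w' (f i) = w i) {Q : MvPolynomial σ k} {E : ℕ}
    (hQ : Q.IsWeightedHomogeneous w E) : (rename f Q).IsWeightedHomogeneous w' E := by
  intro m hm
  obtain ⟨m', rfl, hm'⟩ := coeff_rename_ne_zero _ _ _ hm
  have h1 := hQ hm'
  rw [← h1, Finsupp.weight_apply, Finsupp.weight_apply,
    Finsupp.sum_mapDomain_index (h := fun i c => c • w' i) (fun _ => zero_smul _ _)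
      (fun _ _ _ => add_smul _ _ _)]
  refine Finsupp.sum_congr fun i _ => ?_
  rw [hf]

/-- Any `r` of the forms `P j` have no common zero on the variety `{g = 0}`. -/
def NoZero {k : Type x} [Field k] {N m q : ℕ} (g : Fin m → MvPolynomial (Fin (N + 1)) k)
    (P : Fin q → MvPolynomial (Fin (N + 1)) k) (r : ℕ) : Prop :=
  ∀ S : Finset (Fin q), S.card = r → ∀ y : Fin (N + 1) → AlgebraicClosure k,
    (∀ i, aeval y (g i) = 0) → (∀ j ∈ S, aeval y (P j) = 0) → y = 0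

/-- **Close pairs and forms in general position.** -/
theorem NoZero.height_of_close {k : Type x} [Field k] {N m q ν r dP : ℕ}
    {g : Fin m → MvPolynomial (Fin (N + 1)) k} {P : Fin q → MvPolynomial (Fin (N + 1)) k}
    {dg : Fin m → ℕ} (hg : ∀ i, (g i).IsHomogeneous (dg i)) (hP : ∀ j, (P j).IsHomogeneous dP)
    (h : NoZero g P (r + 1)) (hν : 1 ≤ ν) (hq : r * ν < q)
    {κ : Type u} {K : Type v} [Field κ] [IsAlgClosed κ]
    [CharZero κ] [Field K] [CharZero K] [Algebra κ K] (hK : IsFF κ K) [Algebra k K] :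
    ∃ C : ℕ, ∀ (L : Type w) [Field L] [Algebra K L] [FiniteDimensional K L] [Algebra κ L]
      [IsScalarTower κ K L] [Algebra k L] [IsScalarTower k K L] (z : Fin (N + 1) → L),
      z ≠ 0 → (∀ i, aeval z (g i) = 0) → ∀ (e : ℕ) (E₁ : ℤ), 0 ≤ E₁ →
      (∀ S : Finset (Fin q), S.card = ν + 1 → (∀ j ∈ S, aeval z (P j) ≠ 0) →
        ∃ i ∈ S, ∃ j ∈ S, i ≠ j ∧
          (e : ℤ) * height κ ![aeval z (P i), aeval z (P j)] ≤ E₁) →
      ((e * dP : ℕ) : ℤ) * height κ z ≤ r * E₁ + e * (C * Module.finrank K L) := by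
  classical
  obtain ⟨f, hf⟩ : ∃ f : Fin m → MvPolynomial (Fin 0 ⊕ Fin (N + 1)) k,
      f = fun i => rename Sum.inr (g i) := ⟨_, rfl⟩
  have hwf : ∀ i, (f i).IsWeightedHomogeneous
      (Sum.elim (fun _ : Fin 0 => 0) fun _ => 1) (dg i) := by
    intro i
    rw [hf]
    exact rename_weighted (w := 1) (f := (Sum.inr : Fin (N + 1) → Fin 0 ⊕ Fin (N + 1)))
      (fun _ => rfl) (hg i)
  have hgI : ∀ i, g i ∈ imI f := by
    intro i
    rw [mem_imI]
    refine Ideal.subset_span ⟨i, ?_⟩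
    rw [hf]
  obtain ⟨C₀, hC₀, hgp⟩ := general_position_height.{u, v, w} (κ := κ) hK (r := r + 1) hwf hP
    (fun S hS y hy hyP => h S hS y (fun i => hy _ (hgI i)) hyP)
  refine ⟨C₀.toNat, ?_⟩
  rw [Int.toNat_of_nonneg hC₀]
  intro L _ _ _ _ _ _ _ z hz hzg e E₁ hE₁ hclose
  have hLc : CharZero L := charZero_of_injective_algebraMap (algebraMap K L).injective
  have hL : IsFF κ L := hK.of_finite
  have hzI : ∀ Q ∈ imI f, aeval z Q = 0 := by
    intro Q hQ
    refine imI_zero (h := fun _ : Fin 0 => (0 : L)) (fun i => ?_) hQ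
    rw [hf, aeval_rename]
    exact hzg i
  obtain ⟨S, hSc, hSh⟩ := exists_small hL (e := e) (u := fun j => aeval z (P j)) hE₁ hν hq
    (fun S hSc => (hgp hz hzI S hSc).1) hclose
  have h2 := (hgp hz hzI S hSc).2
  have h4 := mul_le_mul_of_nonneg_left h2 (Int.natCast_nonneg e)
  push_cast
  linarith

theorem two_mul_tri (ν : ℕ) : 2 * tri ν = ν * (ν - 1) := by
  unfold tri
  rw [← Finset.sum_range (fun i => i), mul_comm, Finset.sum_range_id_mul_two]

theorem tri_bounds (ν : ℕ) : 1 + tri ν * (ν + 1) + tri ν ≤ (ν + 1) ^ 3 := by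
  have h1 := two_mul_tri ν
  rcases ν with _ | ν
  · simp [tri]
  · rw [Nat.add_sub_cancel] at h1
    nlinarith [Nat.zero_le (tri (ν + 1))]

/-- the last step for forms in general position -/
theorem final_arith_gp {θ n ν r δ e : ℕ} (hr : 1 ≤ r) (hδ : 1 ≤ δ)
    (he : r * (ν + 1) ^ 3 * (n + θ + 2) ≤ e)
    {h M R W F C₂ : ℤ} (hh : 0 ≤ h) (hW : 0 ≤ W) (hF : 0 ≤ F) (hC₂ : 0 ≤ C₂)
    (hle : ((e * δ : ℕ) : ℤ) * h ≤ r * ((((n + 1) * (1 + tri ν * (ν + 1)) +
      tri ν * (ν + 1) * δ : ℕ) : ℤ) * h + ((1 + tri ν * (ν + 1) + tri ν : ℕ) : ℤ) * (M + R) +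
      W * F) + e * (C₂ * F)) :
    (θ : ℤ) * h ≤ M + R + (W + ((e * δ : ℕ) : ℤ) * C₂) * F := by
  have h1 := tri_bounds ν
  refine final_arith (C₁ := r) (A := (n + 1) * (1 + tri ν * (ν + 1)) + tri ν * (ν + 1) * δ)
    (B := 1 + tri ν * (ν + 1) + tri ν) (e := e * δ) hr (by omega) ?_ hh hW hF hC₂
    (hle.trans (add_le_add le_rfl ?_))
  · obtain ⟨U, hU⟩ : ∃ U, U = (ν + 1) ^ 3 := ⟨_, rfl⟩
    rw [← hU] at he h1
    have h2 : (n + 1) * (1 + tri ν * (ν + 1)) + tri ν * (ν + 1) * δ +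
        θ * (1 + tri ν * (ν + 1) + tri ν) ≤ U * (n + θ + 2) * δ := by
      obtain ⟨V, hV⟩ : ∃ V, V = tri ν * (ν + 1) := ⟨_, rfl⟩
      rw [← hV] at h1 ⊢
      have h3 : (n + 1) * (1 + V) ≤ (n + 1) * U * δ := by
        calc (n + 1) * (1 + V) ≤ (n + 1) * U := Nat.mul_le_mul_left _ (by omega)
          _ ≤ (n + 1) * U * δ := Nat.le_mul_of_pos_right _ hδ
      have h4 : V * δ ≤ U * δ := Nat.mul_le_mul_right _ (by omega)
      have h5 : θ * (1 + V + tri ν) ≤ θ * U * δ := by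
        calc θ * (1 + V + tri ν) ≤ θ * U := Nat.mul_le_mul_left _ h1
          _ ≤ θ * U * δ := Nat.le_mul_of_pos_right _ hδ
      calc _ ≤ (n + 1) * U * δ + U * δ + θ * U * δ := by omega
        _ = U * (n + θ + 2) * δ := by ring
    calc r * ((n + 1) * (1 + tri ν * (ν + 1)) + tri ν * (ν + 1) * δ +
        θ * (1 + tri ν * (ν + 1) + tri ν)) ≤ r * (U * (n + θ + 2) * δ) :=
          Nat.mul_le_mul_left _ h2
      _ = r * U * (n + θ + 2) * δ := by ring
      _ ≤ e * δ := Nat.mul_le_mul_right _ he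
  · refine mul_le_mul_of_nonneg_right ?_ (mul_nonneg hC₂ hF)
    exact_mod_cast Nat.le_mul_of_pos_right _ hδ

end Pool.Agent.Lib.MP_44a246_ntFP
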