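import Mathlib
import Pool.Agent.Lib.MP_44a246_ntML.ML05
import Pool.Agent.Lib.MP_44a246_ntFP.FP07
import Pool.Agent.Lib.MP_44a246_ntFP.FP11

/-!
Close indices for a point over a finite extension of a function field, outside the divisor.
-/

namespace Pool.Agent.Lib.MP_44a246_ntFP

open Pool.Agent.Lib.MP_44a246_nt
open Pool.Agent.Lib.MP_44a246_ntL
open Pool.Agent.Lib.MP_44a246_ntX
open Pool.Agent.Lib.MP_44a246_ntK (der_aevalG wtP)
open Pool.Agent.Lib.MP_44a246_ntR (imI card_le_of_dimI_norm)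
open Pool.Agent.Lib.MP_44a246_ntU (exists_der_comb)
open Pool.Agent.Lib.MP_44a246_ntML (finite_ne_vmax)
open WithZero MvPolynomial

/-- **Close indices**, from a relation with coefficients of bounded height. -/
theorem close_of_rel {κ K L : Type*} [Field κ] [IsAlgClosed κ] [CharZero κ] [Field K] [CharZero K]
    [Algebra κ K] (hK : IsFF κ K) [Field L] [CharZero L] [Algebra K L] [FiniteDimensional K L]
    [Algebra κ L] [IsScalarTower κ K L] {k₀ : Type*} [Field k₀] [CharZero k₀] [Algebra k₀ K]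
    [Algebra k₀ L] [IsScalarTower k₀ K L] {ι : Type*} [Fintype ι] {E : ι → Derivation ℤ K K}
    {A B₀ : Place κ K → ℕ} (hA : (Function.support A).Finite) (hB₀ : (Function.support B₀).Finite)
    {D₀ : Derivation κ K K} (hD₀ : D₀ ≠ 0) (hPB₀ : PoleBound κ (D₀.restrictScalars ℤ) B₀)
    {N q dP : ℕ} {P : Fin q → MvPolynomial (Fin N) k₀} (hP : ∀ j, (P j).IsHomogeneous dP)
    (hPA : ∀ j m (v : Place κ K), v.1 (algebraMap k₀ K (coeff m (P j))) ≤ exp (A v : ℤ))
    {a : Fin q → K} {e : ℕ} {S : Finset (Fin q)} {ν : ℕ} (hS : S.card = ν + 1)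
    (hES : ∀ l, ∀ j ∉ S, E l (a j) = 0) (hEA : ∀ l j (v : Place κ K), v.1 (E l (a j)) ≤
      exp (A v : ℤ))
    (hEind : ∀ M : ι → L, (∀ j, ∑ l, M l * algebraMap K L (E l (a j)) = 0) → M = 0)
    {j₀ : Fin N} {x : Fin N → L} (hx : x j₀ = 1) (hu : ∀ j ∈ S, aeval x (P j) ≠ 0)
    {M : ι → L} (hM0 : M ≠ 0)
    (hrel : ∑ j, (∑ l, M l * algebraMap K L (E l (a j))) * aeval x (P j) ^ e = 0)
    {c : ℕ} {φ : Place κ L → ℕ} (hφ : (Function.support φ).Finite)
    (hMle : ∀ l (w : Place κ L), w.1 (M l) ≤ vmax w.1 x ^ c * exp (φ w : ℤ)) :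
    ∃ i ∈ S, ∃ j ∈ S, i ≠ j ∧ (e : ℤ) * height κ ![aeval x (P i), aeval x (P j)] ≤
      ((c * (1 + tri ν * (ν + 1)) + tri ν * (ν + 1) * dP : ℕ) : ℤ) * height κ x +
      ((1 + tri ν * (ν + 1) : ℕ) : ℤ) * ((∑ᶠ w, (φ w : ℤ)) +
        Module.finrank K L * ∑ᶠ v, (A v : ℤ)) +
      ((tri ν * (ν + 1) : ℕ) : ℤ) * (Module.finrank K L * ∑ᶠ v, (A v : ℤ)) +
      tri ν * (Module.finrank K L * ∑ᶠ v, (B₀ v : ℤ) + ramDeg κ L K) := by
  classical
  have hL : IsFF κ L := hK.of_finite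
  have hx0 : x ≠ 0 := by
    intro h0
    rw [h0] at hx
    exact zero_ne_one hx
  obtain ⟨M', hM'⟩ : ∃ M' : Fin q → L, M' = fun j => ∑ l, M l * algebraMap K L (E l (a j)) :=
    ⟨_, rfl⟩
  have hM'S : ∀ j ∉ S, M' j = 0 := by
    intro j hj
    rw [hM']
    refine Finset.sum_eq_zero fun l _ => ?_
    rw [hES l j hj, map_zero, mul_zero]
  have hM'0 : (fun j : S => M' j) ≠ 0 := by
    intro h0
    refine hM0 (hEind M fun j => ?_)
    by_cases hj : j ∈ S
    · have h1 := congrFun h0 ⟨j, hj⟩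
      rw [hM'] at h1
      exact h1
    · have h1 := hM'S j hj
      rw [hM'] at h1
      exact h1
  -- the derivation over the constants
  obtain ⟨D₀', hD₀'⟩ := exists_extension (K := K) (L := L) (D₀.restrictScalars ℤ)
  have hDκ : ∀ c : κ, D₀' (algebraMap κ L c) = 0 := by
    intro c
    rw [IsScalarTower.algebraMap_apply κ K L, hD₀']
    have h1 : (D₀.restrictScalars ℤ) (algebraMap κ K c) = 0 := D₀.map_algebraMap c
    rw [h1, map_zero]
  obtain ⟨DL, hDL⟩ : ∃ DL : Derivation κ L L, ∀ y, DL y = D₀' y := ⟨toLinearDer D₀' hDκ,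
    fun y => rfl⟩
  obtain ⟨z, hz⟩ : ∃ z, D₀ z ≠ 0 := by
    by_contra hcon
    push Not at hcon
    exact hD₀ (Derivation.ext fun s => hcon s)
  have hDL0 : ∀ y, DL y = 0 → ∃ c, algebraMap κ L c = y := by
    intro y hy
    refine mason_const hL DL (s := algebraMap K L z) ?_ hy
    rw [hDL, hD₀']
    exact (_root_.map_ne_zero _).2 hz
  -- the supports and the sums
  obtain ⟨a3, a4⟩ := mason_sum_over (L := L) hL hA
  obtain ⟨a5, a6⟩ := mason_sum_over (L := L) hL hB₀
  obtain ⟨a7, a8⟩ := mason_sum_ram (K := K) hL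
  have hcast : ∀ {φ : Place κ L → ℕ}, (Function.support fun w => ((φ w : ℕ) : ℤ)).Finite →
      (Function.support φ).Finite := by
    intro φ hφ
    refine hφ.subset fun w hw => ?_
    rw [Function.mem_support] at hw ⊢
    exact_mod_cast hw
  have hcast' : ∀ {φ : Place κ K → ℕ}, (Function.support φ).Finite →
      ((∑ᶠ v, φ v : ℕ) : ℤ) = ∑ᶠ v, (φ v : ℤ) := by
    intro φ hφ
    exact map_finsum (Nat.castAddMonoidHom ℤ) hφ
  rw [hcast' hA] at a4
  rw [hcast' hB₀] at a6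
  have hcard : Fintype.card S = ν + 1 := by rw [Fintype.card_coe, hS]
  have hSne : Nonempty S := by
    rw [← Fintype.card_pos_iff, hcard]
    omega
  -- the heights
  have hu0 : (fun j : S => aeval x (P j)) ≠ 0 := by
    intro h0
    exact hu _ (Classical.arbitrary S).2 (congrFun h0 (Classical.arbitrary S))
  have hAw : ∀ (w : Place κ L) (y : K), (below K w).1 y ≤ exp (A (below K w) : ℤ) →
      w.1 (algebraMap K L y) ≤ exp ((ramIdx K w.1 * A (below K w) : ℕ) : ℤ) := by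
    intro w y hy
    rw [below_pow]
    refine (pow_le_pow_left' hy (ramIdx K w.1)).trans (le_of_eq ?_)
    rw [← exp_nsmul, nsmul_eq_mul]
    push_cast
    rfl
  have hφ1 : (Function.support fun w : Place κ L => φ w + ramIdx K w.1 * A (below K w)).Finite :=
    (hφ.union (hcast a3)).subset (Function.support_add _ _)
  have hφz : (Function.support fun w : Place κ L => (φ w : ℤ)).Finite := by
    refine hφ.subset fun w hw h1 => hw ?_
    simp only at h1 ⊢
    rw [h1, Nat.cast_zero]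
  have hhM : height κ (fun j : S => M' j) ≤ (c : ℤ) * height κ x +
      ((∑ᶠ w, (φ w : ℤ)) + Module.finrank K L * ∑ᶠ v, (A v : ℤ)) := by
    refine (height_le_pow hL hM'0 hx0 (c := c) hφ1 fun w => ?_).trans (le_of_eq ?_)
    · refine vmax_le w.1 fun j => ?_
      rw [hM']
      refine Valuation.map_sum_le _ fun l _ => ?_
      rw [map_mul]
      refine (mul_le_mul' (hMle l w) (hAw w _ (hEA l _ _))).trans (le_of_eq ?_)
      rw [mul_assoc, ← exp_add]
      congr 2
    · congr 1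
      have e1 : ∑ᶠ w : Place κ L, ((φ w + ramIdx K w.1 * A (below K w) : ℕ) : ℤ) =
          ∑ᶠ w : Place κ L, ((φ w : ℤ) + ((ramIdx K w.1 * A (below K w) : ℕ) : ℤ)) := by
        refine finsum_congr fun w => ?_
        push_cast
        ring
      rw [e1, finsum_add_distrib hφz a3, a4]
      ring
  have hhu : height κ (fun j : S => aeval x (P j)) ≤ dP * height κ x +
      Module.finrank K L * ∑ᶠ v, (A v : ℤ) := by
    refine (height_le_pow hL hu0 hx0 (c := dP) (hcast a3) fun w => ?_).trans (le_of_eq ?_)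
    · refine vmax_le w.1 fun j => ?_
      refine form_le w.1 (hP j) fun m => ?_
      rw [IsScalarTower.algebraMap_apply k₀ K L]
      exact hAw w _ (hPA _ _ _)
    · rw [a4]
      ring
  -- the close indices
  obtain ⟨i, j, hij, hclose⟩ := exists_close hL DL hDL0
    (β := fun w => ramIdx K w.1 * B₀ (below K w) + (ramIdx K w.1 - 1)) (by
      refine ((hcast a5).union (hcast a7)).subset ?_
      intro w hw
      rw [Function.mem_support] at hw
      by_contra hcon
      rw [Set.mem_union, not_or, Function.notMem_support, Function.notMem_support] at hcon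
      apply hw
      rw [hcon.1, hcon.2, add_zero])
    (fun w y hy => by
      rw [hDL]
      exact polar_over (K := K) hL hD₀' hPB₀ w hy)
    (M := fun j : S => M' j) (u := fun j : S => aeval x (P j)) (fun j => hu j j.2) hM'0 (e := e)
    (by
      rw [← hrel, hM']
      have h1 := Finset.sum_coe_sort S (fun j => (∑ l, M l * algebraMap K L (E l (a j))) *
        aeval x (P j) ^ e)
      rw [h1]
      refine Finset.sum_subset (Finset.subset_univ _) fun j _ hj => ?_
      have h2 := hM'S j hj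
      rw [hM'] at h2
      simp only at h2
      rw [h2, zero_mul])
  refine ⟨i, i.2, j, j.2, fun h1 => hij (Subtype.ext h1), hclose.trans ?_⟩
  have hβ : ∑ᶠ w : Place κ L, ((ramIdx K w.1 * B₀ (below K w) + (ramIdx K w.1 - 1) : ℕ) : ℤ) =
      Module.finrank K L * ∑ᶠ v, (B₀ v : ℤ) + ramDeg κ L K := by
    have e1 : ∑ᶠ w : Place κ L, ((ramIdx K w.1 * B₀ (below K w) + (ramIdx K w.1 - 1) : ℕ) : ℤ) =
        ∑ᶠ w : Place κ L, (((ramIdx K w.1 * B₀ (below K w) : ℕ) : ℤ) +
          ((ramIdx K w.1 - 1 : ℕ) : ℤ)) := by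
      refine finsum_congr fun w => ?_
      push_cast
      ring
    rw [e1, finsum_add_distrib a5 a7, a6, a8]
    ring
  rw [hβ, hcard, Nat.add_sub_cancel]
  have hT : (0 : ℤ) ≤ (tri ν : ℤ) := Int.natCast_nonneg _
  obtain ⟨FA, hFA⟩ : ∃ FA : ℤ, FA = Module.finrank K L * ∑ᶠ v, (A v : ℤ) := ⟨_, rfl⟩
  obtain ⟨FB, hFB⟩ : ∃ FB : ℤ, FB = Module.finrank K L * ∑ᶠ v, (B₀ v : ℤ) := ⟨_, rfl⟩
  obtain ⟨Fφ, hFφ⟩ : ∃ Fφ : ℤ, Fφ = ∑ᶠ w, (φ w : ℤ) := ⟨_, rfl⟩
  rw [← hFA, ← hFφ] at hhM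
  rw [← hFA] at hhu
  rw [← hFA, ← hFB, ← hFφ]
  have h1 : height κ (fun j : S => M' j) + (tri ν : ℤ) * (((ν + 1 : ℕ) : ℤ) *
      (height κ (fun j : S => M' j) + height κ (fun j : S => aeval x (P j))) +
      (FB + ramDeg κ L K)) ≤
      ((c : ℤ) * height κ x + (Fφ + FA)) + (tri ν : ℤ) * (((ν + 1 : ℕ) : ℤ) *
      (((c : ℤ) * height κ x + (Fφ + FA)) + (dP * height κ x + FA)) +
      (FB + ramDeg κ L K)) := by
    refine add_le_add hhM (mul_le_mul_of_nonneg_left (add_le_add (mul_le_mul_of_nonneg_left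
      (add_le_add hhM hhu) (Int.natCast_nonneg _)) le_rfl) hT)
  refine h1.trans (le_of_eq ?_)
  push_cast
  ring

/-- the number of the places where an element is not of the maximal size -/
theorem sum_eta {κ L : Type*} [Field κ] [IsAlgClosed κ] [CharZero κ] [Field L]
    [CharZero L] [Algebra κ L] (h : IsFF κ L) {n : ℕ} {x : Fin n → L} (hx : x ≠ 0) {u : L}
    (hu : u ≠ 0) (d : ℕ) : ∃ η : Place κ L → ℕ, (Function.support η).Finite ∧
      (∀ w : Place κ L, w.1 u ≠ vmax w.1 x ^ d → 1 ≤ η w) ∧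
      ∑ᶠ w, (η w : ℤ) = (({w : Place κ L | w.1 u ≠ vmax w.1 x ^ d}.ncard : ℕ) : ℤ) := by
  classical
  obtain ⟨Sg, hSg⟩ : ∃ Sg : Set (Place κ L), Sg = {w | w.1 u ≠ vmax w.1 x ^ d} := ⟨_, rfl⟩
  have hf : Sg.Finite := by
    rw [hSg]
    exact finite_ne_vmax h hx hu d
  obtain ⟨η, hη⟩ : ∃ η : Place κ L → ℕ, η = fun w => if w ∈ Sg then 1 else 0 := ⟨_, rfl⟩
  refine ⟨η, hf.subset fun w hw => ?_, fun w hw => ?_, ?_⟩
  · rw [Function.mem_support, hη] at hw
    by_contra h1
    simp only [if_neg h1, ne_eq, not_true_eq_false] at hw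
  · have h1 : w ∈ Sg := by
      rw [hSg]
      exact hw
    rw [hη]
    simp only [if_pos h1, le_refl]
  · rw [← hSg, ← finsum_indicator hf, hη]
    refine finsum_congr fun w => ?_
    by_cases hw : w ∈ Sg
    · simp only [if_pos hw, Nat.cast_one]
    · simp only [if_neg hw, Nat.cast_zero]

/-- **Close indices**, outside the divisor of the form. -/
theorem close_overL {κ K L : Type*} [Field κ] [IsAlgClosed κ] [CharZero κ] [Field K] [CharZero K]
    [Algebra κ K] (hK : IsFF κ K) [Field L] [CharZero L] [Algebra K L] [FiniteDimensional K L]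
    [Algebra κ L] [IsScalarTower κ K L] {k₀ : Type*} [Field k₀] [CharZero k₀] [Algebra k₀ K]
    [Algebra k₀ L] [IsScalarTower k₀ K L] {n : ℕ} {E : Fin (n + 2) → Derivation ℤ K K}
    {B A B₀ : Place κ K → ℕ} (hB : (Function.support B).Finite)
    (hA : (Function.support A).Finite) (hB₀ : (Function.support B₀).Finite)
    (hPB : ∀ l, PoleBound κ (E l) B) (hEk : ∀ l, ∀ c : k₀, E l (algebraMap k₀ K c) = 0)
    {D₀ : Derivation κ K K} (hD₀ : D₀ ≠ 0) (hPB₀ : PoleBound κ (D₀.restrictScalars ℤ) B₀)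
    {N s q dP : ℕ} {d : Fin 1 → ℕ} {ee : Fin s → ℕ}
    {f : Fin s → MvPolynomial (Fin 1 ⊕ Fin N) k₀}
    (hf : ∀ i, (f i).IsWeightedHomogeneous (wtP N d) (ee i))
    (hdim : ringKrullDim (MvPolynomial (Fin N) k₀ ⧸ imI f) ≤ ((n + 1 : ℕ) : ℕ))
    {P : Fin q → MvPolynomial (Fin N) k₀} (hP : ∀ j, (P j).IsHomogeneous dP)
    (hPA : ∀ j m (v : Place κ K), v.1 (algebraMap k₀ K (coeff m (P j))) ≤ exp (A v : ℤ))
    {a : Fin q → K} {e : ℕ} {S : Finset (Fin q)} {ν : ℕ} (hS : S.card = ν + 1)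
    (hES : ∀ l, ∀ j ∉ S, E l (a j) = 0) (hEA : ∀ l j (v : Place κ K), v.1 (E l (a j)) ≤
      exp (A v : ℤ))
    (hEind : ∀ M : Fin (n + 2) → L, (∀ j, ∑ l, M l * algebraMap K L (E l (a j)) = 0) → M = 0)
    {j₀ : Fin N} {x : Fin N → L} (hx : x j₀ = 1) {H₀ : MvPolynomial (Fin N) k₀}
    {H : L} (hH : H = aeval x H₀ + ∑ j, algebraMap K L (a j) * aeval x (P j) ^ e) (hH0 : H ≠ 0)
    {T : L} (hzf : ∀ i, aeval (Sum.elim (fun _ => T) x : Fin 1 ⊕ Fin N → L) (f i) = 0)
    (hu : ∀ j ∈ S, aeval x (P j) ≠ 0) (dH : ℕ) :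
    ∃ i ∈ S, ∃ j ∈ S, i ≠ j ∧ (e : ℤ) * height κ ![aeval x (P i), aeval x (P j)] ≤
      (((n + 1) * (1 + tri ν * (ν + 1)) + tri ν * (ν + 1) * dP : ℕ) : ℤ) * height κ x +
      ((1 + tri ν * (ν + 1) : ℕ) : ℤ) *
        (({w : Place κ L | w.1 H ≠ vmax w.1 x ^ dH}.ncard : ℕ) : ℤ) +
      ((1 + tri ν * (ν + 1) + tri ν : ℕ) : ℤ) * ramDeg κ L K +
      Module.finrank K L * (((1 + tri ν * (ν + 1) : ℕ) : ℤ) * ((n + 1) * ∑ᶠ v, (B v : ℤ) +
        ∑ᶠ v, (A v : ℤ)) + ((tri ν * (ν + 1) : ℕ) : ℤ) * ∑ᶠ v, (A v : ℤ) +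
        tri ν * ∑ᶠ v, (B₀ v : ℤ)) := by
  classical
  have hL : IsFF κ L := hK.of_finite
  choose E' hE' using fun l => exists_extension (L := L) (E l)
  have hEk' : ∀ l, ∀ c : k₀, E' l (algebraMap k₀ L c) = 0 := by
    intro l c
    rw [IsScalarTower.algebraMap_apply k₀ K L, hE', hEk, map_zero]
  have hmb := minor_over hK (s := Set.univ) (fun l _ => hPB l) hE'
  have hx0 : x ≠ 0 := by
    intro h0
    rw [h0] at hx
    exact zero_ne_one hx
  -- the rank
  have hξ : ∑ j, (((Pi.single j₀ 1 : Fin N → ℕ) j : ℕ) : L) * x j = 1 := by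
    rw [Finset.sum_eq_single j₀]
    · rw [Pi.single_eq_same, Nat.cast_one, one_mul, hx]
    · intro j _ hj
      rw [Pi.single_eq_of_ne hj, Nat.cast_zero, zero_mul]
    · intro h
      exact absurd (Finset.mem_univ _) h
  obtain ⟨q', jj, c, hq', hc⟩ := exists_der_comb (k := k₀) (γ := x) (r := n)
    fun q j hj => card_le_of_dimI_norm hf hdim hzf hξ hj
  obtain ⟨η, hηf, hη1, hηs⟩ := sum_eta hL hx0 hH0 dH
  obtain ⟨M, hM0, hMrel, hMH, hMle⟩ := exists_relL hmb hx hH0 hη1 hq' c jj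
    fun l i => hc (E' l) (hEk' l) i
  -- the relation between the powers
  have hrel : ∑ j, (∑ l, M l * algebraMap K L (E l (a j))) * aeval x (P j) ^ e = 0 := by
    have h1 : ∀ l, E' l H = ∑ j, algebraMap K L (E l (a j)) * aeval x (P j) ^ e +
        ∑ i, (aeval x (pderiv i H₀) + ∑ j, algebraMap K L (a j) *
          (e * aeval x (P j) ^ (e - 1) * aeval x (pderiv i (P j)))) * E' l (x i) := by
      intro l
      have h2 : ∀ j, E' l (algebraMap K L (a j)) = algebraMap K L (E l (a j)) := fun j => hE' l _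
      rw [hH, map_add, der_form (E' l) (hEk' l), der_aevalG (E' l) (hEk' l) x H₀]
      simp only [add_mul, Finset.sum_add_distrib, h2]
      ring
    have h3 : ∑ j, (∑ l, M l * algebraMap K L (E l (a j))) * aeval x (P j) ^ e =
        ∑ l, M l * ∑ j, algebraMap K L (E l (a j)) * aeval x (P j) ^ e := by
      simp only [Finset.sum_mul, Finset.mul_sum]
      rw [Finset.sum_comm]
      refine Finset.sum_congr rfl fun l _ => Finset.sum_congr rfl fun j _ => ?_
      ring
    have h4 : ∀ l, M l * ∑ j, algebraMap K L (E l (a j)) * aeval x (P j) ^ e =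
        M l * E' l H - ∑ i, (aeval x (pderiv i H₀) + ∑ j, algebraMap K L (a j) *
          (e * aeval x (P j) ^ (e - 1) * aeval x (pderiv i (P j)))) * (M l * E' l (x i)) := by
      intro l
      have h5 : ∑ i, (aeval x (pderiv i H₀) + ∑ j, algebraMap K L (a j) *
          (e * aeval x (P j) ^ (e - 1) * aeval x (pderiv i (P j)))) * (M l * E' l (x i)) =
          M l * ∑ i, (aeval x (pderiv i H₀) + ∑ j, algebraMap K L (a j) *
          (e * aeval x (P j) ^ (e - 1) * aeval x (pderiv i (P j)))) * E' l (x i) := by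
        rw [Finset.mul_sum]
        refine Finset.sum_congr rfl fun i _ => ?_
        ring
      rw [h5, h1 l]
      ring
    rw [h3, Finset.sum_congr rfl fun l _ => h4 l, Finset.sum_sub_distrib, hMH, zero_sub,
      neg_eq_zero, Finset.sum_comm]
    refine Finset.sum_eq_zero fun i _ => ?_
    rw [← Finset.mul_sum, hMrel i, mul_zero]
  -- the sums
  obtain ⟨a1, a2⟩ := mason_sum_over (L := L) hL hB
  obtain ⟨a7, a8⟩ := mason_sum_ram (K := K) hL
  have hcastB : ((∑ᶠ v, B v : ℕ) : ℤ) = ∑ᶠ v, (B v : ℤ) := map_finsum (Nat.castAddMonoidHom ℤ) hB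
  rw [hcastB] at a2
  have a1' : (Function.support fun w : Place κ L =>
      ((n + 1 : ℕ) : ℤ) * ((ramIdx K w.1 * B (below K w) : ℕ) : ℤ)).Finite := by
    refine a1.subset fun w hw h1 => hw ?_
    simp only at h1 ⊢
    rw [h1, mul_zero]
  have hηz : (Function.support fun w : Place κ L => (η w : ℤ)).Finite := by
    refine hηf.subset fun w hw h1 => hw ?_
    simp only at h1 ⊢
    rw [h1, Nat.cast_zero]
  have e1 : ∑ᶠ w : Place κ L, (((n + 1) * (ramIdx K w.1 * B (below K w)) +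
      (ramIdx K w.1 - 1) + η w : ℕ) : ℤ) =
      ∑ᶠ w : Place κ L, ((((n + 1 : ℕ) : ℤ) * ((ramIdx K w.1 * B (below K w) : ℕ) : ℤ) +
      ((ramIdx K w.1 - 1 : ℕ) : ℤ)) + (η w : ℤ)) := by
    refine finsum_congr fun w => ?_
    push_cast
    ring
  have hφf : (Function.support fun w : Place κ L => (n + 1) * (ramIdx K w.1 * B (below K w)) +
      (ramIdx K w.1 - 1) + η w).Finite := by
    refine ((a1.union a7).union hηf).subset ?_
    intro w hw
    rw [Function.mem_support] at hw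
    by_contra hcon
    rw [Set.mem_union, Set.mem_union, not_or, not_or, Function.notMem_support,
      Function.notMem_support, Function.notMem_support] at hcon
    obtain ⟨⟨h1, h2⟩, h3⟩ := hcon
    have h1' : ramIdx K w.1 * B (below K w) = 0 := Int.natCast_eq_zero.1 h1
    have h2' : ramIdx K w.1 - 1 = 0 := Int.natCast_eq_zero.1 h2
    apply hw
    rw [h1', h2', h3, mul_zero, add_zero, add_zero]
  obtain ⟨i, hi, j, hj, hij, hclose⟩ := close_of_rel hK hA hB₀ hD₀ hPB₀ hP hPA hS hES hEA hEind hx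
    hu hM0 hrel (c := n + 1) hφf hMle
  refine ⟨i, hi, j, hj, hij, hclose.trans (le_of_eq ?_)⟩
  rw [e1, finsum_add_distrib ((a1'.union a7).subset (Function.support_add _ _)) hηz,
    finsum_add_distrib a1' a7, ← mul_finsum _ _, a2, a8, hηs]
  push_cast
  ring

end Pool.Agent.Lib.MP_44a246_ntFP
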