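import Mathlib
import Pool.Agent.Lib.MP_44a246_ntY.Y30
import Pool.Agent.Lib.MP_44a246_ntMS.MS06
import Pool.Agent.Lib.MP_44a246_ntFP.FP09
import Pool.Agent.Lib.MP_44a246_ntFP.FP12

/-!
Close indices for all points outside the divisor of the form.
-/

namespace Pool.Agent.Lib.MP_44a246_ntFP

open Pool.Agent.Lib.MP_44a246_nt
open Pool.Agent.Lib.MP_44a246_ntL
open Pool.Agent.Lib.MP_44a246_ntX
open Pool.Agent.Lib.MP_44a246_ntTV
open Pool.Agent.Lib.MP_44a246_ntMS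
open Pool.Agent.Lib.MP_44a246_ntK (wtP)
open Pool.Agent.Lib.MP_44a246_ntR (imI)
open WithZero MvPolynomial

universe u v w x

/-- the derivations for all sets of indices, and the bounds for the poles -/
theorem exists_data {κ : Type u} {K : Type v} [Field κ] [IsAlgClosed κ] [CharZero κ]
    [Field K] [CharZero K] [Algebra κ K] (hK : IsFF κ K) {k : Type*} [Field k] [CharZero k]
    [Algebra k K] (hk : Algebra.trdeg ℚ k < Cardinal.aleph0) {N q m c : ℕ}
    (P : Fin q → MvPolynomial (Fin N) k) {a : Fin q → K}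
    (hgen : (q : Cardinal) ≤ Algebra.trdeg k (IntermediateField.adjoin k (Set.range a)) + c) :
    ∃ (E : Finset (Fin q) → Fin (m + 1) → Derivation ℤ K K) (B A B₀ : Place κ K → ℕ)
      (D₀ : Derivation κ K K), (Function.support B).Finite ∧ (Function.support A).Finite ∧
      (Function.support B₀).Finite ∧ D₀ ≠ 0 ∧ PoleBound κ (D₀.restrictScalars ℤ) B₀ ∧
      (∀ j μ (v : Place κ K), v.1 (algebraMap k K (coeff μ (P j))) ≤ exp (A v : ℤ)) ∧
      ∀ S : Finset (Fin q), S.card = m + c + 1 → (∀ l, PoleBound κ (E S l) B) ∧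
        (∀ l, ∀ u : k, E S l (algebraMap k K u) = 0) ∧ (∀ l, ∀ j ∉ S, E S l (a j) = 0) ∧
        (∀ l j (v : Place κ K), v.1 (E S l (a j)) ≤ exp (A v : ℤ)) ∧
        ∃ σ : Fin (m + 1) → Fin q, (Matrix.of fun l l' => E S l (a (σ l'))).det ≠ 0 := by
  classical
  obtain ⟨D₀, B₀, ⟨s, hs⟩, hB₀, hPB₀⟩ := Pool.Agent.Lib.MP_44a246_ntY.exists_kder hK
  have hex : ∀ S : Finset (Fin q), ∃ (E : Fin (m + 1) → Derivation ℤ K K) (B : Place κ K → ℕ),
      (Function.support B).Finite ∧ (S.card = m + c + 1 → (∀ l, PoleBound κ (E l) B) ∧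
        (∀ l, ∀ u : k, E l (algebraMap k K u) = 0) ∧ (∀ l, ∀ j ∉ S, E l (a j) = 0) ∧
        ∃ σ : Fin (m + 1) → Fin q, (Matrix.of fun l l' => E l (a (σ l'))).det ≠ 0) := by
    intro S
    by_cases hS : S.card = m + c + 1
    · obtain ⟨E, B, σ, h1, h2, h3, h4, h5⟩ := exists_ders_comb hK hk hgen S hS
      exact ⟨E, B, h1, fun _ => ⟨h2, h3, h4, σ, h5⟩⟩
    · refine ⟨fun _ => 0, fun _ => 0, ?_, fun h => absurd h hS⟩
      refine Set.finite_empty.subset fun v hv => ?_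
      exact hv rfl
  choose E B hB hE using hex
  obtain ⟨A₁, hA₁, hA₁b⟩ := exists_poly_bound hK
    (fun j => map (algebraMap k K) (P j))
  obtain ⟨A₂, hA₂, hA₂b⟩ := exists_poly_bound hK
    (fun t : (Finset (Fin q) × Fin (m + 1)) × Fin q =>
      (C (E t.1.1 t.1.2 (a t.2)) : MvPolynomial (Fin 1) K))
  have hBs : ∀ S v, B S v ≤ ∑ S, B S v := fun S v =>
    Finset.single_le_sum (f := fun S => B S v) (fun _ _ => Nat.zero_le _) (Finset.mem_univ S)
  refine ⟨E, fun v => ∑ S, B S v, fun v => A₁ v + A₂ v, B₀, D₀, ?_, ?_, hB₀, ?_, hPB₀, ?_, ?_⟩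
  · refine (Set.finite_iUnion fun S => hB S).subset fun v hv => ?_
    rw [Function.mem_support] at hv
    obtain ⟨S, -, hS⟩ := Finset.exists_ne_zero_of_sum_ne_zero hv
    exact Set.mem_iUnion.2 ⟨S, hS⟩
  · exact (hA₁.union hA₂).subset (Function.support_add _ _)
  · rintro rfl
    exact hs rfl
  · intro j μ v
    have h1 := hA₁b j μ v
    rw [coeff_map] at h1
    refine h1.trans ?_
    rw [exp_le_exp]
    have h2 : A₁ v ≤ A₁ v + A₂ v := Nat.le_add_right _ _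
    exact_mod_cast h2
  · intro S hS
    obtain ⟨h1, h2, h3, h4⟩ := hE S hS
    refine ⟨fun l v y hy => (h1 l v y hy).trans ?_, h2, h3, fun l j v => ?_, h4⟩
    · rw [exp_le_exp]
      exact_mod_cast hBs S v
    · have h5 := hA₂b ((S, l), j) 0 v
      rw [coeff_C, if_pos rfl] at h5
      refine h5.trans ?_
      rw [exp_le_exp]
      have h6 : A₂ v ≤ A₁ v + A₂ v := Nat.le_add_left _ _
      exact_mod_cast h6

/-- the independence of the derivations -/
theorem ind_of_det {K L : Type*} [Field K] [Field L] [Algebra K L] {m q : ℕ}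
    {E : Fin (m + 1) → Derivation ℤ K K} {a : Fin q → K} {σ : Fin (m + 1) → Fin q}
    (h : (Matrix.of fun l l' => E l (a (σ l'))).det ≠ 0) (M : Fin (m + 1) → L)
    (hM : ∀ j, ∑ l, M l * algebraMap K L (E l (a j)) = 0) : M = 0 := by
  classical
  by_contra h0
  have h1 : (Matrix.of fun l l' => algebraMap K L (E l (a (σ l')))).det = 0 := by
    refine Matrix.exists_vecMul_eq_zero_iff.1 ⟨M, h0, ?_⟩
    funext l'
    exact hM (σ l')
  apply h
  apply (algebraMap K L).injective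
  rw [map_zero, ← h1, RingHom.map_det]
  congr 1

/-- **Close indices outside the divisor**, finite transcendence degree. -/
theorem close_allL_core {κ : Type u} {K : Type v} [Field κ] [IsAlgClosed κ] [CharZero κ]
    [Field K] [CharZero K] [Algebra κ K] (hK : IsFF κ K) {k : Type x} [Field k] [CharZero k]
    [Algebra k K] (hk : Algebra.trdeg ℚ k < Cardinal.aleph0) {N s q n c dP ν : ℕ} {d : Fin 1 → ℕ}
    {ee : Fin s → ℕ} {f : Fin s → MvPolynomial (Fin 1 ⊕ Fin N) k}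
    (hf : ∀ i, (f i).IsWeightedHomogeneous (wtP N d) (ee i))
    (hdim : ringKrullDim (MvPolynomial (Fin N) k ⧸ imI f) ≤ ((n + 1 : ℕ) : ℕ))
    {P : Fin q → MvPolynomial (Fin N) k} (hP : ∀ j, (P j).IsHomogeneous dP)
    {H₀ : MvPolynomial (Fin N) k} {a : Fin q → K}
    (hgen : (q : Cardinal) ≤ Algebra.trdeg k (IntermediateField.adjoin k (Set.range a)) + c)
    (hν : ν = n + 1 + c) :
    ∃ W : ℕ, ∀ (L : Type w) [Field L] [Algebra K L] [FiniteDimensional K L] [Algebra κ L]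
      [IsScalarTower κ K L] [Algebra k L] [IsScalarTower k K L] (x : Fin N → L) (j₀ : Fin N),
      x j₀ = 1 → ∀ (e dH : ℕ) (T : L),
      (∀ i, aeval (Sum.elim (fun _ => T) x : Fin 1 ⊕ Fin N → L) (f i) = 0) →
      aeval x H₀ + ∑ j, algebraMap K L (a j) * aeval x (P j) ^ e ≠ 0 →
      ∀ S : Finset (Fin q), S.card = ν + 1 → (∀ j ∈ S, aeval x (P j) ≠ 0) →
      ∃ i ∈ S, ∃ j ∈ S, i ≠ j ∧ (e : ℤ) * height κ ![aeval x (P i), aeval x (P j)] ≤
        (((n + 1) * (1 + tri ν * (ν + 1)) + tri ν * (ν + 1) * dP : ℕ) : ℤ) * height κ x +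
        ((1 + tri ν * (ν + 1) : ℕ) : ℤ) *
          (({w : Place κ L | w.1 (aeval x H₀ + ∑ j, algebraMap K L (a j) * aeval x (P j) ^ e) ≠
            vmax w.1 x ^ dH}.ncard : ℕ) : ℤ) +
        ((1 + tri ν * (ν + 1) + tri ν : ℕ) : ℤ) * ramDeg κ L K + W * Module.finrank K L := by
  classical
  obtain ⟨E, B, A, B₀, D₀, hB, hA, hB₀, hD₀, hPB₀, hPA, hES⟩ := exists_data hK hk (m := n + 1) P
    hgen
  obtain ⟨W, hW⟩ : ∃ W : ℤ, W = ((1 + tri ν * (ν + 1) : ℕ) : ℤ) * ((n + 1) * ∑ᶠ v, (B v : ℤ) +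
        ∑ᶠ v, (A v : ℤ)) + ((tri ν * (ν + 1) : ℕ) : ℤ) * ∑ᶠ v, (A v : ℤ) +
        tri ν * ∑ᶠ v, (B₀ v : ℤ) := ⟨_, rfl⟩
  refine ⟨W.toNat, fun L _ _ _ _ _ _ _ x j₀ hx e dH T hzf hH0 S hS hu => ?_⟩
  have hLc : CharZero L := charZero_of_injective_algebraMap (algebraMap K L).injective
  obtain ⟨h1, h2, h3, h4, σ, h5⟩ := hES S (by rw [hS, hν])
  obtain ⟨i, hi, j, hj, hij, h6⟩ := close_overL hK hB hA hB₀ h1 h2 hD₀ hPB₀ hf hdim hP hPA hS h3 h4
    (fun M hM => ind_of_det h5 M hM) hx (e := e) rfl hH0 hzf hu dH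
  refine ⟨i, hi, j, hj, hij, h6.trans ?_⟩
  rw [← hW]
  have h7 : (Module.finrank K L : ℤ) * W ≤ W.toNat * Module.finrank K L := by
    rw [mul_comm]
    exact mul_le_mul_of_nonneg_right (Int.self_le_toNat W) (Int.natCast_nonneg _)
  linarith

end Pool.Agent.Lib.MP_44a246_ntFP
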