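import Mathlib
import Pool.Agent.Lib.MP_44a246_ntFP.FP13

/-!
Close indices for all points outside the divisor of the form, for all fields of definition.
-/

namespace Pool.Agent.Lib.MP_44a246_ntFP

open Pool.Agent.Lib.MP_44a246_nt
open Pool.Agent.Lib.MP_44a246_ntL
open Pool.Agent.Lib.MP_44a246_ntX
open Pool.Agent.Lib.MP_44a246_ntTV
open Pool.Agent.Lib.MP_44a246_ntMS
open Pool.Agent.Lib.MP_44a246_ntK (wtP)
open Pool.Agent.Lib.MP_44a246_ntR (imI)
open WithZero MvPolynomial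

universe u v w x

/-- finitely many polynomials of two kinds are defined over a field of finite transcendence
degree -/
theorem exists_base_two {k : Type x} [Field k] [CharZero k] {s N : ℕ} {τ : Type*} [Finite τ]
    (f : Fin s → MvPolynomial (Fin 1 ⊕ Fin N) k) (P : τ → MvPolynomial (Fin N) k) :
    ∃ (k₀ : Type x) (_ : Field k₀) (_ : CharZero k₀) (_ : Algebra k₀ k),
      Algebra.trdeg ℚ k₀ < Cardinal.aleph0 ∧
      ∃ (f₀ : Fin s → MvPolynomial (Fin 1 ⊕ Fin N) k₀) (P₀ : τ → MvPolynomial (Fin N) k₀),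
        (∀ i, map (algebraMap k₀ k) (f₀ i) = f i) ∧ ∀ j, map (algebraMap k₀ k) (P₀ j) = P j := by
  classical
  obtain ⟨k₀, i1, i2, i3, htk, F₀, hF₀⟩ := exists_base_fld
    (Sum.elim f fun j => rename (Sum.inr : Fin N → Fin 1 ⊕ Fin N) (P j))
  refine ⟨k₀, i1, i2, i3, htk, fun i => F₀ (Sum.inl i),
    fun j => aeval (Sum.elim (fun _ => 0) X : Fin 1 ⊕ Fin N → MvPolynomial (Fin N) k₀)
      (F₀ (Sum.inr j)), fun i => hF₀ (Sum.inl i), fun j => ?_⟩
  have h1 := hF₀ (Sum.inr j)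
  rw [Sum.elim_inr] at h1
  have h2 : map (algebraMap k₀ k) (aeval (Sum.elim (fun _ => 0) X :
      Fin 1 ⊕ Fin N → MvPolynomial (Fin N) k₀) (F₀ (Sum.inr j))) =
      aeval (Sum.elim (fun _ => 0) X : Fin 1 ⊕ Fin N → MvPolynomial (Fin N) k)
        (map (algebraMap k₀ k) (F₀ (Sum.inr j))) := by
    induction F₀ (Sum.inr j) using MvPolynomial.induction_on with
    | C a => rw [aeval_C, map_C, aeval_C]
             exact map_C _ _
    | add p q hp hq => rw [map_add, map_add, hp, hq, map_add, map_add]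
    | mul_X p i hp =>
      rw [map_mul, map_mul, hp, map_mul, map_mul, map_X, aeval_X, aeval_X]
      congr 1
      rcases i with i | i
      · rw [Sum.elim_inl, Sum.elim_inl, map_zero]
      · rw [Sum.elim_inr, Sum.elim_inr, map_X]
  rw [h2, h1, aeval_rename]
  have h3 : (Sum.elim (fun _ => 0) X : Fin 1 ⊕ Fin N → MvPolynomial (Fin N) k) ∘ Sum.inr = X :=
    rfl
  rw [h3, aeval_X_left_apply]

/-- **Close indices outside the divisor.** -/
theorem close_allL {κ : Type u} {K : Type v} [Field κ] [IsAlgClosed κ] [CharZero κ]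
    [Field K] [CharZero K] [Algebra κ K] (hK : IsFF κ K) {k : Type x} [Field k] [CharZero k]
    [Algebra k K] {N s q n c dP ν : ℕ} {d : Fin 1 → ℕ}
    {ee : Fin s → ℕ} {f : Fin s → MvPolynomial (Fin 1 ⊕ Fin N) k}
    (hf : ∀ i, (f i).IsWeightedHomogeneous (wtP N d) (ee i))
    (hdim : ringKrullDim (MvPolynomial (Fin N) k ⧸ (Ideal.span (Set.range f)).comap
      (rename (Sum.inr : Fin N → Fin 1 ⊕ Fin N))) ≤ ((n + 1 : ℕ) : WithBot ℕ∞))
    {P : Fin q → MvPolynomial (Fin N) k} (hP : ∀ j, (P j).IsHomogeneous dP)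
    {H₀ : MvPolynomial (Fin N) k} {a : Fin q → K}
    (hgen : (q : Cardinal) ≤ Algebra.trdeg k (IntermediateField.adjoin k (Set.range a)) + c)
    (hν : ν = n + 1 + c) :
    ∃ W : ℕ, ∀ (L : Type w) [Field L] [Algebra K L] [FiniteDimensional K L] [Algebra κ L]
      [IsScalarTower κ K L] [Algebra k L] [IsScalarTower k K L] (x : Fin N → L) (j₀ : Fin N),
      x j₀ = 1 → ∀ (e dH : ℕ) (T : L),
      (∀ i, aeval (Sum.elim (fun _ => T) x : Fin 1 ⊕ Fin N → L) (f i) = 0) →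
      aeval x H₀ + ∑ j, algebraMap K L (a j) * aeval x (P j) ^ e ≠ 0 →
      ∀ S : Finset (Fin q), S.card = ν + 1 → (∀ j ∈ S, aeval x (P j) ≠ 0) →
      ∃ i ∈ S, ∃ j ∈ S, i ≠ j ∧ (e : ℤ) * height κ ![aeval x (P i), aeval x (P j)] ≤
        (((n + 1) * (1 + tri ν * (ν + 1)) + tri ν * (ν + 1) * dP : ℕ) : ℤ) * height κ x +
        ((1 + tri ν * (ν + 1) : ℕ) : ℤ) *
          (({w : Place κ L | w.1 (aeval x H₀ + ∑ j, algebraMap K L (a j) * aeval x (P j) ^ e) ≠
            vmax w.1 x ^ dH}.ncard : ℕ) : ℤ) +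
        ((1 + tri ν * (ν + 1) + tri ν : ℕ) : ℤ) * ramDeg κ L K + W * Module.finrank K L := by
  obtain ⟨k₀, _, _, _, htk, f₀, Q₀, hf₀, hQ₀⟩ := exists_base_two f
    (Sum.elim P (fun _ : Unit => H₀))
  let _ : Algebra k₀ K := ((algebraMap k K).comp (algebraMap k₀ k)).toAlgebra
  have s0 : IsScalarTower k₀ k K := IsScalarTower.of_algebraMap_eq fun _ => rfl
  obtain ⟨P₀, hP₀d⟩ : ∃ P₀ : Fin q → MvPolynomial (Fin N) k₀, P₀ = fun j => Q₀ (Sum.inl j) :=
    ⟨_, rfl⟩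
  obtain ⟨G₀, hG₀d⟩ : ∃ G₀ : MvPolynomial (Fin N) k₀, G₀ = Q₀ (Sum.inr ()) := ⟨_, rfl⟩
  have hP₀ : ∀ j, map (algebraMap k₀ k) (P₀ j) = P j := fun j => by
    rw [hP₀d]
    exact hQ₀ (Sum.inl j)
  have hG₀ : map (algebraMap k₀ k) G₀ = H₀ := by
    rw [hG₀d]
    exact hQ₀ (Sum.inr ())
  obtain rfl : (fun i => map (algebraMap k₀ k) (f₀ i)) = f := funext hf₀
  have hf' : ∀ i, (f₀ i).IsWeightedHomogeneous (wtP N d) (ee i) := by
    intro i m hm
    refine hf i ?_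
    rw [coeff_map]
    exact fun h0 => hm ((map_eq_zero _).1 h0)
  have hP' : ∀ j, (P₀ j).IsHomogeneous dP := by
    intro j m hm
    refine hP j ?_
    rw [← hP₀, coeff_map]
    exact fun h0 => hm ((map_eq_zero _).1 h0)
  have hdim' := (imDim_le (k₀ := k₀) (k := k)
    (e := (Sum.inr : Fin N → Fin 1 ⊕ Fin N)) Sum.inr_injective f₀).trans hdim
  have hgen' : (q : Cardinal) ≤
      Algebra.trdeg k₀ (IntermediateField.adjoin k₀ (Set.range a)) + c := by
    refine hgen.trans ?_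
    gcongr
    exact trdeg_adjoin_le (k₀ := k₀) (k := k) _
  obtain ⟨W, hW⟩ := close_allL_core.{u, v, w, x} hK htk hf' hdim' hP' (H₀ := G₀) (ν := ν) hgen' hν
  refine ⟨W, ?_⟩
  intro L _ _ _ _ _ _ _ x j₀ hx e dH T hzf hH0 S hS hu
  let _ : Algebra k₀ L := ((algebraMap k L).comp (algebraMap k₀ k)).toAlgebra
  have s1 : IsScalarTower k₀ k L := IsScalarTower.of_algebraMap_eq fun _ => rfl
  have s2 : IsScalarTower k₀ K L := IsScalarTower.of_algebraMap_eq fun c => by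
    rw [IsScalarTower.algebraMap_apply k₀ k L, IsScalarTower.algebraMap_apply k K L,
      IsScalarTower.algebraMap_apply k₀ k K]
  have hPx : ∀ j, aeval x (P j) = aeval x (P₀ j) := fun j => by
    rw [← hP₀, aeval_map_algebraMap]
  have hGx : aeval x H₀ = aeval x G₀ := by
    rw [← hG₀, aeval_map_algebraMap]
  simp only [hPx, hGx] at hH0 hu ⊢
  refine hW L x j₀ hx e dH T (fun i => ?_) hH0 S hS hu
  rw [← hzf i, aeval_map_algebraMap]

end Pool.Agent.Lib.MP_44a246_ntFP
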