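import Mathlib
import Pool.Agent.Lib.MP_44a246_ntMU.MU10
import Pool.Agent.Lib.MP_44a246_ntFP.FP16

/-!
Close indices for all points of a variety outside the divisor of the form, with the truncated
counting function.
-/

namespace Pool.Agent.Lib.MP_44a246_ntFP

open Pool.Agent.Lib.MP_44a246_nt
open Pool.Agent.Lib.MP_44a246_ntL
open Pool.Agent.Lib.MP_44a246_ntX
open Pool.Agent.Lib.MP_e52354_ntMR
open Pool.Agent.Lib.MP_44a246_ntMU (ncard_le_trunc)
open WithZero MvPolynomial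

universe u v w x

/-- the elimination ideal of equations without the variable `t` -/
theorem comap_rename_span {k : Type*} [Field k] {σ : Type*} {N s : ℕ}
    (g : Fin s → MvPolynomial (Fin N) k) :
    (Ideal.span (Set.range fun i => rename (Sum.inr : Fin N → σ ⊕ Fin N) (g i))).comap
      (rename (Sum.inr : Fin N → σ ⊕ Fin N)) = Ideal.span (Set.range g) := by
  classical
  obtain ⟨ret, hret⟩ : ∃ ret : MvPolynomial (σ ⊕ Fin N) k →ₐ[k] MvPolynomial (Fin N) k,
      ∀ F : MvPolynomial (Fin N) k, ret (rename Sum.inr F) = F := by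
    refine ⟨aeval (Sum.elim (fun _ => 0) X), fun F => ?_⟩
    rw [aeval_rename]
    have h3 : (Sum.elim (fun _ => 0) X : σ ⊕ Fin N → MvPolynomial (Fin N) k) ∘ Sum.inr = X :=
      rfl
    rw [h3, aeval_X_left_apply]
  refine le_antisymm (fun F hF => ?_) (Ideal.span_le.2 ?_)
  · rw [Ideal.mem_comap] at hF
    have h1 := Ideal.mem_map_of_mem (ret : MvPolynomial (σ ⊕ Fin N) k →+* MvPolynomial (Fin N) k)
      hF
    rw [Ideal.map_span] at h1
    have h2 : (ret : MvPolynomial (σ ⊕ Fin N) k →+* MvPolynomial (Fin N) k)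
        (rename Sum.inr F) = F := hret F
    rw [h2] at h1
    refine Ideal.span_mono ?_ h1
    rintro _ ⟨_, ⟨i, rfl⟩, rfl⟩
    exact ⟨i, (hret (g i)).symm⟩
  · rintro _ ⟨i, rfl⟩
    exact Ideal.subset_span ⟨i, rfl⟩

/-- scaling of a pair -/
theorem height_pair_smul {κ L : Type*} [Field κ] [IsAlgClosed κ] [CharZero κ] [Field L]
    [Algebra κ L] (h : IsFF κ L) {c : L} (hc : c ≠ 0) (a b : L) :
    height κ ![c * a, c * b] = height κ ![a, b] := by
  have h1 : (![c * a, c * b] : Fin 2 → L) = fun i => c * (![a, b] : Fin 2 → L) i := by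
    funext i
    induction i using Fin.cases with
    | zero => rfl
    | succ i =>
      have : i = 0 := Subsingleton.elim _ _
      subst this
      rfl
  rw [h1]
  exact h.height_smul hc

/-- **Close indices outside the divisor**, with the truncated counting function. -/
theorem close_pointL {κ : Type u} {K : Type v} [Field κ] [IsAlgClosed κ] [CharZero κ]
    [Field K] [CharZero K] [Algebra κ K] (hK : IsFF κ K) {k : Type x} [Field k] [CharZero k]
    [Algebra k K] {N s q n c e dP : ℕ} {ee : Fin s → ℕ} {g : Fin s → MvPolynomial (Fin (N + 1)) k}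
    (hg : ∀ i, (g i).IsHomogeneous (ee i))
    (hdim : ringKrullDim (MvPolynomial (Fin (N + 1)) k ⧸ Ideal.span (Set.range g)) ≤
      ((n + 1 : ℕ) : WithBot ℕ∞))
    {P : Fin q → MvPolynomial (Fin (N + 1)) k} (hP : ∀ j, (P j).IsHomogeneous dP)
    {H₀ : MvPolynomial (Fin (N + 1)) k} (hH₀ : H₀.IsHomogeneous (e * dP)) {a : Fin q → K}
    (hgen : (q : Cardinal) ≤ Algebra.trdeg k (IntermediateField.adjoin k (Set.range a)) + c)
    {S₀ : Set (Place κ K)} (hS₀ : S₀.Finite) :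
    ∃ W : ℕ, ∀ (L : Type w) [Field L] [Algebra K L] [FiniteDimensional K L] [Algebra κ L]
      [IsScalarTower κ K L] [Algebra k L] [IsScalarTower k K L] (v : Fin (N + 1) → L), v ≠ 0 →
      (∀ i, aeval v (g i) = 0) →
      aeval v H₀ + ∑ j, algebraMap K L (a j) * aeval v (P j) ^ e ≠ 0 →
      ∀ S : Finset (Fin q), S.card = n + c + 2 → (∀ j ∈ S, aeval v (P j) ≠ 0) →
      ∃ i ∈ S, ∃ j ∈ S, i ≠ j ∧ (e : ℤ) * height κ ![aeval v (P i), aeval v (P j)] ≤
        (((n + 1) * (1 + tri (n + c + 1) * (n + c + 2)) +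
          tri (n + c + 1) * (n + c + 2) * dP : ℕ) : ℤ) * height κ v +
        ((1 + tri (n + c + 1) * (n + c + 2) : ℕ) : ℤ) *
          (({w : Place κ L | (∀ v ∈ S₀, ¬ (w.1.comap (algebraMap K L)).IsEquiv v.1) ∧
            w.1 (aeval v H₀ + ∑ j, algebraMap K L (a j) * aeval v (P j) ^ e) <
              vmax w.1 v ^ (e * dP)}.ncard : ℕ) : ℤ) +
        ((1 + tri (n + c + 1) * (n + c + 2) + tri (n + c + 1) : ℕ) : ℤ) * ramDeg κ L K +
        W * Module.finrank K L := by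
  classical
  -- the form
  obtain ⟨H, hHdef⟩ : ∃ H : MvPolynomial (Fin (N + 1)) K, H = map (algebraMap k K) H₀ +
    ∑ j, C (a j) * map (algebraMap k K) (P j) ^ e := ⟨_, rfl⟩
  have hHh : H.IsHomogeneous (e * dP) := by
    rw [hHdef]
    refine (hH₀.map _).add (IsHomogeneous.sum _ _ _ fun j _ => ?_)
    have h1 := (isHomogeneous_C (Fin (N + 1)) (a j)).mul (((hP j).map (algebraMap k K)).pow e)
    rw [zero_add, mul_comm dP e] at h1
    exact h1
  have hHv : ∀ (L : Type w) [Field L] [Algebra K L] [Algebra k L] [IsScalarTower k K L]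
      (v : Fin (N + 1) → L), aeval v H =
      aeval v H₀ + ∑ j, algebraMap K L (a j) * aeval v (P j) ^ e := by
    intro L _ _ _ _ v
    rw [hHdef, map_add, map_sum, aeval_map_algebraMap]
    congr 1
    refine Finset.sum_congr rfl fun j _ => ?_
    rw [map_mul, map_pow, aeval_C, aeval_map_algebraMap]
  obtain ⟨C₂, hC₂⟩ := ncard_le_trunc.{u, v, w} hK (B' := Unit) (F := fun _ => H)
    (d := fun _ => e * dP) (fun _ => hHh) hS₀
  obtain ⟨W, hW⟩ := close_allL.{u, v, w, x} hK (d := fun _ => 0)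
    (f := fun i => rename (Sum.inr : Fin (N + 1) → Fin 1 ⊕ Fin (N + 1)) (g i)) (ee := ee)
    (fun i => by
      intro m hm
      obtain ⟨m₀, rfl, hm₀⟩ := coeff_rename_ne_zero _ (g i) m hm
      have h1 := hg i hm₀
      rw [← h1, Finsupp.weight_apply, Finsupp.weight_apply,
        Finsupp.sum_mapDomain_index (fun _ => by simp) (fun _ _ _ => by rw [add_smul])]
      rfl) (by
      rw [comap_rename_span]
      exact hdim) hP (H₀ := H₀) (a := a) (c := c) hgen (ν := n + c + 1) (by omega)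
  refine ⟨W + (1 + tri (n + c + 1) * (n + c + 2)) * C₂, ?_⟩
  intro L _ _ _ _ _ _ _ v hv hvg hvH S hS hSP
  have hL : IsFF κ L := hK.of_finite
  obtain ⟨j₀, hj₀⟩ : ∃ j₀, v j₀ ≠ 0 := by
    by_contra hcon
    push Not at hcon
    exact hv (funext hcon)
  obtain ⟨t, ht⟩ : ∃ t, t = (v j₀)⁻¹ := ⟨_, rfl⟩
  have ht0 : t ≠ 0 := by rw [ht]; exact inv_ne_zero hj₀
  obtain ⟨x, hx⟩ : ∃ x : Fin (N + 1) → L, x = fun i => t * v i := ⟨_, rfl⟩
  have hhom : ∀ {Q : MvPolynomial (Fin (N + 1)) k} {E : ℕ}, Q.IsHomogeneous E →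
      aeval x Q = t ^ E * aeval v Q := by
    intro Q E hQ
    have h1 := aeval_smul_weighted (k₀ := k) (k := L) (w := 1) (n := E) hQ t v
    simp only [Pi.one_apply, pow_one] at h1
    rw [hx]
    exact h1
  have hHx : aeval x H₀ + ∑ j, algebraMap K L (a j) * aeval x (P j) ^ e =
      t ^ (e * dP) * (aeval v H₀ + ∑ j, algebraMap K L (a j) * aeval v (P j) ^ e) := by
    rw [hhom hH₀, mul_add, Finset.mul_sum]
    congr 1
    refine Finset.sum_congr rfl fun j _ => ?_
    rw [hhom (hP j), mul_pow, ← pow_mul, mul_comm dP e]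
    ring
  have hx1 : x j₀ = 1 := by
    rw [hx, ht]
    exact inv_mul_cancel₀ hj₀
  obtain ⟨i, hi, j, hj, hij, h1⟩ := hW L x j₀ hx1 e (e * dP) 0 (fun i => by
      rw [aeval_rename]
      show aeval x (g i) = 0
      rw [hhom (hg i), hvg, mul_zero]) (by
      rw [hHx]
      exact mul_ne_zero (pow_ne_zero _ ht0) hvH) S (by rw [hS]) (fun j hj => by
      rw [hhom (hP j)]
      exact mul_ne_zero (pow_ne_zero _ ht0) (hSP j hj))
  refine ⟨i, hi, j, hj, hij, ?_⟩
  have h2 : height κ ![aeval x (P i), aeval x (P j)] =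
      height κ ![aeval v (P i), aeval v (P j)] := by
    rw [hhom (hP i), hhom (hP j)]
    exact height_pair_smul hL (pow_ne_zero _ ht0) _ _
  have h3 : height κ x = height κ v := by
    rw [hx]
    exact hL.height_smul ht0
  have h4 : {w : Place κ L | w.1 (aeval x H₀ + ∑ j, algebraMap K L (a j) * aeval x (P j) ^ e) ≠
      vmax w.1 x ^ (e * dP)} = {w : Place κ L | ∃ _ : Unit, w.1 (aeval v H) ≠
        vmax w.1 v ^ (e * dP)} := by
    ext w
    have hw0 : w.1 t ≠ 0 := (Valuation.ne_zero_iff _).2 ht0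
    have h5 : vmax w.1 x = w.1 t * vmax w.1 v := by
      rw [hx]
      exact vmax_smul _ _ _
    have h6 : w.1 (aeval x H₀ + ∑ j, algebraMap K L (a j) * aeval x (P j) ^ e) =
        vmax w.1 x ^ (e * dP) ↔ w.1 (aeval v H) = vmax w.1 v ^ (e * dP) := by
      rw [hHx, hHv, map_mul, map_pow, h5, mul_pow]
      exact mul_right_inj' (pow_ne_zero _ hw0)
    constructor
    · intro h7
      exact ⟨(), fun h8 => h7 (h6.2 h8)⟩
    · rintro ⟨-, h7⟩
      exact fun h8 => h7 (h6.1 h8)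
  have h5 := hC₂ L v hv (fun _ => by
    rw [hHv]
    exact hvH)
  have h6 : {w : Place κ L | (∀ v ∈ S₀, ¬ (w.1.comap (algebraMap K L)).IsEquiv v.1) ∧
      ∃ _ : Unit, w.1 (aeval v H) < vmax w.1 v ^ (e * dP)} =
      {w : Place κ L | (∀ v ∈ S₀, ¬ (w.1.comap (algebraMap K L)).IsEquiv v.1) ∧
        w.1 (aeval v H₀ + ∑ j, algebraMap K L (a j) * aeval v (P j) ^ e) <
          vmax w.1 v ^ (e * dP)} := by
    ext w
    constructor
    · rintro ⟨h7, -, h8⟩
      rw [hHv] at h8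
      exact ⟨h7, h8⟩
    · rintro ⟨h7, h8⟩
      refine ⟨h7, (), ?_⟩
      rw [hHv]
      exact h8
  rw [h2, h3, h4] at h1
  rw [h6] at h5
  obtain ⟨A₁, hA₁⟩ : ∃ A₁ : ℕ, A₁ = {w : Place κ L | ∃ _ : Unit, w.1 (aeval v H) ≠
    vmax w.1 v ^ (e * dP)}.ncard := ⟨_, rfl⟩
  obtain ⟨A₂, hA₂⟩ : ∃ A₂ : ℕ, A₂ = {w : Place κ L |
    (∀ v ∈ S₀, ¬ (w.1.comap (algebraMap K L)).IsEquiv v.1) ∧
      w.1 (aeval v H₀ + ∑ j, algebraMap K L (a j) * aeval v (P j) ^ e) <
        vmax w.1 v ^ (e * dP)}.ncard := ⟨_, rfl⟩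
  rw [← hA₁, ← hA₂] at h5
  rw [← hA₁] at h1
  rw [← hA₂]
  have h7 : (A₁ : ℤ) ≤ A₂ + C₂ * Module.finrank K L := by exact_mod_cast h5
  have h8 : ((1 + tri (n + c + 1) * (n + c + 2) : ℕ) : ℤ) * A₁ ≤
      ((1 + tri (n + c + 1) * (n + c + 2) : ℕ) : ℤ) * (A₂ + C₂ * Module.finrank K L) :=
    mul_le_mul_of_nonneg_left h7 (Int.natCast_nonneg _)
  refine h1.trans ?_
  push_cast at h8 ⊢
  have e1 : n + c + 1 + 1 = n + c + 2 := rfl
  linarith

end Pool.Agent.Lib.MP_44a246_ntFP
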