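import Mathlib
import Pool.Agent.Lib.MP_44a246_ntFP.FP17
import Pool.Agent.Lib.MP_44a246_ntFP.FP25

/-!
Close indices for the points of the divisor and for the points outside of it.
-/

namespace Pool.Agent.Lib.MP_44a246_ntFP

open Pool.Agent.Lib.MP_44a246_nt
open Pool.Agent.Lib.MP_44a246_ntL
open Pool.Agent.Lib.MP_44a246_ntX
open Pool.Agent.Lib.MP_44a246_ntMS
open WithZero MvPolynomial

universe u v w x y

/-- the truncated counting function of the value `h` of a form of degree `d` at the point `z` -/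
noncomputable def trunc₁ {κ K L : Type*} [Field κ] [Field K] [Field L] [Algebra κ K] [Algebra κ L]
    [Algebra K L] (S : Set (Place κ K)) (d : ℕ) {N : ℕ} (h : L) (z : Fin (N + 1) → L) : ℕ :=
  Set.ncard {w : Place κ L | (∀ v ∈ S, ¬ (w.1.comap (algebraMap K L)).IsEquiv v.1) ∧
    w.1 h < vmax w.1 z ^ d}

/-- the constants do not get smaller -/
theorem const_mono {n a b dP : ℕ} (h : a ≤ b) :
    (n + 1) * (1 + tri a * (a + 1)) + tri a * (a + 1) * dP ≤
      (n + 1) * (1 + tri b * (b + 1)) + tri b * (b + 1) * dP ∧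
    1 + tri a * (a + 1) + tri a ≤ 1 + tri b * (b + 1) + tri b := by
  have h1 := tri_mono h
  have h2 : tri a * (a + 1) ≤ tri b * (b + 1) := Nat.mul_le_mul h1 (by omega)
  refine ⟨Nat.add_le_add (Nat.mul_le_mul_left _ (by omega)) (Nat.mul_le_mul_right _ h2), ?_⟩
  omega

/-- **Close indices** for the points with `H (x) = 0`, or for all points. -/
theorem close_both {κ : Type u} {K : Type v} [Field κ] [IsAlgClosed κ] [CharZero κ]
    [Field K] [CharZero K] [Algebra κ K] (hK : IsFF κ K) {k₁ : Type y} [Field k₁]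
    {k : Type x} [Field k] [CharZero k] [Algebra k₁ k] [Algebra k K]
    {N n c q e dP s ν : ℕ} (hν : ν = n + c ∨ ν = n + c + 1) {df : Fin s → ℕ}
    (f : Fin s → MvPolynomial (Fin (N + 1)) k) (hf : ∀ i, (f i).IsHomogeneous (df i))
    (hdim : ringKrullDim (MvPolynomial (Fin (N + 1)) k ⧸ Ideal.span (Set.range f)) ≤
      ((n + 1 : ℕ) : WithBot ℕ∞))
    {P : Fin q → MvPolynomial (Fin (N + 1)) k₁} (hP : ∀ j, (P j).IsHomogeneous dP)
    {H₀ : MvPolynomial (Fin (N + 1)) k} (hH₀ : H₀.IsHomogeneous (e * dP)) (a : Fin q → K)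
    (hgen : (q : Cardinal) ≤ Algebra.trdeg k (IntermediateField.adjoin k (Set.range a)) + c)
    {S₀ : Set (Place κ K)} (hS₀ : S₀.Finite) :
    ∃ C : ℕ, ∀ (L : Type w) [Field L] [Algebra K L] [FiniteDimensional K L] [Algebra κ L]
        [IsScalarTower κ K L] [Algebra k L] [IsScalarTower k K L] [Algebra k₁ L]
        [IsScalarTower k₁ k L] (z : Fin (N + 1) → L), z ≠ 0 →
        (∀ i, aeval z (f i) = 0) → (hval H₀ P e a z = 0 ∨ ν = n + c + 1) →
        ∀ S : Finset (Fin q), S.card = ν + 1 → (∀ j ∈ S, aeval z (P j) ≠ 0) →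
        ∃ i ∈ S, ∃ j ∈ S, i ≠ j ∧
          (e : ℤ) * height κ ![aeval z (P i), aeval z (P j)] ≤
          (((n + 1) * (1 + tri ν * (ν + 1)) + tri ν * (ν + 1) * dP : ℕ) : ℤ) *
            height κ z +
          ((1 + tri ν * (ν + 1) + tri ν : ℕ) : ℤ) *
            (trunc₁ S₀ (e * dP) (hval H₀ P e a z) z + ramDeg κ L K) +
          C * Module.finrank K L := by
  classical
  obtain ⟨C₁, hC₁⟩ := close_zero.{u, v, w, x, y} hK f hf hdim hP hH₀ a hgen
  obtain ⟨C₂, hC₂⟩ := close_pointL.{u, v, w, x} hK (e := e) (dP := dP) (g := f) hf hdim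
    (P := fun j => map (algebraMap k₁ k) (P j)) (fun j => (hP j).map _) hH₀ hgen hS₀
  refine ⟨C₁ + C₂, ?_⟩
  intro L _ _ _ _ _ _ _ _ _ z hz hzf hH S hS hSz
  have hLc : CharZero L := charZero_of_injective_algebraMap (algebraMap K L).injective
  have hL : IsFF κ L := hK.of_finite
  have hh : 0 ≤ height κ z := hL.height_nonneg hz
  have hF : (0 : ℤ) ≤ Module.finrank K L := Int.natCast_nonneg _
  have hR : (0 : ℤ) ≤ ramDeg κ L K := Int.natCast_nonneg _
  have hM : (0 : ℤ) ≤ trunc₁ S₀ (e * dP) (hval H₀ P e a z) z := Int.natCast_nonneg _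
  have hC₁0 : (0 : ℤ) ≤ C₁ := Int.natCast_nonneg _
  have hC₂0 : (0 : ℤ) ≤ C₂ := Int.natCast_nonneg _
  have hnν : n + c ≤ ν := by omega
  by_cases hH0 : hval H₀ P e a z = 0
  · obtain ⟨S', hS', hSc'⟩ := Finset.exists_subset_card_eq (by omega : n + c + 1 ≤ S.card)
    obtain ⟨i, hi, j, hj, hij, hle⟩ := hC₁ L z hz hzf hH0 S' hSc' fun j hj => hSz j (hS' hj)
    refine ⟨i, hS' hi, j, hS' hj, hij, hle.trans ?_⟩
    obtain ⟨h1, h2⟩ := const_mono (n := n) (dP := dP) hnν
    refine add_le_add (add_le_add (mul_le_mul_of_nonneg_right (by exact_mod_cast h1) hh) ?_) ?_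
    · calc _ ≤ ((1 + tri ν * (ν + 1) + tri ν : ℕ) : ℤ) * ramDeg κ L K :=
          mul_le_mul_of_nonneg_right (by exact_mod_cast h2) hR
        _ ≤ _ := mul_le_mul_of_nonneg_left (by linarith) (Int.natCast_nonneg _)
    · push_cast
      nlinarith
  · obtain rfl : ν = n + c + 1 := by
      rcases hH with h | h
      · exact absurd h hH0
      · exact h
    have hC₂' := hC₂ L z hz hzf
    simp only [aeval_map_algebraMap] at hC₂'
    obtain ⟨i, hi, j, hj, hij, hle⟩ := hC₂' hH0 S hS hSz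
    refine ⟨i, hi, j, hj, hij, hle.trans ?_⟩
    obtain ⟨T, hT⟩ : ∃ T, T = tri (n + c + 1) := ⟨_, rfl⟩
    have h3 : (0 : ℤ) ≤ T := Int.natCast_nonneg _
    rw [mul_add ((1 + tri (n + c + 1) * (n + c + 1 + 1) + tri (n + c + 1) : ℕ) : ℤ),
      ← add_assoc]
    refine add_le_add (add_le_add (add_le_add le_rfl ?_) le_rfl) ?_
    · refine mul_le_mul_of_nonneg_right ?_ hM
      exact_mod_cast Nat.le_add_right _ _
    · push_cast
      nlinarith

end Pool.Agent.Lib.MP_44a246_ntFP
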