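import Mathlib
import Pool.Agent.Lib.MP_44a246_ntFP.FP26

/-!
The height inequality with few parameters, the final form.
-/

namespace Pool.Agent.Lib.MP_44a246_ntFP

open Pool.Agent.Lib.MP_44a246_nt
open Pool.Agent.Lib.MP_44a246_ntL
open Pool.Agent.Lib.MP_44a246_ntX
open Pool.Agent.Lib.MP_44a246_ntMS
open WithZero MvPolynomial

universe u v w x y

/-- **The height inequality with few parameters.** -/
theorem few_final {k₁ : Type y} [Field k₁] {N m q n c δ ν θ : ℕ} (hn : 1 ≤ n) (hδ : 1 ≤ δ)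
    (hν : ν = n + c ∨ ν = n + c + 1) {g : Fin m → MvPolynomial (Fin (N + 1)) k₁}
    {dg : Fin m → ℕ} (hg : ∀ i, (g i).IsHomogeneous (dg i))
    {P : Fin q → MvPolynomial (Fin (N + 1)) k₁} (hP : ∀ j, (P j).IsHomogeneous δ)
    (h : Sep g P (ν + 1) ∨ ∃ r, 1 ≤ r ∧ NoZero g P (r + 1) ∧ r * ν < q) :
    ∃ e₀ : ℕ, (∀ r, 1 ≤ r → NoZero g P (r + 1) → r * ν < q →
      e₀ ≤ r * (ν + 1) ^ 3 * (n + θ + 2)) ∧
      ∀ (κ : Type u) (K : Type v) [Field κ] [IsAlgClosed κ] [CharZero κ] [Field K]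
      [CharZero K] [Algebra κ K], IsFF κ K → ∀ (k : Type x) [Field k] [CharZero k]
      [Algebra k₁ k] [Algebra k K] (e : ℕ), e₀ ≤ e → ∀ {s : ℕ} {df : Fin s → ℕ}
      (f : Fin s → MvPolynomial (Fin (N + 1)) k), (∀ i, (f i).IsHomogeneous (df i)) →
      ringKrullDim (MvPolynomial (Fin (N + 1)) k ⧸ Ideal.span (Set.range f)) ≤
        ((n + 1 : ℕ) : WithBot ℕ∞) →
      ∀ (H₀ : MvPolynomial (Fin (N + 1)) k), H₀.IsHomogeneous (e * δ) → ∀ (a : Fin q → K),
      (q : Cardinal) ≤ Algebra.trdeg k (IntermediateField.adjoin k (Set.range a)) + c →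
      ∀ S : Set (Place κ K), S.Finite →
      ∃ C : ℕ, ∀ (L : Type w) [Field L] [Algebra K L] [FiniteDimensional K L] [Algebra κ L]
        [IsScalarTower κ K L] [Algebra k L] [IsScalarTower k K L] [Algebra k₁ L]
        [IsScalarTower k₁ k L] (z : Fin (N + 1) → L), z ≠ 0 →
        (∀ i, aeval z (g i) = 0) → (∀ i, aeval z (f i) = 0) →
        (hval H₀ P e a z = 0 ∨ ν = n + c + 1) →
        (θ : ℤ) * height κ z ≤ trunc₁ S (e * δ) (hval H₀ P e a z) z + ramDeg κ L K +
          C * Module.finrank K L ∧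
        (pointField K z = ⊤ → ((θ : ℤ) - 2 * ((Module.finrank K L : ℤ) - 1)) * height κ z ≤
          trunc₁ S (e * δ) (hval H₀ P e a z) z + C * Module.finrank K L) := by
  classical
  obtain ⟨A, hA⟩ : ∃ A : ℕ, A = (n + 1) * (1 + tri ν * (ν + 1)) + tri ν * (ν + 1) * δ := ⟨_, rfl⟩
  obtain ⟨B, hB⟩ : ∃ B : ℕ, B = 1 + tri ν * (ν + 1) + tri ν := ⟨_, rfl⟩
  have hν1 : 1 ≤ ν := by omega
  -- the second inequality follows from the first one
  have hsecond : ∀ (κ : Type u) (K : Type v) [Field κ] [IsAlgClosed κ] [CharZero κ] [Field K]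
      [CharZero K] [Algebra κ K], IsFF κ K → ∀ (L : Type w) [Field L] [Algebra K L]
      [FiniteDimensional K L] [Algebra κ L] [IsScalarTower κ K L] (z : Fin (N + 1) → L), z ≠ 0 →
      ∀ M C : ℤ, (θ : ℤ) * height κ z ≤ M + ramDeg κ L K + C * Module.finrank K L →
      (θ : ℤ) * height κ z ≤ M + ramDeg κ L K + C * Module.finrank K L ∧
      (pointField K z = ⊤ → ((θ : ℤ) - 2 * ((Module.finrank K L : ℤ) - 1)) * height κ z ≤
        M + C * Module.finrank K L) := by
    intro κ K _ _ _ _ _ _ hK L _ _ _ _ _ z hz M C h1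
    refine ⟨h1, fun hgen => ?_⟩
    have h2 := ramDeg_point hK z hz hgen
    linarith
  by_cases hgp : ∃ t r, 1 ≤ r ∧ NoZero g P (r + 1) ∧ r * ν < q ∧
      t = r * (ν + 1) ^ 3 * (n + θ + 2)
  · obtain ⟨r, hr, hrP, hrq, hrt⟩ := Nat.find_spec hgp
    refine ⟨Nat.find hgp, fun r' hr' hrP' hrq' => Nat.find_min' hgp ⟨r', hr', hrP', hrq', rfl⟩, ?_⟩
    intro κ K _ _ _ _ _ _ hK k _ _ _ _ e he s df f hf hdim H₀ hH₀ a hgen S hS
    rw [hrt] at he
    let _ : Algebra k₁ K := ((algebraMap k K).comp (algebraMap k₁ k)).toAlgebra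
    have s0 : IsScalarTower k₁ k K := IsScalarTower.of_algebraMap_eq fun _ => rfl
    obtain ⟨C₂, hC₂⟩ := hrP.height_of_close.{u, v, w, y} hg hP hν1 hrq hK
    obtain ⟨W, hW⟩ := close_both.{u, v, w, x, y} hK hν f hf hdim hP hH₀ a hgen hS
    refine ⟨W + e * δ * C₂, ?_⟩
    intro L _ _ _ _ _ _ _ _ _ z hz hzg hzf hH
    have s2 : IsScalarTower k₁ K L := IsScalarTower.of_algebraMap_eq fun c => by
      rw [IsScalarTower.algebraMap_apply k₁ k L, IsScalarTower.algebraMap_apply k K L,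
        IsScalarTower.algebraMap_apply k₁ k K]
    have hL : IsFF κ L := hK.of_finite
    have hh : 0 ≤ height κ z := hL.height_nonneg hz
    have hF : (0 : ℤ) ≤ Module.finrank K L := Int.natCast_nonneg _
    refine hsecond κ K hK L z hz _ _ ?_
    obtain ⟨M, hM⟩ : ∃ M : ℤ, M = trunc₁ S (e * δ) (hval H₀ P e a z) z := ⟨_, rfl⟩
    have hM0 : 0 ≤ M := by
      rw [hM]
      exact Int.natCast_nonneg _
    rw [← hM]
    have h1 := hC₂ L z hz hzg e (A * height κ z + B * (M + ramDeg κ L K) +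
      W * Module.finrank K L) (by positivity) (fun S' hS' hSz => by
        obtain ⟨i, hi, j, hj, hij, hle⟩ := hW L z hz hzf hH S' hS' hSz
        refine ⟨i, hi, j, hj, hij, hle.trans (le_of_eq ?_)⟩
        rw [hA, hB, hM])
    rw [hA, hB] at h1
    have h2 := final_arith_gp (θ := θ) hr hδ he hh (Int.natCast_nonneg _) hF
      (Int.natCast_nonneg _) h1
    push_cast at h2 ⊢
    exact h2
  · have hsep : Sep g P (ν + 1) := by
      rcases h with h | ⟨r, hr, hrP, hrq⟩
      · exact h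
      · exact absurd ⟨_, r, hr, hrP, hrq, rfl⟩ hgp
    obtain ⟨C₁, hC₁⟩ := hsep.height_of_close.{u, v, w, y} hg hP
    refine ⟨(C₁ + 1) * (A + θ * B), fun r hr hrP hrq => absurd ⟨_, r, hr, hrP, hrq, rfl⟩ hgp, ?_⟩
    intro κ K _ _ _ _ _ _ hK k _ _ _ _ e he s df f hf hdim H₀ hH₀ a hgen S hS
    let _ : Algebra k₁ K := ((algebraMap k K).comp (algebraMap k₁ k)).toAlgebra
    have s0 : IsScalarTower k₁ k K := IsScalarTower.of_algebraMap_eq fun _ => rfl
    obtain ⟨C₂, hC₂⟩ := hC₁ κ K hK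
    obtain ⟨W, hW⟩ := close_both.{u, v, w, x, y} hK hν f hf hdim hP hH₀ a hgen hS
    refine ⟨W + e * C₂, ?_⟩
    intro L _ _ _ _ _ _ _ _ _ z hz hzg hzf hH
    have s2 : IsScalarTower k₁ K L := IsScalarTower.of_algebraMap_eq fun c => by
      rw [IsScalarTower.algebraMap_apply k₁ k L, IsScalarTower.algebraMap_apply k K L,
        IsScalarTower.algebraMap_apply k₁ k K]
    have hL : IsFF κ L := hK.of_finite
    have hh : 0 ≤ height κ z := hL.height_nonneg hz
    have hF : (0 : ℤ) ≤ Module.finrank K L := Int.natCast_nonneg _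
    refine hsecond κ K hK L z hz _ _ ?_
    obtain ⟨M, hM⟩ : ∃ M : ℤ, M = trunc₁ S (e * δ) (hval H₀ P e a z) z := ⟨_, rfl⟩
    have hM0 : 0 ≤ M := by
      rw [hM]
      exact Int.natCast_nonneg _
    rw [← hM]
    have h1 := hC₂ L z hz hzg e (A * height κ z + B * (M + ramDeg κ L K) +
      W * Module.finrank K L) (by positivity) (fun S' hS' hSz => by
        obtain ⟨i, hi, j, hj, hij, hle⟩ := hW L z hz hzf hH S' hS' hSz
        refine ⟨i, hi, j, hj, hij, hle.trans (le_of_eq ?_)⟩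
        rw [hA, hB, hM])
    have h2 := final_arith (θ := θ) (C₁ := C₁ + 1) (A := A) (B := B) (e := e) (by omega)
      (by omega) he (h := height κ z) (M := M) (R := ramDeg κ L K) (W := W)
      (F := Module.finrank K L) (C₂ := C₂) hh (Int.natCast_nonneg _) hF (Int.natCast_nonneg _)
      (h1.trans (by
        refine add_le_add (mul_le_mul_of_nonneg_right ?_ (by positivity)) le_rfl
        push_cast
        linarith))
    push_cast at h2 ⊢
    exact h2

end Pool.Agent.Lib.MP_44a246_ntFP
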