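import Mathlib
import Pool.Agent.Lib.MP_44a246_ntFP.FP27

/-!
The height inequality with few parameters: forms without common zeros on the variety of the points.
-/

namespace Pool.Agent.Lib.MP_44a246_ntFP

open Pool.Agent.Lib.MP_44a246_nt
open Pool.Agent.Lib.MP_44a246_ntL
open Pool.Agent.Lib.MP_44a246_ntX
open Pool.Agent.Lib.MP_44a246_ntMS
open WithZero MvPolynomial

universe u v w x y

section

variable {k₁ k K : Type*} [Field k₁] [Field k] [Field K] [Algebra k K] [Algebra k₁ K]
  {N m q e s : ℕ}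

/-- the form `H` -/
noncomputable def hform (H₀ : MvPolynomial (Fin (N + 1)) k)
    (P : Fin q → MvPolynomial (Fin (N + 1)) k₁) (e : ℕ) (a : Fin q → K) :
    MvPolynomial (Fin (N + 1)) K :=
  map (algebraMap k K) H₀ + ∑ j, C (a j) * map (algebraMap k₁ K) (P j) ^ e

theorem aeval_hform {M : Type*} [Field M] [Algebra K M] [Algebra k M] [Algebra k₁ M]
    [IsScalarTower k K M] [IsScalarTower k₁ K M] (H₀ : MvPolynomial (Fin (N + 1)) k)
    (P : Fin q → MvPolynomial (Fin (N + 1)) k₁) (e : ℕ) (a : Fin q → K) (z : Fin (N + 1) → M) :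
    aeval z (hform H₀ P e a) = hval H₀ P e a z := by
  unfold hform hval
  rw [map_add, map_sum, aeval_map_algebraMap]
  congr 1
  refine Finset.sum_congr rfl fun j _ => ?_
  rw [map_mul, map_pow, aeval_C, aeval_map_algebraMap]

open Classical in
/-- the equations of the points -/
noncomputable def famF (g : Fin m → MvPolynomial (Fin (N + 1)) k₁)
    (f : Fin s → MvPolynomial (Fin (N + 1)) k) (Q : Prop) (H : MvPolynomial (Fin (N + 1)) K) :
    Fin (m + s + 1) → MvPolynomial (Fin (N + 1)) K :=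
  Fin.snoc (α := fun _ => MvPolynomial (Fin (N + 1)) K)
    (Fin.append (fun i => map (algebraMap k₁ K) (g i)) fun i => map (algebraMap k K) (f i))
    (if Q then 0 else H)

theorem famF_hom {g : Fin m → MvPolynomial (Fin (N + 1)) k₁} {dg : Fin m → ℕ}
    (hg : ∀ i, (g i).IsHomogeneous (dg i)) {df : Fin s → ℕ}
    {f : Fin s → MvPolynomial (Fin (N + 1)) k} (hf : ∀ i, (f i).IsHomogeneous (df i)) (Q : Prop)
    {H : MvPolynomial (Fin (N + 1)) K} {d : ℕ} (hH : H.IsHomogeneous d) (i : Fin (m + s + 1)) :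
    (famF g f Q H i).IsHomogeneous
      ((Fin.snoc (α := fun _ => ℕ) (Fin.append dg df) d : Fin (m + s + 1) → ℕ) i) := by
  unfold famF
  refine Fin.lastCases ?_ (fun i => ?_) i
  · rw [Fin.snoc_last, Fin.snoc_last]
    split_ifs
    · exact isHomogeneous_zero _ _ _
    · exact hH
  · rw [Fin.snoc_castSucc, Fin.snoc_castSucc]
    refine Fin.addCases (fun i => ?_) (fun i => ?_) i
    · rw [Fin.append_left, Fin.append_left]
      exact (hg i).map _
    · rw [Fin.append_right, Fin.append_right]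
      exact (hf i).map _

theorem famF_zero {M : Type*} [Field M] [Algebra K M] [Algebra k M] [Algebra k₁ M]
    [IsScalarTower k K M] [IsScalarTower k₁ K M] (g : Fin m → MvPolynomial (Fin (N + 1)) k₁)
    (f : Fin s → MvPolynomial (Fin (N + 1)) k) (Q : Prop) (H : MvPolynomial (Fin (N + 1)) K)
    (z : Fin (N + 1) → M) : (∀ i, aeval z (famF g f Q H i) = 0) ↔
      (∀ i, aeval z (g i) = 0) ∧ (∀ i, aeval z (f i) = 0) ∧ (aeval z H = 0 ∨ Q) := by
  unfold famF
  constructor
  · intro h
    refine ⟨fun i => ?_, fun i => ?_, ?_⟩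
    · have h1 := h (Fin.castSucc (Fin.castAdd s i))
      rwa [Fin.snoc_castSucc, Fin.append_left, aeval_map_algebraMap] at h1
    · have h1 := h (Fin.castSucc (Fin.natAdd m i))
      rwa [Fin.snoc_castSucc, Fin.append_right, aeval_map_algebraMap] at h1
    · have h1 := h (Fin.last _)
      rw [Fin.snoc_last] at h1
      by_cases hQ : Q
      · exact Or.inr hQ
      · rw [if_neg hQ] at h1
        exact Or.inl h1
  · rintro ⟨hg, hf, hH⟩ i
    refine Fin.lastCases ?_ (fun i => ?_) i
    · rw [Fin.snoc_last]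
      split_ifs with hQ
      · exact map_zero _
      · rcases hH with h | h
        · exact h
        · exact absurd h hQ
    · rw [Fin.snoc_castSucc]
      refine Fin.addCases (fun i => ?_) (fun i => ?_) i
      · rw [Fin.append_left, aeval_map_algebraMap]
        exact hg i
      · rw [Fin.append_right, aeval_map_algebraMap]
        exact hf i

end

/-- close pairs and forms without common zero, for the points with `H (x) = 0` or for all points -/
theorem nozero_height {κ : Type u} {K : Type v} [Field κ] [IsAlgClosed κ]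
    [CharZero κ] [Field K] [CharZero K] [Algebra κ K] (hK : IsFF κ K) {k₁ : Type y} [Field k₁]
    {k : Type x} [Field k] [Algebra k₁ k] [Algebra k K] [Algebra k₁ K] [IsScalarTower k₁ k K]
    {N m q ν r δ e s : ℕ} {Q : Prop}
    {g : Fin m → MvPolynomial (Fin (N + 1)) k₁} {P : Fin q → MvPolynomial (Fin (N + 1)) k₁}
    {dg : Fin m → ℕ} (hg : ∀ i, (g i).IsHomogeneous (dg i)) (hP : ∀ j, (P j).IsHomogeneous δ)
    {df : Fin s → ℕ} {f : Fin s → MvPolynomial (Fin (N + 1)) k}
    (hf : ∀ i, (f i).IsHomogeneous (df i)) {H₀ : MvPolynomial (Fin (N + 1)) k}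
    (hH₀ : H₀.IsHomogeneous (e * δ)) (a : Fin q → K) (hν : 1 ≤ ν) (hq : r * ν < q)
    (h : ∀ J : Finset (Fin q), J.card = r + 1 → ∀ y : Fin (N + 1) → AlgebraicClosure K, y ≠ 0 →
      (∀ i, aeval y (g i) = 0) → (∀ i, aeval y (f i) = 0) → (hval H₀ P e a y = 0 ∨ Q) →
      ∃ j ∈ J, aeval y (P j) ≠ 0) :
    ∃ C : ℕ, ∀ (L : Type w) [Field L] [Algebra K L] [FiniteDimensional K L] [Algebra κ L]
      [IsScalarTower κ K L] [Algebra k L] [IsScalarTower k K L] [Algebra k₁ L]
      [IsScalarTower k₁ K L] (z : Fin (N + 1) → L),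
      z ≠ 0 → (∀ i, aeval z (g i) = 0) → (∀ i, aeval z (f i) = 0) →
      (hval H₀ P e a z = 0 ∨ Q) → ∀ (E₁ : ℤ), 0 ≤ E₁ →
      (∀ S : Finset (Fin q), S.card = ν + 1 → (∀ j ∈ S, aeval z (P j) ≠ 0) →
        ∃ i ∈ S, ∃ j ∈ S, i ≠ j ∧
          (e : ℤ) * height κ ![aeval z (P i), aeval z (P j)] ≤ E₁) →
      ((e * δ : ℕ) : ℤ) * height κ z ≤ r * E₁ + e * (C * Module.finrank K L) := by
  classical
  have hHh : (hform H₀ P e a).IsHomogeneous (e * δ) := by
    unfold hform
    refine (hH₀.map _).add (IsHomogeneous.sum _ _ _ fun j _ => ?_)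
    have h1 := (isHomogeneous_C (Fin (N + 1)) (a j)).mul (((hP j).map (algebraMap k₁ K)).pow e)
    rw [zero_add, mul_comm δ e] at h1
    exact h1
  have hno : NoZero (k := K) (famF g f Q (hform H₀ P e a))
      (fun j => map (algebraMap k₁ K) (P j)) (r + 1) := by
    intro J hJ y hy hyP
    by_contra hy0
    rw [famF_zero, aeval_hform] at hy
    obtain ⟨j, hj, hj0⟩ := h J hJ y hy0 hy.1 hy.2.1 hy.2.2
    refine hj0 ?_
    have h1 := hyP j hj
    rwa [aeval_map_algebraMap] at h1
  obtain ⟨C, hC⟩ := hno.height_of_close.{u, v, w, v} (famF_hom hg hf Q hHh)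
    (fun j => (hP j).map _) hν hq hK
  refine ⟨C, ?_⟩
  intro L _ _ _ _ _ _ _ _ _ z hz hzg hzf hH E₁ hE₁ hclose
  refine hC L z hz ?_ e E₁ hE₁ ?_
  · rw [famF_zero, aeval_hform]
    exact ⟨hzg, hzf, hH⟩
  · intro S hS hSz
    simp only [aeval_map_algebraMap] at hSz ⊢
    exact hclose S hS hSz

end Pool.Agent.Lib.MP_44a246_ntFP
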