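import Mathlib
import Pool.Agent.Lib.MP_44a246_ntFP.FP31
import Pool.Agent.Lib.MP_44a246_ntFP.FP28

/-!
Close indices for a point, with the rank of the point, for all fields of definition of the form.
-/

namespace Pool.Agent.Lib.MP_44a246_ntFP

open Pool.Agent.Lib.MP_44a246_nt
open Pool.Agent.Lib.MP_44a246_ntL
open Pool.Agent.Lib.MP_44a246_ntX
open Pool.Agent.Lib.MP_44a246_ntTV
open Pool.Agent.Lib.MP_44a246_ntMS
open Pool.Agent.Lib.MP_44a246_ntD (trdeg_adjoin_lt)
open Pool.Agent.Lib.MP_44a246_ntMU (ncard_le_trunc)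
open WithZero MvPolynomial

universe u v w x y

/-- a polynomial is defined over a field of finite transcendence degree which contains a given
one -/
theorem exists_base_over {k₁ : Type y} [Field k₁] [CharZero k₁] {k : Type x} [Field k]
    [CharZero k] [Algebra k₁ k] (h : Algebra.trdeg ℚ k₁ < Cardinal.aleph0) {σ : Type*}
    (H : MvPolynomial σ k) :
    ∃ (k₀ : Type x) (_ : Field k₀) (_ : CharZero k₀) (_ : Algebra k₁ k₀) (_ : Algebra k₀ k)
      (_ : IsScalarTower k₁ k₀ k), Algebra.trdeg ℚ k₀ < Cardinal.aleph0 ∧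
      ∃ H₀ : MvPolynomial σ k₀, map (algebraMap k₀ k) H₀ = H := by
  classical
  obtain ⟨g, hg⟩ : ∃ g : {m // m ∈ H.support} → k, ∀ s, g s = H.coeff s.1 := ⟨_, fun _ => rfl⟩
  have h1 := trdeg_adjoin_lt (F := k₁) (K := k) h g
  obtain ⟨F, hF⟩ : ∃ F : IntermediateField k₁ k, F = IntermediateField.adjoin k₁ (Set.range g) :=
    ⟨_, rfl⟩
  rw [← hF] at h1
  have hmem : ∀ m, H.coeff m ∈ F := by
    intro m
    by_cases hm : m ∈ H.support
    · rw [hF, ← hg ⟨m, hm⟩]
      exact IntermediateField.subset_adjoin _ _ ⟨_, rfl⟩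
    · rw [notMem_support_iff.1 hm]
      exact F.zero_mem
  refine ⟨F, inferInstance, inferInstance, inferInstance, inferInstance, inferInstance, ?_,
    ∑ m ∈ H.support, monomial m ⟨H.coeff m, hmem m⟩, ?_⟩
  · convert h1
  rw [map_sum]
  conv_rhs => rw [H.as_sum]
  exact Finset.sum_congr rfl fun m _ => by rw [map_monomial]; rfl

/-- the constants do not get smaller -/
theorem const_mono₂ {m n a b dP : ℕ} (hmn : m ≤ n) (h : a ≤ b) :
    (m + 1) * (1 + tri a * (a + 1)) + tri a * (a + 1) * dP ≤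
      (n + 1) * (1 + tri b * (b + 1)) + tri b * (b + 1) * dP ∧
    1 + tri a * (a + 1) + tri a ≤ 1 + tri b * (b + 1) + tri b ∧
    1 + tri a * (a + 1) ≤ 1 + tri b * (b + 1) + tri b := by
  have h1 := tri_mono h
  have h2 : tri a * (a + 1) ≤ tri b * (b + 1) := Nat.mul_le_mul h1 (by omega)
  refine ⟨Nat.add_le_add (Nat.mul_le_mul (by omega) (by omega)) (Nat.mul_le_mul_right _ h2), ?_, ?_⟩
  · omega
  · omega

/-- **Close indices** with the rank of the point over `k₁`. -/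
theorem close_rk {κ : Type u} {K : Type v} [Field κ] [IsAlgClosed κ] [CharZero κ]
    [Field K] [CharZero K] [Algebra κ K] (hK : IsFF κ K) {k₁ : Type y} [Field k₁] [CharZero k₁]
    (htk : Algebra.trdeg ℚ k₁ < Cardinal.aleph0)
    {k : Type x} [Field k] [CharZero k] [Algebra k₁ k] [Algebra k K]
    {N n c c' q e dP : ℕ} (hc' : c' = c ∨ c' = c + 1)
    {P : Fin q → MvPolynomial (Fin (N + 1)) k₁} (hP : ∀ j, (P j).IsHomogeneous dP)
    {H₀ : MvPolynomial (Fin (N + 1)) k} (hH₀ : H₀.IsHomogeneous (e * dP)) (a : Fin q → K)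
    (hgen : (q : Cardinal) ≤ Algebra.trdeg k (IntermediateField.adjoin k (Set.range a)) + c)
    {S₀ : Set (Place κ K)} (hS₀ : S₀.Finite) :
    ∃ W : ℕ, ∀ (L : Type w) [Field L] [Algebra K L] [FiniteDimensional K L] [Algebra κ L]
        [IsScalarTower κ K L] [Algebra k L] [IsScalarTower k K L] [Algebra k₁ L]
        [IsScalarTower k₁ k L] (z : Fin (N + 1) → L) (l₀ : Fin (N + 1)), z l₀ = 1 →
        (hval H₀ P e a z = 0 ∨ c' = c + 1) → ∀ r ≤ n,
        (∀ (p : ℕ) (j : Fin p → Fin (N + 1)), AlgebraicIndependent k₁ (fun i => z (j i)) →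
          p ≤ r) →
        ∀ S : Finset (Fin q), S.card = r + c' + 1 → (∀ j ∈ S, aeval z (P j) ≠ 0) →
        ∃ i ∈ S, ∃ j ∈ S, i ≠ j ∧
          (e : ℤ) * height κ ![aeval z (P i), aeval z (P j)] ≤
          (((n + 1) * (1 + tri (n + c') * (n + c' + 1)) +
            tri (n + c') * (n + c' + 1) * dP : ℕ) : ℤ) * height κ z +
          ((1 + tri (n + c') * (n + c' + 1) + tri (n + c') : ℕ) : ℤ) *
            (trunc₁ S₀ (e * dP) (hval H₀ P e a z) z + ramDeg κ L K) +
          W * Module.finrank K L := by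
  classical
  let _ : Algebra k₁ K := ((algebraMap k K).comp (algebraMap k₁ k)).toAlgebra
  have t0 : IsScalarTower k₁ k K := IsScalarTower.of_algebraMap_eq fun _ => rfl
  obtain ⟨k₀, _, _, _, _, _, htk₀, G₀, hG₀⟩ := exists_base_over htk H₀
  let _ : Algebra k₀ K := ((algebraMap k K).comp (algebraMap k₀ k)).toAlgebra
  have t1 : IsScalarTower k₀ k K := IsScalarTower.of_algebraMap_eq fun _ => rfl
  have t2 : IsScalarTower k₁ k₀ K := IsScalarTower.of_algebraMap_eq fun c => by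
    rw [IsScalarTower.algebraMap_apply k₁ k K, IsScalarTower.algebraMap_apply k₁ k₀ k]
    rfl
  have hgen' : (q : Cardinal) ≤
      Algebra.trdeg k₀ (IntermediateField.adjoin k₀ (Set.range a)) + c := by
    refine hgen.trans ?_
    gcongr
    exact trdeg_adjoin_le (k₀ := k₀) (k := k) _
  have hcore := fun r : ℕ => close_rk_core.{u, v, w, x} hK (k := k₀) htk₀ (c := c) r
    (P := fun j => map (algebraMap k₁ k₀) (P j)) (fun j => (hP j).map _) G₀ a hgen'
  choose W hW using hcore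
  -- the counting function
  have hHh : (hform H₀ P e a).IsHomogeneous (e * dP) := by
    unfold hform
    refine (hH₀.map _).add (IsHomogeneous.sum _ _ _ fun j _ => ?_)
    have h1 := (isHomogeneous_C (Fin (N + 1)) (a j)).mul (((hP j).map (algebraMap k₁ K)).pow e)
    rw [zero_add, mul_comm dP e] at h1
    exact h1
  obtain ⟨C₂, hC₂⟩ := ncard_le_trunc.{u, v, w} hK (B' := Unit) (F := fun _ => hform H₀ P e a)
    (d := fun _ => e * dP) (fun _ => hHh) hS₀
  refine ⟨∑ r ∈ Finset.range (n + 1), W r +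
    (1 + tri (n + c') * (n + c' + 1) + tri (n + c')) * C₂, ?_⟩
  intro L _ _ _ _ _ _ _ _ _ z l₀ hz hH r hr hrk S hS hSz
  have hLc : CharZero L := charZero_of_injective_algebraMap (algebraMap K L).injective
  have hL : IsFF κ L := hK.of_finite
  have hz0 : z ≠ 0 := by
    intro h0
    rw [h0] at hz
    exact zero_ne_one hz
  let _ : Algebra k₀ L := ((algebraMap k L).comp (algebraMap k₀ k)).toAlgebra
  have s1 : IsScalarTower k₀ k L := IsScalarTower.of_algebraMap_eq fun _ => rfl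
  have s2 : IsScalarTower k₀ K L := IsScalarTower.of_algebraMap_eq fun c => by
    rw [IsScalarTower.algebraMap_apply k₀ k L, IsScalarTower.algebraMap_apply k K L,
      IsScalarTower.algebraMap_apply k₀ k K]
  have s3 : IsScalarTower k₁ K L := IsScalarTower.of_algebraMap_eq fun c => by
    rw [IsScalarTower.algebraMap_apply k₁ k L, IsScalarTower.algebraMap_apply k K L,
      IsScalarTower.algebraMap_apply k₁ k K]
  have s4 : IsScalarTower k₁ k₀ L := IsScalarTower.of_algebraMap_eq fun c => by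
    rw [IsScalarTower.algebraMap_apply k₁ k L, IsScalarTower.algebraMap_apply k₁ k₀ k]
    rfl
  have hval1 : aeval z G₀ + ∑ j, algebraMap K L (a j) *
      aeval z (map (algebraMap k₁ k₀) (P j)) ^ e = hval H₀ P e a z := by
    unfold hval
    rw [← hG₀, aeval_map_algebraMap]
    simp only [aeval_map_algebraMap]
  have hrk₀ : ∀ (p : ℕ) (j : Fin p → Fin (N + 1)), AlgebraicIndependent k₀ (fun i => z (j i)) →
      p ≤ r := fun p j hj => hrk p j
        (AlgebraicIndependent.restrictScalars (algebraMap k₁ k₀).injective hj)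
  obtain ⟨hW1, hW2⟩ := hW r L z l₀ hz hrk₀ e
  rw [hval1] at hW1 hW2
  simp only [aeval_map_algebraMap] at hW1 hW2
  have hh : 0 ≤ height κ z := hL.height_nonneg hz0
  have hF : (0 : ℤ) ≤ Module.finrank K L := Int.natCast_nonneg _
  have hR : (0 : ℤ) ≤ ramDeg κ L K := Int.natCast_nonneg _
  have hM : (0 : ℤ) ≤ trunc₁ S₀ (e * dP) (hval H₀ P e a z) z := Int.natCast_nonneg _
  have hWr : (W r : ℤ) ≤ (∑ r ∈ Finset.range (n + 1), W r : ℕ) := by
    exact_mod_cast Finset.single_le_sum (f := W) (fun _ _ => Nat.zero_le _)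
      (Finset.mem_range.2 (by omega : r < n + 1))
  obtain ⟨T, hT⟩ : ∃ T : ℕ, T = 1 + tri (n + c') * (n + c' + 1) + tri (n + c') := ⟨_, rfl⟩
  rw [← hT]
  have hT0 : (0 : ℤ) ≤ T := Int.natCast_nonneg _
  by_cases hH0 : hval H₀ P e a z = 0
  · obtain ⟨S', hS', hSc'⟩ := Finset.exists_subset_card_eq (by omega : r + c + 1 ≤ S.card)
    obtain ⟨i, hi, j, hj, hij, hle⟩ := hW1 hH0 (r + c) rfl S' hSc' fun j hj => hSz j (hS' hj)
    refine ⟨i, hS' hi, j, hS' hj, hij, hle.trans ?_⟩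
    obtain ⟨h1, h2, -⟩ := const_mono₂ (dP := dP) hr (by omega : r + c ≤ n + c')
    rw [← hT] at h2
    refine add_le_add (add_le_add (mul_le_mul_of_nonneg_right (by exact_mod_cast h1) hh) ?_) ?_
    · calc _ ≤ (T : ℤ) * ramDeg κ L K :=
          mul_le_mul_of_nonneg_right (by exact_mod_cast h2) hR
        _ ≤ _ := mul_le_mul_of_nonneg_left (by linarith) hT0
    · refine mul_le_mul_of_nonneg_right ?_ hF
      have h3 : (0 : ℤ) ≤ (T : ℤ) * C₂ := mul_nonneg hT0 (Int.natCast_nonneg _)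
      push_cast at hWr ⊢
      linarith
  · obtain rfl : c' = c + 1 := by
      rcases hH with h | h
      · exact absurd h hH0
      · exact h
    obtain ⟨i, hi, j, hj, hij, hle⟩ := hW2 hH0 (r + c + 1) (e * dP) rfl S (by omega) hSz
    refine ⟨i, hi, j, hj, hij, hle.trans ?_⟩
    have h5 := hC₂ L z hz0 (fun _ => by
      rw [aeval_hform]
      exact hH0)
    have h4 : {w : Place κ L | w.1 (hval H₀ P e a z) ≠ vmax w.1 z ^ (e * dP)} =
        {w : Place κ L | ∃ _ : Unit, w.1 (aeval z (hform H₀ P e a)) ≠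
          vmax w.1 z ^ (e * dP)} := by
      ext w
      rw [aeval_hform]
      exact ⟨fun h => ⟨(), h⟩, fun ⟨_, h⟩ => h⟩
    have h6 : {w : Place κ L | (∀ v ∈ S₀, ¬ (w.1.comap (algebraMap K L)).IsEquiv v.1) ∧
        ∃ _ : Unit, w.1 (aeval z (hform H₀ P e a)) < vmax w.1 z ^ (e * dP)} =
        {w : Place κ L | (∀ v ∈ S₀, ¬ (w.1.comap (algebraMap K L)).IsEquiv v.1) ∧
          w.1 (hval H₀ P e a z) < vmax w.1 z ^ (e * dP)} := by
      ext w
      rw [aeval_hform]
      exact ⟨fun ⟨h7, _, h8⟩ => ⟨h7, h8⟩, fun ⟨h7, h8⟩ => ⟨h7, (), h8⟩⟩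
    rw [← h4, h6] at h5
    have h7 : (({w : Place κ L | w.1 (hval H₀ P e a z) ≠ vmax w.1 z ^ (e * dP)}.ncard : ℕ) : ℤ) ≤
        trunc₁ S₀ (e * dP) (hval H₀ P e a z) z + C₂ * Module.finrank K L := by
      unfold trunc₁
      exact_mod_cast h5
    obtain ⟨h1, h2, h3⟩ := const_mono₂ (dP := dP) hr (by omega : r + c + 1 ≤ n + (c + 1))
    rw [← hT] at h2 h3
    obtain ⟨Y, hY⟩ : ∃ Y : ℤ, Y = (({w : Place κ L | w.1 (hval H₀ P e a z) ≠
      vmax w.1 z ^ (e * dP)}.ncard : ℕ) : ℤ) := ⟨_, rfl⟩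
    rw [← hY] at h7 ⊢
    have hY0 : 0 ≤ Y := by
      rw [hY]
      exact Int.natCast_nonneg _
    obtain ⟨M, hMd⟩ : ∃ M : ℤ, M = trunc₁ S₀ (e * dP) (hval H₀ P e a z) z := ⟨_, rfl⟩
    rw [← hMd] at h7 hM ⊢
    obtain ⟨F, hFd⟩ : ∃ F : ℤ, F = (Module.finrank K L : ℤ) := ⟨_, rfl⟩
    rw [← hFd] at h7 hF ⊢
    obtain ⟨R, hRd⟩ : ∃ R : ℤ, R = (ramDeg κ L K : ℤ) := ⟨_, rfl⟩
    rw [← hRd] at hR ⊢
    have e1 := mul_le_mul_of_nonneg_right (a := height κ z)
      (by exact_mod_cast h1 : (((r + 1) * (1 + tri (r + c + 1) * (r + c + 1 + 1)) +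
        tri (r + c + 1) * (r + c + 1 + 1) * dP : ℕ) : ℤ) ≤
        (((n + 1) * (1 + tri (n + (c + 1)) * (n + (c + 1) + 1)) +
          tri (n + (c + 1)) * (n + (c + 1) + 1) * dP : ℕ) : ℤ)) hh
    have e2 := mul_le_mul_of_nonneg_right (a := Y)
      (by exact_mod_cast h3 : ((1 + tri (r + c + 1) * (r + c + 1 + 1) : ℕ) : ℤ) ≤ T) hY0
    have e3 := mul_le_mul_of_nonneg_right (a := R)
      (by exact_mod_cast h2 : ((1 + tri (r + c + 1) * (r + c + 1 + 1) + tri (r + c + 1) : ℕ) : ℤ) ≤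
        T) hR
    have e4 := mul_le_mul_of_nonneg_left h7 hT0
    have e5 := mul_le_mul_of_nonneg_right hWr hF
    have e6 : (((∑ r ∈ Finset.range (n + 1), W r + T * C₂ : ℕ) : ℤ)) * F =
        ((∑ r ∈ Finset.range (n + 1), W r : ℕ) : ℤ) * F + T * (C₂ * F) := by
      push_cast
      ring
    rw [e6]
    linarith

end Pool.Agent.Lib.MP_44a246_ntFP
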