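import Mathlib
import Pool.Agent.Lib.MP_44a246_ntFP.FP28

/-!
The height inequality with few parameters, the final form with both conditions for the exponent.
-/

namespace Pool.Agent.Lib.MP_44a246_ntFP

open Pool.Agent.Lib.MP_44a246_nt
open Pool.Agent.Lib.MP_44a246_ntL
open Pool.Agent.Lib.MP_44a246_ntX
open Pool.Agent.Lib.MP_44a246_ntMS
open WithZero MvPolynomial

universe u v w x y

/-- **The height inequality with few parameters.** -/
theorem few_final₂ {k₁ : Type y} [Field k₁] {N m q n c δ ν θ : ℕ} (hn : 1 ≤ n) (hδ : 1 ≤ δ)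
    (hν : ν = n + c ∨ ν = n + c + 1) {g : Fin m → MvPolynomial (Fin (N + 1)) k₁}
    {dg : Fin m → ℕ} (hg : ∀ i, (g i).IsHomogeneous (dg i))
    {P : Fin q → MvPolynomial (Fin (N + 1)) k₁} (hP : ∀ j, (P j).IsHomogeneous δ) :
    ∃ e₀ : ℕ, ∀ (κ : Type u) (K : Type v) [Field κ] [IsAlgClosed κ] [CharZero κ] [Field K]
      [CharZero K] [Algebra κ K], IsFF κ K → ∀ (k : Type x) [Field k] [CharZero k]
      [Algebra k₁ k] [Algebra k K] [Algebra k₁ K] [IsScalarTower k₁ k K] (e : ℕ) {s : ℕ}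
      {df : Fin s → ℕ} (f : Fin s → MvPolynomial (Fin (N + 1)) k),
      (∀ i, (f i).IsHomogeneous (df i)) →
      ringKrullDim (MvPolynomial (Fin (N + 1)) k ⧸ Ideal.span (Set.range f)) ≤
        ((n + 1 : ℕ) : WithBot ℕ∞) →
      ∀ (H₀ : MvPolynomial (Fin (N + 1)) k), H₀.IsHomogeneous (e * δ) → ∀ (a : Fin q → K),
      (q : Cardinal) ≤ Algebra.trdeg k (IntermediateField.adjoin k (Set.range a)) + c →
      (Sep g P (ν + 1) ∧ e₀ ≤ e ∨ ∃ r, 1 ≤ r ∧ r * ν < q ∧ r * (ν + 1) ^ 3 * (n + θ + 2) ≤ e ∧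
        ∀ J : Finset (Fin q), J.card = r + 1 → ∀ y : Fin (N + 1) → AlgebraicClosure K, y ≠ 0 →
          (∀ i, aeval y (g i) = 0) → (∀ i, aeval y (f i) = 0) →
          (hval H₀ P e a y = 0 ∨ ν = n + c + 1) → ∃ j ∈ J, aeval y (P j) ≠ 0) →
      ∀ S : Set (Place κ K), S.Finite →
      ∃ C : ℕ, ∀ (L : Type w) [Field L] [Algebra K L] [FiniteDimensional K L] [Algebra κ L]
        [IsScalarTower κ K L] [Algebra k L] [IsScalarTower k K L] [Algebra k₁ L]
        [IsScalarTower k₁ K L] (z : Fin (N + 1) → L), z ≠ 0 →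
        (∀ i, aeval z (g i) = 0) → (∀ i, aeval z (f i) = 0) →
        (hval H₀ P e a z = 0 ∨ ν = n + c + 1) →
        (θ : ℤ) * height κ z ≤ trunc₁ S (e * δ) (hval H₀ P e a z) z + ramDeg κ L K +
          C * Module.finrank K L ∧
        (pointField K z = ⊤ → ((θ : ℤ) - 2 * ((Module.finrank K L : ℤ) - 1)) * height κ z ≤
          trunc₁ S (e * δ) (hval H₀ P e a z) z + C * Module.finrank K L) := by
  classical
  obtain ⟨A, hA⟩ : ∃ A : ℕ, A = (n + 1) * (1 + tri ν * (ν + 1)) + tri ν * (ν + 1) * δ := ⟨_, rfl⟩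
  obtain ⟨B, hB⟩ : ∃ B : ℕ, B = 1 + tri ν * (ν + 1) + tri ν := ⟨_, rfl⟩
  have hν1 : 1 ≤ ν := by omega
  -- the second inequality follows from the first one
  have hsecond : ∀ (κ : Type u) (K : Type v) [Field κ] [IsAlgClosed κ] [CharZero κ] [Field K]
      [CharZero K] [Algebra κ K], IsFF κ K → ∀ (L : Type w) [Field L] [Algebra K L]
      [FiniteDimensional K L] [Algebra κ L] [IsScalarTower κ K L] (z : Fin (N + 1) → L), z ≠ 0 →
      ∀ M C : ℤ, (θ : ℤ) * height κ z ≤ M + ramDeg κ L K + C * Module.finrank K L →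
      (θ : ℤ) * height κ z ≤ M + ramDeg κ L K + C * Module.finrank K L ∧
      (pointField K z = ⊤ → ((θ : ℤ) - 2 * ((Module.finrank K L : ℤ) - 1)) * height κ z ≤
        M + C * Module.finrank K L) := by
    intro κ K _ _ _ _ _ _ hK L _ _ _ _ _ z hz M C h1
    refine ⟨h1, fun hgen => ?_⟩
    have h2 := ramDeg_point hK z hz hgen
    linarith
  obtain ⟨C₁, hC₁⟩ : ∃ C₁ : ℕ, Sep g P (ν + 1) → ∀ (κ : Type u) (K : Type v) [Field κ]
      [IsAlgClosed κ] [CharZero κ] [Field K] [CharZero K] [Algebra κ K], IsFF κ K →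
      ∀ [Algebra k₁ K], ∃ C : ℕ, ∀ (L : Type w) [Field L] [Algebra K L] [FiniteDimensional K L]
        [Algebra κ L] [IsScalarTower κ K L] [Algebra k₁ L] [IsScalarTower k₁ K L]
        (z : Fin (N + 1) → L), z ≠ 0 → (∀ i, aeval z (g i) = 0) → ∀ (e : ℕ) (E₁ : ℤ), 0 ≤ E₁ →
        (∀ S : Finset (Fin q), S.card = ν + 1 → (∀ j ∈ S, aeval z (P j) ≠ 0) →
          ∃ i ∈ S, ∃ j ∈ S, i ≠ j ∧
            (e : ℤ) * height κ ![aeval z (P i), aeval z (P j)] ≤ E₁) →
        (e : ℤ) * height κ z ≤ C₁ * E₁ + e * (C * Module.finrank K L) := by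
    by_cases hsep : Sep g P (ν + 1)
    · obtain ⟨C₁, hC₁⟩ := hsep.height_of_close.{u, v, w, y} hg hP
      exact ⟨C₁, fun _ => hC₁⟩
    · exact ⟨0, fun h => absurd h hsep⟩
  refine ⟨(C₁ + 1) * (A + θ * B), ?_⟩
  intro κ K _ _ _ _ _ _ hK k _ _ _ _ _ _ e s df f hf hdim H₀ hH₀ a hgen hcase S hS
  obtain ⟨W, hW⟩ := close_both.{u, v, w, x, y} hK hν f hf hdim hP hH₀ a hgen hS
  rcases hcase with ⟨hsep, he⟩ | ⟨r, hr, hrq, he, hno⟩
  · obtain ⟨C₂, hC₂⟩ := hC₁ hsep κ K hK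
    refine ⟨W + e * C₂, ?_⟩
    intro L _ _ _ _ _ _ _ _ _ z hz hzg hzf hH
    have s2 : IsScalarTower k₁ k L := IsScalarTower.of_algebraMap_eq fun c => by
      rw [IsScalarTower.algebraMap_apply k₁ K L, IsScalarTower.algebraMap_apply k₁ k K,
        IsScalarTower.algebraMap_apply k K L]
    have hL : IsFF κ L := hK.of_finite
    have hh : 0 ≤ height κ z := hL.height_nonneg hz
    have hF : (0 : ℤ) ≤ Module.finrank K L := Int.natCast_nonneg _
    refine hsecond κ K hK L z hz _ _ ?_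
    obtain ⟨M, hM⟩ : ∃ M : ℤ, M = trunc₁ S (e * δ) (hval H₀ P e a z) z := ⟨_, rfl⟩
    have hM0 : 0 ≤ M := by
      rw [hM]
      exact Int.natCast_nonneg _
    rw [← hM]
    have h1 := hC₂ L z hz hzg e (A * height κ z + B * (M + ramDeg κ L K) +
      W * Module.finrank K L) (by positivity) (fun S' hS' hSz => by
        obtain ⟨i, hi, j, hj, hij, hle⟩ := hW L z hz hzf hH S' hS' hSz
        refine ⟨i, hi, j, hj, hij, hle.trans (le_of_eq ?_)⟩
        rw [hA, hB, hM])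
    have h2 := final_arith (θ := θ) (C₁ := C₁ + 1) (A := A) (B := B) (e := e) (by omega)
      (by omega) he (h := height κ z) (M := M) (R := ramDeg κ L K) (W := W)
      (F := Module.finrank K L) (C₂ := C₂) hh (Int.natCast_nonneg _) hF (Int.natCast_nonneg _)
      (h1.trans (by
        refine add_le_add (mul_le_mul_of_nonneg_right ?_ (by positivity)) le_rfl
        push_cast
        linarith))
    push_cast at h2 ⊢
    exact h2
  · obtain ⟨C₂, hC₂⟩ := nozero_height.{u, v, w, x, y} hK hg hP hf hH₀ a hν1 hrq hno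
    refine ⟨W + e * δ * C₂, ?_⟩
    intro L _ _ _ _ _ _ _ _ _ z hz hzg hzf hH
    have s2 : IsScalarTower k₁ k L := IsScalarTower.of_algebraMap_eq fun c => by
      rw [IsScalarTower.algebraMap_apply k₁ K L, IsScalarTower.algebraMap_apply k₁ k K,
        IsScalarTower.algebraMap_apply k K L]
    have hL : IsFF κ L := hK.of_finite
    have hh : 0 ≤ height κ z := hL.height_nonneg hz
    have hF : (0 : ℤ) ≤ Module.finrank K L := Int.natCast_nonneg _
    refine hsecond κ K hK L z hz _ _ ?_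
    obtain ⟨M, hM⟩ : ∃ M : ℤ, M = trunc₁ S (e * δ) (hval H₀ P e a z) z := ⟨_, rfl⟩
    have hM0 : 0 ≤ M := by
      rw [hM]
      exact Int.natCast_nonneg _
    rw [← hM]
    have h1 := hC₂ L z hz hzg hzf hH (A * height κ z + B * (M + ramDeg κ L K) +
      W * Module.finrank K L) (by positivity) (fun S' hS' hSz => by
        obtain ⟨i, hi, j, hj, hij, hle⟩ := hW L z hz hzf hH S' hS' hSz
        refine ⟨i, hi, j, hj, hij, hle.trans (le_of_eq ?_)⟩
        rw [hA, hB, hM])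
    rw [hA, hB] at h1
    have h2 := final_arith_gp (θ := θ) hr hδ he hh (Int.natCast_nonneg _) hF
      (Int.natCast_nonneg _) h1
    push_cast at h2 ⊢
    exact h2

end Pool.Agent.Lib.MP_44a246_ntFP
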